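import Mathlib

set_option autoImplicit false

/-!
An additive function of intervals which is invariant under two reflections with an irrational angle,
except possibly for intervals which contain fixed points of the reflections, is bounded by a
multiple of the length.
-/

namespace Pool.Agent.Q183.BX

open Set Filter Topology

open scoped Real

/-- an additive interval function on the set `F` -/
structure IntF (F : Set ℝ) (v : ℝ → ℝ → ℝ) (a b : ℝ) : Prop where
  dense : Dense F
  nonneg : ∀ x ∈ F, ∀ y ∈ F, x ≤ y → 0 ≤ v x y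
  add : ∀ x ∈ F, ∀ y ∈ F, ∀ z ∈ F, x ≤ y → y ≤ z → v x y + v y z = v x z
  fa : ∀ x ∈ F, 2 * a - x ∈ F
  fb : ∀ x ∈ F, 2 * b - x ∈ F
  fp : ∀ x ∈ F, x + 2 * π ∈ F
  fm : ∀ x ∈ F, x - 2 * π ∈ F
  per : ∀ x ∈ F, ∀ y ∈ F, x ≤ y → v (x + 2 * π) (y + 2 * π) = v x y
  ra : ∀ x ∈ F, ∀ y ∈ F, x ≤ y → (∀ z ∈ Icc x y, Real.sin (z - a) ≠ 0) →
    v (2 * a - y) (2 * a - x) = v x y
  rb : ∀ x ∈ F, ∀ y ∈ F, x ≤ y → (∀ z ∈ Icc x y, Real.sin (z - b) ≠ 0) →
    v (2 * b - y) (2 * b - x) = v x y
  sa : ∀ x ∈ F, Real.sin (x - a) ≠ 0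
  sb : ∀ x ∈ F, Real.sin (x - b) ≠ 0

namespace IntF

variable {F : Set ℝ} {v : ℝ → ℝ → ℝ} {a b : ℝ}

theorem swap (h : IntF F v a b) : IntF F v b a :=
  ⟨h.dense, h.nonneg, h.add, h.fb, h.fa, h.fp, h.fm, h.per, h.rb, h.ra, h.sb, h.sa⟩

theorem mono (h : IntF F v a b) {x y z w : ℝ} (hx : x ∈ F) (hy : y ∈ F) (hz : z ∈ F) (hw : w ∈ F)
    (h1 : x ≤ y) (h2 : y ≤ z) (h3 : z ≤ w) : v y z ≤ v x w := by
  have e1 := h.add x hx y hy z hz h1 h2
  have e2 := h.add x hx z hz w hw (h1.trans h2) h3
  have e3 := h.nonneg x hx y hy h1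
  have e4 := h.nonneg z hz w hw h3
  linarith

theorem exists_btw (h : IntF F v a b) {x y : ℝ} (hxy : x < y) : ∃ z ∈ F, x < z ∧ z < y := by
  obtain ⟨z, hz, hz1, hz2⟩ := h.dense.exists_between hxy
  exact ⟨z, hz, hz1, hz2⟩

/-- the variation near `t` is at least `J` -/
def Jg (F : Set ℝ) (v : ℝ → ℝ → ℝ) (J t : ℝ) : Prop :=
  ∀ x ∈ F, ∀ y ∈ F, x < t → t < y → J ≤ v x y

theorem jg_ra (h : IntF F v a b) {J t : ℝ} (ht : Real.sin (t - a) ≠ 0) (hJ : Jg F v J t) :
    Jg F v J (2 * a - t) := by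
  intro x hx y hy hxt hty
  -- a neighbourhood without fixed points
  have hc : ContinuousAt (fun z : ℝ => Real.sin (z - a)) t := by fun_prop
  obtain ⟨δ, hδ, hball⟩ := Metric.eventually_nhds_iff.1 (hc.eventually_ne ht)
  obtain ⟨x', hx', h1, h2⟩ := h.exists_btw (x := max (t - δ) (2 * a - y)) (y := t)
    (max_lt (by linarith) (by linarith))
  obtain ⟨y', hy', h3, h4⟩ := h.exists_btw (x := t) (y := min (t + δ) (2 * a - x))
    (lt_min (by linarith) (by linarith))
  have h1a := lt_of_le_of_lt (le_max_left _ _) h1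
  have h1b := lt_of_le_of_lt (le_max_right _ _) h1
  have h4a := lt_of_lt_of_le h4 (min_le_left _ _)
  have h4b := lt_of_lt_of_le h4 (min_le_right _ _)
  have e1 := h.ra x' hx' y' hy' (h2.trans h3).le (fun z hz => by
    refine hball ?_
    rw [Real.dist_eq, abs_lt]
    constructor
    · linarith [hz.1]
    · linarith [hz.2])
  have e2 := hJ x' hx' y' hy' h2 h3
  have e3 := h.mono hx (h.fa y' hy') (h.fa x' hx') hy (by linarith) (by linarith) (by linarith)
  linarith

theorem jg_per (h : IntF F v a b) {J t : ℝ} (hJ : Jg F v J t) : Jg F v J (t + 2 * π) := by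
  intro x hx y hy hxt hty
  have e1 := hJ (x - 2 * π) (h.fm x hx) (y - 2 * π) (h.fm y hy) (by linarith) (by linarith)
  have e2 := h.per (x - 2 * π) (h.fm x hx) (y - 2 * π) (h.fm y hy) (by linarith)
  rw [sub_add_cancel, sub_add_cancel] at e2
  linarith

theorem jg_per' (h : IntF F v a b) {J t : ℝ} (hJ : Jg F v J t) : Jg F v J (t - 2 * π) := by
  intro x hx y hy hxt hty
  have e1 := hJ (x + 2 * π) (h.fp x hx) (y + 2 * π) (h.fp y hy) (by linarith) (by linarith)
  have e2 := h.per x hx y hy (by linarith)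
  linarith

theorem jg_int (h : IntF F v a b) {J t : ℝ} (hJ : Jg F v J t) (k : ℤ) :
    Jg F v J (t + k * (2 * π)) := by
  induction k using Int.induction_on with
  | zero => simpa using hJ
  | succ k ih =>
      have := h.jg_per ih
      have e : t + ((k : ℤ) : ℝ) * (2 * π) + 2 * π = t + ((((k : ℤ) + 1 : ℤ)) : ℝ) * (2 * π) := by
        push_cast
        ring
      rwa [e] at this
  | pred k ih =>
      have := h.jg_per' ih
      have e : t + ((-(k : ℤ) : ℤ) : ℝ) * (2 * π) - 2 * π =
          t + (((-(k : ℤ) - 1 : ℤ)) : ℝ) * (2 * π) := by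
        push_cast
        ring
      rwa [e] at this

theorem jg_sum (h : IntF F v a b) {J A : ℝ} (hA : A ∈ F) (T : Finset ℝ) :
    (∀ t ∈ T, Jg F v J t) → (∀ t ∈ T, A < t) → ∀ B ∈ F, A ≤ B → (∀ t ∈ T, t < B) →
      (T.card : ℝ) * J ≤ v A B := by
  induction T using Finset.induction_on_max with
  | empty =>
      intro _ _ B hB hAB _
      rw [Finset.card_empty, Nat.cast_zero, zero_mul]
      exact h.nonneg A hA B hB hAB
  | insert m T hm ih =>
      intro h1 h2 B hB hAB h3
      have hmT : m ∉ T := fun hmem => lt_irrefl _ (hm m hmem)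
      -- a point between
      obtain ⟨l, hl1, hl2, hl3⟩ : ∃ l : ℝ, A ≤ l ∧ l < m ∧ ∀ t ∈ T, t ≤ l := by
        rcases T.eq_empty_or_nonempty with h0 | h0
        · refine ⟨A, le_refl _, h2 m (Finset.mem_insert_self _ _), ?_⟩
          rw [h0]
          simp
        · refine ⟨T.max' h0, ?_, hm _ (T.max'_mem h0), fun t ht => T.le_max' t ht⟩
          exact (h2 _ (Finset.mem_insert_of_mem (T.max'_mem h0))).le
      obtain ⟨c, hc, hc1, hc2⟩ := h.exists_btw hl2
      have e1 := ih (fun t ht => h1 t (Finset.mem_insert_of_mem ht))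
        (fun t ht => h2 t (Finset.mem_insert_of_mem ht)) c hc (by linarith)
        (fun t ht => lt_of_le_of_lt (hl3 t ht) hc1)
      have e2 := h1 m (Finset.mem_insert_self _ _) c hc B hB hc2 (h3 m (Finset.mem_insert_self _ _))
      have e3 := h.add A hA c hc B hB (by linarith)
        (hc2.trans (h3 m (Finset.mem_insert_self _ _))).le
      rw [Finset.card_insert_of_notMem hmT, Nat.cast_add, Nat.cast_one, add_mul, one_mul]
      linarith

theorem sin_ne (hirr : Irrational ((a - b) / π)) (m k : ℤ) (hk : k ≠ 0) :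
    Real.sin (m * π + k * (a - b)) ≠ 0 := by
  intro h0
  obtain ⟨j, hj⟩ := Real.sin_eq_zero_iff.1 h0
  have h1 : (k : ℝ) * ((a - b) / π) = ((j - m : ℤ) : ℝ) := by
    have := Real.pi_ne_zero
    field_simp
    push_cast
    linarith
  exact (hirr.intCast_mul hk).ne_int _ h1

/-- there is no jump at the fixed points -/
theorem no_jump (h : IntF F v a b) (hirr : Irrational ((a - b) / π)) {t : ℝ}
    (ht : Real.sin (t - a) = 0) {η : ℝ} (hη : 0 < η) :
    ∃ x ∈ F, ∃ y ∈ F, x < t ∧ t < y ∧ v x y < η := by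
  by_contra hcon
  have hJ : Jg F v η t := by
    intro x hx y hy h1 h2
    by_contra hlt
    exact hcon ⟨x, hx, y, hy, h1, h2, not_le.1 hlt⟩
  obtain ⟨m, hm⟩ := Real.sin_eq_zero_iff.1 ht
  have hall : ∀ k : ℕ, Jg F v η (t + 2 * k * (a - b)) := by
    intro k
    induction k with
    | zero => simpa using hJ
    | succ k ih =>
        have h1 : Real.sin (t + 2 * k * (a - b) - b) ≠ 0 := by
          have e : t + 2 * k * (a - b) - b = (m : ℝ) * π + ((2 * k + 1 : ℤ) : ℝ) * (a - b) := by
            rw [hm]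
            push_cast
            ring
          rw [e]
          exact sin_ne hirr m _ (by omega)
        have h2 := h.swap.jg_ra h1 ih
        have h3 : Real.sin (2 * b - (t + 2 * k * (a - b)) - a) ≠ 0 := by
          have e : 2 * b - (t + 2 * k * (a - b)) - a =
              ((-m : ℤ) : ℝ) * π + ((-(2 * k + 2) : ℤ) : ℝ) * (a - b) := by
            push_cast
            linear_combination hm
          rw [e]
          exact sin_ne hirr _ _ (by omega)
        have h4 := h.jg_ra h3 h2
        have e : 2 * a - (2 * b - (t + 2 * k * (a - b))) = t + 2 * (k + 1 : ℕ) * (a - b) := by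
          push_cast
          ring
        rwa [e] at h4
  -- representatives
  let s : ℕ → ℝ := fun k => toIcoMod Real.two_pi_pos 0 (t + 2 * k * (a - b))
  have hs : ∀ k, Jg F v η (s k) := by
    intro k
    have e : s k = (t + 2 * k * (a - b)) +
        ((-(toIcoDiv Real.two_pi_pos 0 (t + 2 * k * (a - b))) : ℤ) : ℝ) * (2 * π) := by
      show toIcoMod Real.two_pi_pos 0 (t + 2 * k * (a - b)) = _
      rw [toIcoMod, zsmul_eq_mul]
      push_cast
      ring
    rw [e]
    exact h.jg_int (hall k) _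
  have hmem : ∀ k, s k ∈ Ico (0 : ℝ) (2 * π) := fun k => by
    have := toIcoMod_mem_Ico Real.two_pi_pos (0 : ℝ) (t + 2 * k * (a - b))
    rwa [zero_add] at this
  have hinj : Function.Injective s := by
    intro k l hkl
    by_contra hne
    have h1 : t + 2 * k * (a - b) - s k =
        (toIcoDiv Real.two_pi_pos 0 (t + 2 * k * (a - b)) : ℝ) * (2 * π) := by
      show _ - toIcoMod Real.two_pi_pos 0 (t + 2 * k * (a - b)) = _
      rw [self_sub_toIcoMod, zsmul_eq_mul]
    have h2 : t + 2 * l * (a - b) - s l =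
        (toIcoDiv Real.two_pi_pos 0 (t + 2 * l * (a - b)) : ℝ) * (2 * π) := by
      show _ - toIcoMod Real.two_pi_pos 0 (t + 2 * l * (a - b)) = _
      rw [self_sub_toIcoMod, zsmul_eq_mul]
    rw [hkl] at h1
    obtain ⟨D1, hD1⟩ : ∃ D1 : ℤ, D1 = toIcoDiv Real.two_pi_pos 0 (t + 2 * k * (a - b)) := ⟨_, rfl⟩
    obtain ⟨D2, hD2⟩ : ∃ D2 : ℤ, D2 = toIcoDiv Real.two_pi_pos 0 (t + 2 * l * (a - b)) := ⟨_, rfl⟩
    rw [← hD1] at h1
    rw [← hD2] at h2
    have h3 : ((k - l : ℤ) : ℝ) * ((a - b) / π) = ((D1 - D2 : ℤ) : ℝ) := by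
      have := Real.pi_ne_zero
      field_simp
      push_cast
      linarith
    have hkl0 : ((k : ℤ) - l) ≠ 0 := by omega
    exact (hirr.intCast_mul hkl0).ne_int _ h3
  obtain ⟨A, hA, hA1, hA2⟩ := h.exists_btw (x := -1) (y := 0) (by norm_num)
  obtain ⟨B, hB, hB1, hB2⟩ := h.exists_btw (x := 2 * π) (y := 2 * π + 1) (by linarith)
  have hpi := Real.pi_pos
  have hbound : ∀ N : ℕ, (N : ℝ) * η ≤ v A B := by
    intro N
    have := h.jg_sum (J := η) hA ((Finset.range N).image s)
      (fun t ht => by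
        obtain ⟨k, -, rfl⟩ := Finset.mem_image.1 ht
        exact hs k)
      (fun t ht => by
        obtain ⟨k, -, rfl⟩ := Finset.mem_image.1 ht
        exact lt_of_lt_of_le hA2 (hmem k).1)
      B hB (by linarith)
      (fun t ht => by
        obtain ⟨k, -, rfl⟩ := Finset.mem_image.1 ht
        exact (hmem k).2.trans hB1)
    rwa [Finset.card_image_of_injective _ hinj, Finset.card_range] at this
  obtain ⟨N, hN⟩ := exists_nat_gt (v A B / η)
  rw [div_lt_iff₀ hη] at hN
  exact absurd (hbound N) (not_le.2 hN)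

theorem sin_near {z t : ℝ} (ht : Real.sin (t - a) = 0) (h1 : |z - t| < π) (h2 : z ≠ t) :
    Real.sin (z - a) ≠ 0 := by
  have e : z - a = (z - t) + (t - a) := by ring
  rw [e, Real.sin_add, ht, mul_zero, add_zero]
  have h3 : Real.cos (t - a) ≠ 0 := by
    intro h0
    have := Real.sin_sq_add_cos_sq (t - a)
    rw [ht, h0] at this
    norm_num at this
  have h4 : Real.sin (z - t) ≠ 0 := by
    intro h0
    rw [abs_lt] at h1
    have := (Real.sin_eq_zero_iff_of_lt_of_lt h1.1 h1.2).1 h0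
    exact h2 (sub_eq_zero.1 this)
  exact mul_ne_zero h4 h3

/-- the interval function is invariant under the reflections -/
theorem refl_short (h : IntF F v a b) (hirr : Irrational ((a - b) / π)) {x y : ℝ} (hx : x ∈ F)
    (hy : y ∈ F) (hxy : x ≤ y) (hs : y - x < π) : v (2 * a - y) (2 * a - x) = v x y := by
  by_cases hfree : ∀ z ∈ Icc x y, Real.sin (z - a) ≠ 0
  · exact h.ra x hx y hy hxy hfree
  · push Not at hfree
    obtain ⟨t, ⟨ht1, ht2⟩, ht⟩ := hfree
    have hxt : x < t := lt_of_le_of_ne ht1 (fun h0 => h.sa x hx (by rw [h0]; exact ht))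
    have hty : t < y := lt_of_le_of_ne ht2 (fun h0 => h.sa y hy (by rw [← h0]; exact ht))
    have ht' : Real.sin (2 * a - t - a) = 0 := by
      have e : 2 * a - t - a = -(t - a) := by ring
      rw [e, Real.sin_neg, ht, neg_zero]
    have key : ∀ η : ℝ, 0 < η → |v (2 * a - y) (2 * a - x) - v x y| ≤ η := by
      intro η hη
      obtain ⟨x1, hx1, y1, hy1, a1, a2, a3⟩ := h.no_jump hirr ht hη
      obtain ⟨x2, hx2, y2, hy2, b1, b2, b3⟩ := h.no_jump hirr ht' hη
      obtain ⟨x', hx', c1, c2⟩ := h.exists_btw (x := max x (max x1 (2 * a - y2))) (y := t)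
        (max_lt hxt (max_lt a1 (by linarith)))
      obtain ⟨y', hy', d1, d2⟩ := h.exists_btw (x := t) (y := min y (min y1 (2 * a - x2)))
        (lt_min hty (lt_min a2 (by linarith)))
      have c3 : x < x' := lt_of_le_of_lt (le_max_left _ _) c1
      have c4 : x1 < x' := lt_of_le_of_lt ((le_max_left _ _).trans (le_max_right _ _)) c1
      have c5 : 2 * a - y2 < x' := lt_of_le_of_lt ((le_max_right _ _).trans (le_max_right _ _)) c1
      have d3 : y' < y := lt_of_lt_of_le d2 (min_le_left _ _)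
      have d4 : y' < y1 := lt_of_lt_of_le d2 ((min_le_right _ _).trans (min_le_left _ _))
      have d5 : y' < 2 * a - x2 := lt_of_lt_of_le d2 ((min_le_right _ _).trans (min_le_right _ _))
      have e1 := h.add x hx x' hx' y hy c3.le (by linarith)
      have e2 := h.add x' hx' y' hy' y hy (by linarith) d3.le
      have e3 := h.add (2 * a - y) (h.fa y hy) (2 * a - y') (h.fa y' hy') (2 * a - x) (h.fa x hx)
        (by linarith) (by linarith)
      have e4 := h.add (2 * a - y') (h.fa y' hy') (2 * a - x') (h.fa x' hx') (2 * a - x)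
        (h.fa x hx) (by linarith) (by linarith)
      have f1 := h.mono hx1 hx' hy' hy1 c4.le (by linarith) d4.le
      have f2 := h.mono hx2 (h.fa y' hy') (h.fa x' hx') hy2 (by linarith) (by linarith)
        (by linarith)
      have f3 := h.nonneg x' hx' y' hy' (by linarith)
      have f4 := h.nonneg (2 * a - y') (h.fa y' hy') (2 * a - x') (h.fa x' hx') (by linarith)
      have g1 := h.ra x hx x' hx' c3.le (fun z hz => sin_near ht
        (by rw [abs_lt]; constructor <;> linarith [hz.1, hz.2]) (by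
          intro h0
          rw [h0] at hz
          linarith [hz.2]))
      have g2 := h.ra y' hy' y hy d3.le (fun z hz => sin_near ht
        (by rw [abs_lt]; constructor <;> linarith [hz.1, hz.2]) (by
          intro h0
          rw [h0] at hz
          linarith [hz.1]))
      rw [abs_le]
      constructor <;> linarith
    have h0 : |v (2 * a - y) (2 * a - x) - v x y| ≤ 0 :=
      le_of_forall_pos_le_add fun η hη => by rw [zero_add]; exact key η hη
    exact sub_eq_zero.1 (abs_nonpos_iff.1 h0)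

theorem refl_all (h : IntF F v a b) (hirr : Irrational ((a - b) / π)) (n : ℕ) :
    ∀ x ∈ F, ∀ y ∈ F, x ≤ y → y - x < 3 + 2 * n → v (2 * a - y) (2 * a - x) = v x y := by
  have hpi := Real.pi_gt_three
  induction n with
  | zero =>
      intro x hx y hy hxy hs
      exact h.refl_short hirr hx hy hxy (by push_cast at hs; linarith)
  | succ n ih =>
      intro x hx y hy hxy hs
      push_cast at hs
      by_cases hs3 : y - x < 3
      · exact h.refl_short hirr hx hy hxy (by linarith)
      · push Not at hs3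
        obtain ⟨m, hm, m1, m2⟩ := h.exists_btw (x := y - 3) (y := y - 2) (by linarith)
        have e1 := h.add x hx m hm y hy (by linarith) (by linarith)
        have e2 := h.add (2 * a - y) (h.fa y hy) (2 * a - m) (h.fa m hm) (2 * a - x) (h.fa x hx)
          (by linarith) (by linarith)
        have e3 := ih x hx m hm (by linarith) (by linarith)
        have e4 := h.refl_short hirr hm hy (by linarith) (by linarith)
        linarith

theorem refl_a (h : IntF F v a b) (hirr : Irrational ((a - b) / π)) {x y : ℝ} (hx : x ∈ F)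
    (hy : y ∈ F) (hxy : x ≤ y) : v (2 * a - y) (2 * a - x) = v x y := by
  obtain ⟨n, hn⟩ := exists_nat_gt (y - x)
  have hn0 : (0 : ℝ) ≤ n := Nat.cast_nonneg n
  exact h.refl_all hirr n x hx y hy hxy (by linarith)

/-- the group of the periods -/
def periods (h : IntF F v a b) : AddSubgroup ℝ where
  carrier := {s | (∀ x ∈ F, x + s ∈ F ∧ x - s ∈ F) ∧
    ∀ x ∈ F, ∀ y ∈ F, x ≤ y → v (x + s) (y + s) = v x y}
  zero_mem' := ⟨fun x hx => by simpa using hx, fun x _ y _ _ => by simp⟩
  add_mem' := by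
    rintro s t ⟨hs1, hs2⟩ ⟨ht1, ht2⟩
    refine ⟨fun x hx => ⟨?_, ?_⟩, fun x hx y hy hxy => ?_⟩
    · rw [← add_assoc]
      exact (ht1 _ (hs1 x hx).1).1
    · rw [← sub_sub]
      exact (ht1 _ (hs1 x hx).2).2
    · rw [← add_assoc, ← add_assoc, ht2 _ (hs1 x hx).1 _ (hs1 y hy).1 (by linarith),
        hs2 x hx y hy hxy]
  neg_mem' := by
    rintro s ⟨hs1, hs2⟩
    refine ⟨fun x hx => ⟨?_, ?_⟩, fun x hx y hy hxy => ?_⟩
    · rw [← sub_eq_add_neg]
      exact (hs1 x hx).2
    · rw [sub_neg_eq_add]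
      exact (hs1 x hx).1
    · have := hs2 (x - s) (hs1 x hx).2 (y - s) (hs1 y hy).2 (by linarith)
      rw [sub_add_cancel, sub_add_cancel] at this
      rw [← sub_eq_add_neg, ← sub_eq_add_neg, this]

theorem mem_two_pi (h : IntF F v a b) : 2 * π ∈ h.periods :=
  ⟨fun x hx => ⟨h.fp x hx, h.fm x hx⟩, h.per⟩

theorem mem_rot (h : IntF F v a b) (hirr : Irrational ((a - b) / π)) :
    2 * (a - b) ∈ h.periods := by
  have irr' : Irrational ((b - a) / π) := by
    have : (b - a) / π = -((a - b) / π) := by ring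
    rw [this]
    exact hirr.neg
  refine ⟨fun x hx => ⟨?_, ?_⟩, fun x hx y hy hxy => ?_⟩
  · have := h.fa _ (h.fb x hx)
    have e : 2 * a - (2 * b - x) = x + 2 * (a - b) := by ring
    rwa [e] at this
  · have := h.fb _ (h.fa x hx)
    have e : 2 * b - (2 * a - x) = x - 2 * (a - b) := by ring
    rwa [e] at this
  · have e1 := h.swap.refl_a irr' hx hy hxy
    have e2 := h.refl_a hirr (h.fb y hy) (h.fb x hx) (by linarith)
    have e3 : 2 * a - (2 * b - x) = x + 2 * (a - b) := by ring
    have e4 : 2 * a - (2 * b - y) = y + 2 * (a - b) := by ring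
    rw [e3, e4] at e2
    rw [e2, e1]

theorem dense_periods (h : IntF F v a b) (hirr : Irrational ((a - b) / π)) :
    Dense (h.periods : Set ℝ) := by
  have h1 : Irrational (2 * (a - b) / (2 * π)) := by
    have : 2 * (a - b) / (2 * π) = (a - b) / π := by
      have := Real.pi_ne_zero
      field_simp
    rw [this]
    exact hirr
  refine (dense_addSubgroupClosure_pair_iff.2 h1).mono ?_
  have : AddSubgroup.closure {2 * (a - b), 2 * π} ≤ h.periods := by
    rw [AddSubgroup.closure_le]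
    rintro x (rfl | rfl)
    · exact h.mem_rot hirr
    · exact h.mem_two_pi
  exact this

theorem base_le (h : IntF F v a b) {s : ℝ} (hs : s ∈ h.periods) (hs0 : 0 ≤ s) {x y : ℝ}
    (hx : x ∈ F) (hy : y ∈ F) (hxy : x ≤ y) : v x (x + s) = v y (y + s) := by
  have e1 := h.add x hx y hy (y + s) (hs.1 y hy).1 hxy (by linarith)
  have e2 := h.add x hx (x + s) (hs.1 x hx).1 (y + s) (hs.1 y hy).1 (by linarith) (by linarith)
  have e3 := hs.2 x hx y hy hxy
  linarith

theorem base (h : IntF F v a b) {s : ℝ} (hs : s ∈ h.periods) (hs0 : 0 ≤ s) {x y : ℝ}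
    (hx : x ∈ F) (hy : y ∈ F) : v x (x + s) = v y (y + s) := by
  rcases le_total x y with h1 | h1
  · exact h.base_le hs hs0 hx hy h1
  · exact (h.base_le hs hs0 hy hx h1).symm

theorem nat_mul (h : IntF F v a b) {s : ℝ} (hs : s ∈ h.periods) (hs0 : 0 ≤ s) {x : ℝ}
    (hx : x ∈ F) (n : ℕ) : x + n * s ∈ F ∧ v x (x + n * s) = n * v x (x + s) := by
  induction n with
  | zero =>
      have e := h.add x hx x hx x hx le_rfl le_rfl
      refine ⟨by simpa using hx, ?_⟩
      rw [Nat.cast_zero, zero_mul, zero_mul, add_zero]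
      linarith
  | succ n ih =>
      have e0 : x + ((n + 1 : ℕ) : ℝ) * s = x + n * s + s := by push_cast; ring
      have e1 : x + ((n + 1 : ℕ) : ℝ) * s ∈ F := by
        rw [e0]
        exact (hs.1 _ ih.1).1
      refine ⟨e1, ?_⟩
      have hn : (0 : ℝ) ≤ n * s := by positivity
      have e2 := h.add x hx (x + n * s) ih.1 (x + ((n + 1 : ℕ) : ℝ) * s) e1 (by linarith)
        (by rw [e0]; linarith)
      have e3 := h.base hs hs0 hx ih.1
      rw [← e0] at e3
      rw [← e2, ih.2, ← e3]
      push_cast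
      ring

/-- the interval function is bounded by a multiple of the length -/
theorem lip (h : IntF F v a b) (hirr : Irrational ((a - b) / π)) :
    ∃ K : ℝ, 0 ≤ K ∧ ∀ x ∈ F, ∀ y ∈ F, x ≤ y → v x y ≤ K * (y - x) := by
  have hpi := Real.pi_pos
  obtain ⟨x₀, hx₀, -, -⟩ := h.exists_btw (x := 0) (y := 1) (by norm_num)
  obtain ⟨T, hT⟩ : ∃ T : ℝ, T = v x₀ (x₀ + 2 * π) := ⟨_, rfl⟩
  have hT0 : 0 ≤ T := by
    rw [hT]
    exact h.nonneg x₀ hx₀ _ (h.fp x₀ hx₀) (by linarith)
  have hc : ∀ s ∈ h.periods, 0 ≤ s → v x₀ (x₀ + s) ≤ T / (2 * π) * s := by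
    intro s hs hs0
    have key : ∀ n : ℕ, 0 < n → v x₀ (x₀ + s) ≤ T / (2 * π) * s + T * (1 / n) := by
      intro n hn
      have hn' : (0 : ℝ) < n := by exact_mod_cast hn
      obtain ⟨m, hm⟩ : ∃ m : ℕ, m = ⌈n * s / (2 * π)⌉₊ := ⟨_, rfl⟩
      have m1 : n * s / (2 * π) ≤ m := by rw [hm]; exact Nat.le_ceil _
      have m2 : (m : ℝ) < n * s / (2 * π) + 1 := by
        rw [hm]
        exact Nat.ceil_lt_add_one (by positivity)
      rw [div_le_iff₀ (by positivity)] at m1
      obtain ⟨a1, a2⟩ := h.nat_mul hs hs0 hx₀ n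
      obtain ⟨b1, b2⟩ := h.nat_mul h.mem_two_pi (by positivity) hx₀ m
      have hns : (0 : ℝ) ≤ n * s := by positivity
      have e1 := h.mono hx₀ hx₀ a1 b1 le_rfl (by linarith) (by linarith)
      rw [a2, b2, ← hT] at e1
      have e2 : (m : ℝ) * T ≤ (n * s / (2 * π) + 1) * T :=
        mul_le_mul_of_nonneg_right m2.le hT0
      have e3 : (n : ℝ) * v x₀ (x₀ + s) ≤ (n : ℝ) * (T / (2 * π) * s + T * (1 / n)) := by
        calc (n : ℝ) * v x₀ (x₀ + s) ≤ (n * s / (2 * π) + 1) * T := e1.trans e2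
          _ = (n : ℝ) * (T / (2 * π) * s + T * (1 / n)) := by
              field_simp
      exact le_of_mul_le_mul_left e3 hn'
    have hlim : Tendsto (fun n : ℕ => T / (2 * π) * s + T * (1 / ((n : ℝ) + 1))) atTop
        (𝓝 (T / (2 * π) * s + T * 0)) :=
      tendsto_const_nhds.add (tendsto_one_div_add_atTop_nhds_zero_nat.const_mul T)
    rw [mul_zero, add_zero] at hlim
    refine ge_of_tendsto hlim (Eventually.of_forall fun n => ?_)
    have := key (n + 1) (Nat.succ_pos n)
    push_cast at this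
    exact this
  refine ⟨T / (2 * π), by positivity, fun x hx y hy hxy => ?_⟩
  refine le_of_forall_pos_le_add fun η hη => ?_
  obtain ⟨δ, hδ0, hδ⟩ : ∃ δ > 0, T / (2 * π) * δ ≤ η := by
    refine ⟨η / (T / (2 * π) + 1), by positivity, ?_⟩
    rw [← mul_div_assoc, div_le_iff₀ (by positivity)]
    nlinarith [hη, show (0 : ℝ) ≤ T / (2 * π) by positivity]
  obtain ⟨s, hs, s1, s2⟩ := (h.dense_periods hirr).exists_between
    (show y - x < y - x + δ by linarith)
  have hs0 : 0 ≤ s := by linarith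
  have e1 := h.mono hx hx hy ((hs : s ∈ h.periods).1 x hx).1 le_rfl hxy (by linarith)
  have e2 := h.base hs hs0 hx hx₀
  have e3 := hc s hs hs0
  calc v x y ≤ v x (x + s) := e1
    _ ≤ T / (2 * π) * s := by rw [e2]; exact e3
    _ ≤ T / (2 * π) * (y - x + δ) := mul_le_mul_of_nonneg_left s2.le (by positivity)
    _ ≤ T / (2 * π) * (y - x) + η := by linarith

end IntF

end Pool.Agent.Q183.BX
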