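import Pool.Agent.Q183.BX.Fin

set_option autoImplicit false

/-!
Equivariant functions of finite directional variation in a polygon with an irrational angle whose
sides act by commuting isometries are constant.
-/

namespace Pool.Agent.Q183.BX

open Complex Set MeasureTheory Filter Topology Pool.Agent.W780.PG Pool.Agent.W780.BB
open Pool.Agent.W803.BBD (xc)
open Pool.Agent.TH578.BE (UU GG VV xc_per xc_add_smul xc_add_perp xc_sub' xc_smul xc_polar xc_side
  side_ne irr_tau countable_cos)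

open scoped Real ComplexConjugate

variable {n : ℕ} {E : Type*} [NormedAddCommGroup E] [NormedSpace ℝ E]

theorem inv_fix {C : E ≃ₗᵢ[ℝ] E} {v : E} (h : C v = v) : C⁻¹ v = v := by
  have h1 : C⁻¹ (C v) = v := C.symm_apply_apply v
  rwa [h] at h1

theorem fix_inv {C : E ≃ₗᵢ[ℝ] E} {v : E} (h : C⁻¹ v = v) : C v = v := by
  have h1 : C (C⁻¹ v) = v := C.apply_symm_apply v
  rwa [h] at h1

theorem wt_fix {p : Fin (n + 3) → ℂ} {Cs : Fin (n + 3) → (E ≃ₗᵢ[ℝ] E)} {i : Fin (n + 3)} {v : E}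
    (h : Cs i v = v) (θ : ℝ) : wt p Cs i θ v = v := by
  unfold wt
  split_ifs
  · exact h
  · exact inv_fix h

theorem wt_cs {p : Fin (n + 3) → ℂ} {Cs : Fin (n + 3) → (E ≃ₗᵢ[ℝ] E)} {i j : Fin (n + 3)}
    (hc : ∀ v, Cs i (Cs j v) = Cs j (Cs i v)) (θ : ℝ) (v : E) :
    Cs i (wt p Cs j θ v) = wt p Cs j θ (Cs i v) := by
  unfold wt
  split_ifs
  · exact hc v
  · have h1 := hc ((Cs j)⁻¹ v)
    have h2 : Cs j ((Cs j)⁻¹ v) = v := (Cs j).apply_symm_apply v
    have h3 : (Cs j)⁻¹ (Cs j (Cs i ((Cs j)⁻¹ v))) = Cs i ((Cs j)⁻¹ v) := (Cs j).symm_apply_apply _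
    rw [← h3, ← h1, h2]

/-- the stabilizer of a vector -/
def stab {V : ℝ → (E ≃ₗᵢ[ℝ] E)} {Cs : Fin (n + 3) → (E ≃ₗᵢ[ℝ] E)} (hG : IsGrp V Cs) (w : E) :
    AddSubgroup ℝ where
  carrier := {t | V t w = w}
  zero_mem' := hG.zero w
  add_mem' := by
    intro s t hs ht
    show V (s + t) w = w
    rw [hG.add, ht, hs]
  neg_mem' := by
    intro s hs
    show V (-s) w = w
    have h1 := hG.neg s w
    rwa [show V s w = w from hs] at h1

theorem stab_all {V : ℝ → (E ≃ₗᵢ[ℝ] E)} {Cs : Fin (n + 3) → (E ≃ₗᵢ[ℝ] E)} (hG : IsGrp V Cs) {w : E}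
    (h : ¬ ((stab hG w : AddSubgroup ℝ) : Set ℝ).Countable) (t : ℝ) : V t w = w := by
  have hcl : IsClosed ((stab hG w : AddSubgroup ℝ) : Set ℝ) :=
    isClosed_eq (hG.cont w) continuous_const
  rcases AddSubgroup.dense_or_cyclic (stab hG w) with hd | ⟨a, ha⟩
  · have h1 := hd.closure_eq
    rw [hcl.closure_eq] at h1
    have : t ∈ ((stab hG w : AddSubgroup ℝ) : Set ℝ) := by rw [h1]; exact mem_univ t
    exact this
  · exfalso
    apply h
    rw [ha, ← AddSubgroup.zmultiples_eq_closure]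
    exact countable_range _

/-- preimages of countable sets -/
theorem countable_pre {C : Set ℝ} (hC : C.Countable) {ρ κ : ℝ} (hρ : ρ ≠ 0) :
    {θ : ℝ | ρ * Real.cos (θ - κ) ∈ C}.Countable := by
  have h2 : {y : ℝ | ρ * y ∈ C}.Countable :=
    hC.preimage_of_injOn (fun a _ b _ hab => mul_left_cancel₀ hρ hab)
  have h3 : {x : ℝ | Real.cos x ∈ {y : ℝ | ρ * y ∈ C}}.Countable := by
    have : {x : ℝ | Real.cos x ∈ {y : ℝ | ρ * y ∈ C}} =
        ⋃ c ∈ {y : ℝ | ρ * y ∈ C}, {x : ℝ | Real.cos x = c} := by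
      ext x
      simp
    rw [this]
    exact h2.biUnion fun c _ => countable_cos c
  exact h3.preimage_of_injOn (f := fun θ : ℝ => θ - κ) (fun a _ b _ hab => sub_left_injective hab)

/-- If `V (c sin (θ - τ))` maps `w` to one of two vectors for almost all `θ`, it fixes `w`. -/
theorem fix_of_sin {V : ℝ → (E ≃ₗᵢ[ℝ] E)} {Cs : Fin (n + 3) → (E ≃ₗᵢ[ℝ] E)} (hG : IsGrp V Cs)
    {w a b : E} {c κ : ℝ} (hc : c ≠ 0)
    (h : ∀ᵐ θ : ℝ, V (c * Real.cos (θ - κ)) w = a ∨ V (c * Real.cos (θ - κ)) w = b) (t : ℝ) :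
    V t w = w := by
  by_contra hcon
  have hcount : ((stab hG w : AddSubgroup ℝ) : Set ℝ).Countable := by
    by_contra hn
    exact hcon (stab_all hG hn t)
  have key : ∀ a : E, {s : ℝ | V s w = a}.Countable := by
    intro a
    rcases {s : ℝ | V s w = a}.eq_empty_or_nonempty with h0 | ⟨s0, hs0⟩
    · rw [h0]; exact countable_empty
    · have h1 : {s : ℝ | V s w = a} ⊆ (fun s => s + s0) '' ((stab hG w : AddSubgroup ℝ) : Set ℝ) := by
        intro s hs
        refine ⟨s - s0, ?_, by ring⟩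
        show V (s - s0) w = w
        have h2 : V (-s0) (V s w) = V (-s0) (V s0 w) := by
          rw [show V s w = a from hs, show V s0 w = a from hs0]
        rw [hG.neg, ← hG.add, show -s0 + s = s - s0 by ring] at h2
        exact h2
      exact (hcount.image _).mono h1
  have h3 := countable_pre ((key a).union (key b)) (ρ := c) (κ := κ) hc
  have h4 : ∀ᵐ θ : ℝ, θ ∉ {θ : ℝ | c * Real.cos (θ - κ) ∈ {s : ℝ | V s w = a} ∪ {s : ℝ | V s w = b}} :=
    measure_eq_zero_iff_ae_notMem.1 (h3.measure_zero _)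
  obtain ⟨θ, h5, h6⟩ := (h.and h4).exists
  exact h6 h5

variable [MeasurableSpace E] [BorelSpace E] [SecondCountableTopology E] [CompleteSpace E]

theorem fix_side {p : Fin (n + 3) → ℂ} {Cs : Fin (n + 3) → (E ≃ₗᵢ[ℝ] E)} {G : ℝ → E}
    (hGm : Measurable G) (hGb : ∀ θ, ‖G θ‖ ≤ 1) (hGp : ∀ θ, G (θ + 2 * π) = G θ) {C' : ℝ}
    (hC' : ∀ ε : ℝ, 0 < ε → ε < 1 → ∫ x in (0 : ℝ)..(2 * π), ‖G (x + ε) - G x‖ ≤ C' * ε)
    {i j : Fin (n + 3)} (hc : ∀ v, Cs i (Cs j v) = Cs j (Cs i v))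
    (irr : Irrational ((tau p i - tau p j) / π))
    (h1 : ∀ᵐ θ : ℝ, G (2 * tau p i - θ) = wt p Cs i θ (G θ))
    (h2 : ∀ᵐ θ : ℝ, G (2 * tau p j - θ) = wt p Cs j θ (G θ)) : ∀ᵐ θ : ℝ, Cs i (G θ) = G θ := by
  have hRot : S_Rot := Pool.Agent.W363.BB.rot
  have hDm : Measurable (fun θ : ℝ => ‖Cs i (G θ) - G θ‖) :=
    (((Cs i).continuous.measurable.comp hGm).sub hGm).norm
  have hD : ∃ d : ℝ, ∀ᵐ θ : ℝ, ‖Cs i (G θ) - G θ‖ = d := by
    refine rot_const (E := ℝ) hRot hDm (fun θ => by simp only [hGp]) (a := tau p i) (b := tau p j)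
      ?_ ?_ irr
    · filter_upwards [h1] with θ hθ
      rw [hθ, wt_cs (fun v => rfl), ← map_sub, (wt p Cs i θ).norm_map]
    · filter_upwards [h2] with θ hθ
      rw [hθ, wt_cs hc, ← map_sub, (wt p Cs j θ).norm_map]
  obtain ⟨d, hd⟩ := hD
  have hd0 := weight_one hGm hGb hGp hC' hd irr h1 h2
  filter_upwards [hd] with θ hθ
  have h3 : ‖Cs i (G θ) - G θ‖ = 0 := le_antisymm (by rw [hθ]; exact hd0) (norm_nonneg _)
  exact sub_eq_zero.1 (norm_eq_zero.1 h3)

theorem const_lip {p : Fin (n + 3) → ℂ} (hp : IsConvexPolygon p)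
    {V : ℝ → (E ≃ₗᵢ[ℝ] E)} {Cs : Fin (n + 3) → (E ≃ₗᵢ[ℝ] E)} (hG : IsGrp V Cs)
    {L : ℝ} (hL0 : 0 ≤ L) {f : ℂ × ℝ → E} (hf : Measurable f) (hb : ∀ x, ‖f x‖ ≤ 1)
    (hI : IsEq p V Cs f) (hL : ∀ x s, ‖V s (f x) - f x‖ ≤ L * |s|) {C₀ : ℝ} (hC0 : 0 ≤ C₀)
    (hC : FV p f C₀) {i : Fin (n + 3)} (hi : Irrational (ang p i / π))
    (hc : ∀ v, Cs i (Cs (i - 1) v) = Cs (i - 1) (Cs i v)) :
    ∃ w : E, (∀ᵐ x : ℂ × ℝ, x.1 ∈ region p → f x = w) ∧ (∀ t, V t w = w) ∧ ∀ k, Cs k w = w := by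
  have hB : S_Basic := Pool.Agent.W174.PG.basic
  have hH : S_Hull := Pool.Agent.W975.PG.hull hB
  have hRot : S_Rot := Pool.Agent.W363.BB.rot
  have hTau : S_Tau := Pool.Agent.W337.BB.tau_th
  have hrr : region p = reg p := (hH n p hp).2
  have hop : IsOpen (reg p) := (hB n p hp).2.1
  have hregm : MeasurableSet (region p) := by rw [hrr]; exact hop.measurableSet
  have hph : MeasurableSet (phase p) := hregm.prod measurableSet_Ico
  obtain ⟨g, hgm, hgp, hgb, hfg, hrefl⟩ := core hp hG hL0 hf hb hI hL hC0 hC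
  have hsnd : ∀ {P : ℝ → Prop}, (∀ᵐ θ : ℝ, P θ) → ∀ᵐ x : ℂ × ℝ, P x.2 := fun h =>
    (Measure.quasiMeasurePreserving_snd (μ := (volume : Measure ℂ))
      (ν := (volume : Measure ℝ))).ae h
  -- the value at the vertex
  obtain ⟨G, hGd⟩ : ∃ G : ℝ → E, G = Gv V g (p i) := ⟨_, rfl⟩
  have hxcc : ∀ u : ℂ, Continuous (fun θ : ℝ => xc θ u) := by
    intro u
    have := continuous_dir
    unfold W803.BBD.xc
    fun_prop
  have hGm : Measurable G := by
    rw [hGd]
    exact hG.jcont.measurable.comp ((hxcc (p i)).measurable.prodMk hgm)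
  have hGb : ∀ θ, ‖G θ‖ ≤ 1 := by
    intro θ
    rw [hGd, Gv, (V _).norm_map]
    exact hgb θ
  have hGp : ∀ θ, G (θ + 2 * π) = G θ := by
    intro θ
    rw [hGd, Gv, Gv, xc_per, hgp]
  have r1 : ∀ᵐ θ : ℝ, G (2 * tau p i - θ) = wt p Cs i θ (G θ) := by
    rw [hGd]
    exact Gv_refl hG (hrefl i) fun θ => rfl
  have r2 : ∀ᵐ θ : ℝ, G (2 * tau p (i - 1) - θ) = wt p Cs (i - 1) θ (G θ) := by
    rw [hGd]
    refine Gv_refl hG (hrefl (i - 1)) fun θ => ?_
    have h1 := xc_side p (i - 1) θ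
    rw [sub_add_cancel, xc_sub', xc_sub'] at h1
    linarith
  have irr := irr_tau hTau hp hi
  have irr' : Irrational ((tau p (i - 1) - tau p i) / π) := by
    have : (tau p (i - 1) - tau p i) / π = -((tau p i - tau p (i - 1)) / π) := by ring
    rw [this]
    exact irr.neg
  -- the variation of `G`
  have hfG : ∀ᵐ x : ℂ × ℝ, x.1 ∈ region p → f x = V (xc x.2 (x.1 - p i)) (G x.2) := by
    filter_upwards [hfg] with x hx hxr
    rw [hx hxr, hGd, Gv, ← hG.add, xc_sub', sub_add_cancel]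
  obtain ⟨R, hR0, hR⟩ : ∃ R : ℝ, 0 ≤ R ∧ ∀ z ∈ region p, ‖z - p i‖ ≤ R := by
    have hbd : Bornology.IsBounded (region p) :=
      (isBounded_convexHull.2 (finite_range p).isBounded).subset interior_subset
    obtain ⟨R, hR⟩ := hbd.subset_closedBall (p i)
    refine ⟨max R 0, le_max_right _ _, fun z hz => ?_⟩
    have := hR hz
    rw [Metric.mem_closedBall, dist_eq_norm] at this
    exact this.trans (le_max_left _ _)
  have hvol : volume (phase p) < ⊤ := by
    have h1 : Bornology.IsBounded (region p) :=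
      ((isBounded_convexHull.2 (finite_range p).isBounded).subset interior_subset)
    have h2 : Bornology.IsBounded (phase p) := h1.prod (Metric.isBounded_Ico 0 (2 * π))
    exact h2.measure_lt_top
  obtain ⟨W, hW⟩ : ∃ W : ℝ, W = (volume (phase p)).toReal := ⟨_, rfl⟩
  have hW0 : 0 ≤ W := by rw [hW]; exact ENNReal.toReal_nonneg
  obtain ⟨C', hC'⟩ := var_dir (g := G) hB hH hp
    (fun ε => ((hGm.comp (measurable_id.add_const ε)).sub hGm).norm) hGb
    (C := C₀ + L * R * W) (by positivity) (fun ε hε hε1 => by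
      have hfGs := (shift ε).quasiMeasurePreserving.ae hfG
      have hpt : ∀ᵐ x : ℂ × ℝ ∂(volume.restrict (phase p)), ENNReal.ofReal ‖G (x.2 + ε) - G x.2‖ ≤
          ENNReal.ofReal (DD f ε x) + ENNReal.ofReal (L * R * ε) := by
        filter_upwards [ae_restrict_mem hph, ae_restrict_of_ae hfG, ae_restrict_of_ae hfGs]
          with x a1 a2 a3
        rw [← ENNReal.ofReal_add (DD_nonneg f ε x) (by positivity)]
        apply ENNReal.ofReal_le_ofReal
        have b1 := a2 a1.1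
        have b2 : f (x.1, x.2 + ε) = V (xc (x.2 + ε) (x.1 - p i)) (G (x.2 + ε)) := a3 a1.1
        have c1 : G x.2 = V (-(xc x.2 (x.1 - p i))) (f x) := by rw [b1, hG.neg]
        have c2 : G (x.2 + ε) = V (-(xc (x.2 + ε) (x.1 - p i))) (f (x.1, x.2 + ε)) := by
          rw [b2, hG.neg]
        have c3 : ‖V (-(xc (x.2 + ε) (x.1 - p i))) (f x) - V (-(xc x.2 (x.1 - p i))) (f x)‖ ≤
            L * R * ε := by
          have d1 : V (-(xc (x.2 + ε) (x.1 - p i))) (f x) = V (-(xc x.2 (x.1 - p i)))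
              (V (xc x.2 (x.1 - p i) - xc (x.2 + ε) (x.1 - p i)) (f x)) := by
            rw [← hG.add]
            congr 2
            ring
          rw [d1, ← map_sub, (V _).norm_map]
          refine (hL _ _).trans ?_
          rw [mul_assoc]
          refine mul_le_mul_of_nonneg_left ?_ hL0
          rw [abs_sub_comm]
          refine (xc_lip _ _ _).trans ?_
          rw [abs_of_pos hε]
          exact mul_le_mul_of_nonneg_right (hR _ a1.1) hε.le
        calc ‖G (x.2 + ε) - G x.2‖ = ‖(V (-(xc (x.2 + ε) (x.1 - p i))) (f (x.1, x.2 + ε)) -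
              V (-(xc (x.2 + ε) (x.1 - p i))) (f x)) + (V (-(xc (x.2 + ε) (x.1 - p i))) (f x) -
              V (-(xc x.2 (x.1 - p i))) (f x))‖ := by
              rw [c1, c2]
              congr 1
              abel
          _ ≤ ‖f (x.1, x.2 + ε) - f x‖ + L * R * ε := by
              refine (norm_add_le _ _).trans (add_le_add ?_ c3)
              rw [← map_sub, (V _).norm_map]
          _ = DD f ε x + L * R * ε := rfl
      calc ∫⁻ x in phase p, ENNReal.ofReal ‖G (x.2 + ε) - G x.2‖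
          ≤ ∫⁻ x in phase p, (ENNReal.ofReal (DD f ε x) + ENNReal.ofReal (L * R * ε)) :=
            lintegral_mono_ae hpt
        _ = (∫⁻ x in phase p, ENNReal.ofReal (DD f ε x)) +
            ENNReal.ofReal (L * R * ε) * volume (phase p) := by
            rw [lintegral_add_left (meas_DD hf ε).ennreal_ofReal, setLIntegral_const]
        _ ≤ ENNReal.ofReal (C₀ * ε) + ENNReal.ofReal (L * R * ε) * ENNReal.ofReal W := by
            refine add_le_add (hC ε hε hε1) ?_
            rw [hW, ENNReal.ofReal_toReal hvol.ne]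
        _ = ENNReal.ofReal ((C₀ + L * R * W) * ε) := by
            rw [← ENNReal.ofReal_mul (by positivity), ← ENNReal.ofReal_add (by positivity)
              (by positivity)]
            congr 1
            ring)
  -- the sides at the vertex act trivially
  have f1 := fix_side hGm hGb hGp hC' hc irr r1 r2
  have f2 := fix_side hGm hGb hGp hC' (fun v => (hc v).symm) irr' r2 r1
  obtain ⟨w, hw⟩ := rot_const hRot hGm hGp
    (a := tau p i) (b := tau p (i - 1))
    (by filter_upwards [r1, f1] with θ a1 a2; rw [a1, wt_fix a2])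
    (by filter_upwards [r2, f2] with θ a1 a2; rw [a1, wt_fix a2]) irr
  have hgw : ∀ᵐ θ : ℝ, g θ = V (-(xc θ (p i))) w := by
    filter_upwards [hw] with θ hθ
    rw [← hθ, hGd, Gv, hG.neg]
  -- the other sides
  have hoth : ∀ k : Fin (n + 3), ∀ᵐ θ : ℝ,
      V (xc (2 * tau p k - θ) (p k - p i) - xc θ (p k - p i)) w = wt p Cs k θ w := by
    intro k
    have q1 := (Measure.measurePreserving_sub_left (volume : Measure ℝ)
      (2 * tau p k)).quasiMeasurePreserving.ae hgw
    filter_upwards [hrefl k, hgw, q1] with θ a1 a2 a3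
    rw [a2, a3, ← wt_comm hG, ← hG.add] at a1
    have h1 : V (xc (2 * tau p k - θ) (p k) - xc θ (p k) + xc θ (p i)) (V (-(xc (2 * tau p k - θ) (p i))) w) =
        V (xc (2 * tau p k - θ) (p k) - xc θ (p k) + xc θ (p i))
          (V (xc θ (p k) - xc (2 * tau p k - θ) (p k) + -(xc θ (p i))) (wt p Cs k θ w)) := by
      rw [a1]
    rw [← hG.add, ← hG.add] at h1
    have e1 : xc (2 * tau p k - θ) (p k) - xc θ (p k) + xc θ (p i) +
        (xc θ (p k) - xc (2 * tau p k - θ) (p k) + -(xc θ (p i))) = 0 := by ring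
    rw [e1, hG.zero] at h1
    rw [← h1]
    congr 2
    rw [xc_sub', xc_sub']
    ring
  have hV : ∀ t, V t w = w := by
    intro t
    -- the side `i + 1` does not contain the vertex
    obtain ⟨k, hk⟩ : ∃ k : Fin (n + 3), k = i + 1 := ⟨_, rfl⟩
    obtain ⟨u, hu⟩ : ∃ u : ℂ, u = p k - p i := ⟨_, rfl⟩
    have hu0 : u ≠ 0 := by
      rw [hu, hk]
      exact sub_ne_zero.2 (side_ne hB hp i)
    have hur : arg u = tau p i := by
      rw [hu, hk]
      rfl
    have hs : Real.sin (tau p k - tau p i) ≠ 0 := by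
      have := Pool.Agent.TH578.BE.sin_tau_ne hp i
      rw [← hk] at this
      intro h
      apply this
      have e : tau p i - tau p k = -(tau p k - tau p i) := by ring
      rw [e, Real.sin_neg, h, neg_zero]
    have hd : ∀ θ, xc (2 * tau p k - θ) u - xc θ u =
        (-2 * ‖u‖ * Real.sin (tau p k - tau p i)) * Real.cos (θ - (tau p k - π / 2)) := by
      intro θ
      rw [xc_polar, xc_polar, hur, ← mul_sub, Real.cos_sub_cos]
      have e1 : (2 * tau p k - θ - tau p i + (θ - tau p i)) / 2 = tau p k - tau p i := by ring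
      have e2 : (2 * tau p k - θ - tau p i - (θ - tau p i)) / 2 = tau p k - θ := by ring
      have e3 : Real.cos (θ - (tau p k - π / 2)) = Real.sin (tau p k - θ) := by
        rw [show θ - (tau p k - π / 2) = π / 2 - (tau p k - θ) by ring, Real.cos_pi_div_two_sub]
      rw [e1, e2, e3]
      ring
    refine fix_of_sin hG (c := -2 * ‖u‖ * Real.sin (tau p k - tau p i)) (κ := tau p k - π / 2)
      (a := Cs k w) (b := (Cs k)⁻¹ w) ?_ ?_ t
    · refine mul_ne_zero (mul_ne_zero (by norm_num) (norm_ne_zero_iff.2 hu0)) hs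
    · filter_upwards [hoth k] with θ hθ
      rw [← hu, hd] at hθ
      rw [hθ]
      unfold wt
      split_ifs
      · exact Or.inl rfl
      · exact Or.inr rfl
  refine ⟨w, ?_, hV, fun k => ?_⟩
  · filter_upwards [hfG, hsnd hw] with x a1 a2 a3
    rw [a1 a3, a2, hV]
  · obtain ⟨θ, hθ⟩ := (hoth k).exists
    rw [hV] at hθ
    unfold wt at hθ
    split_ifs at hθ
    · exact hθ.symm
    · exact fix_inv hθ.symm

end Pool.Agent.Q183.BX
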