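import Pool.Agent.Q183.BX.Lim
import Pool.Agent.TH578.BE.Dir

set_option autoImplicit false

/-!
An equivariant function which is invariant under small transversal translations is, up to the free
motion, a function of the direction.
-/

namespace Pool.Agent.Q183.BX

open Complex Set MeasureTheory Filter Topology Pool.Agent.W780.PG Pool.Agent.W780.BB
open Pool.Agent.W803.BBD (yc xc OO isOpen_OO OO_sub local_const global_const)
open Pool.Agent.TH578.BE (UU isOpen_UU UU_sub UU_shift GG meas_GG VV xc_per xc_add_smul xc_add_perp)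

open scoped Real ComplexConjugate

variable {n : ℕ} {E : Type*} [NormedAddCommGroup E] [NormedSpace ℝ E] [MeasurableSpace E]
  [BorelSpace E] [SecondCountableTopology E] [CompleteSpace E]

/-- the function without the free motion -/
noncomputable def FF (V : ℝ → (E ≃ₗᵢ[ℝ] E)) (f : ℂ × ℝ → E) (x : ℂ × ℝ) : E :=
  V (-(xc x.2 x.1)) (f x)

omit [CompleteSpace E] in
theorem meas_FF {V : ℝ → (E ≃ₗᵢ[ℝ] E)} {Cs : Fin (n + 3) → (E ≃ₗᵢ[ℝ] E)} (hG : IsGrp V Cs)
    {f : ℂ × ℝ → E} (hf : Measurable f) : Measurable (FF V f) := by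
  have h1 : Continuous (fun x : ℂ × ℝ => -(xc x.2 x.1)) := by
    have := continuous_dir
    unfold W803.BBD.xc
    fun_prop
  exact hG.jcont.measurable.comp (h1.measurable.prodMk hf)

omit [MeasurableSpace E] [BorelSpace E] [SecondCountableTopology E] [CompleteSpace E] in
theorem norm_FF (V : ℝ → (E ≃ₗᵢ[ℝ] E)) (f : ℂ × ℝ → E) (x : ℂ × ℝ) : ‖FF V f x‖ = ‖f x‖ :=
  (V _).norm_map _

omit [MeasurableSpace E] [BorelSpace E] [SecondCountableTopology E] [CompleteSpace E] in
theorem eq_FF {V : ℝ → (E ≃ₗᵢ[ℝ] E)} {Cs : Fin (n + 3) → (E ≃ₗᵢ[ℝ] E)} (hG : IsGrp V Cs)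
    (f : ℂ × ℝ → E) (x : ℂ × ℝ) : f x = V (xc x.2 x.1) (FF V f x) :=
  (hG.neg' _ _).symm

theorem dir_f (hB : S_Basic) (hH : S_Hull) {p : Fin (n + 3) → ℂ} (hp : IsConvexPolygon p)
    {V : ℝ → (E ≃ₗᵢ[ℝ] E)} {Cs : Fin (n + 3) → (E ≃ₗᵢ[ℝ] E)} (hG : IsGrp V Cs) {f : ℂ × ℝ → E} (hf : Measurable f) (hb : ∀ x, ‖f x‖ ≤ 1)
    (hI : IsEq p V Cs f)
    (hnull : ∀ η δ : ℝ, 0 < δ → δ < η → ∫⁻ x in GG p (2 * η), ENNReal.ofReal (TT f δ x) = 0) :
    ∃ g : ℝ → E, Measurable g ∧ (∀ θ, g (θ + 2 * π) = g θ) ∧ (∀ θ, ‖g θ‖ ≤ 1) ∧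
      ∀ᵐ x : ℂ × ℝ, x ∈ phase p → FF V f x = g x.2 := by
  have hreg : region p = reg p := (hH n p hp).2
  obtain ⟨_, hop, hconv, _, _, hne, _⟩ := hB n p hp
  set Ω : Set ℂ := reg p with hΩ
  have hnull2 : ∀ η δ : ℝ, 0 < δ → δ < η → volume {x : ℂ × ℝ | x ∈ GG p (2 * η) ∧
      ¬ (f x = f (x.1 + δ • (I * dir x.2), x.2))} = 0 := by
    intro η δ h1 h2
    have h3 := hnull η δ h1 h2
    rw [lintegral_eq_zero_iff (meas_TT hf δ).ennreal_ofReal,
      Filter.EventuallyEq, ae_restrict_iff' (meas_GG p _)] at h3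
    rw [ae_iff] at h3
    refine measure_mono_null ?_ h3
    rintro x ⟨hx1, hx2⟩ hx3
    have h4 := hx3 hx1
    simp only [Pi.zero_apply, ENNReal.ofReal_eq_zero] at h4
    apply hx2
    have h5 : ‖f (x.1 + δ • (I * dir x.2), x.2) - f x‖ = 0 := le_antisymm h4 (norm_nonneg _)
    exact (sub_eq_zero.1 (norm_eq_zero.1 h5)).symm
  -- the bad set in the triple product
  have hmeas : ∀ η : ℝ, MeasurableSet {q : ℝ × (ℂ × ℝ) | q.1 ∈ Ioo 0 η ∧
      (q.2.1 ∈ OO Ω η ∧ (q.2.2 ∈ Ico 0 (2 * π) ∧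
      ¬ (f q.2 = f (q.2.1 + q.1 • (I * dir q.2.2), q.2.2))))} := by
    intro η
    have m1 : MeasurableSet {q : ℝ × (ℂ × ℝ) | q.1 ∈ Ioo 0 η} :=
      measurable_fst measurableSet_Ioo
    have m2 : MeasurableSet {q : ℝ × (ℂ × ℝ) | q.2.1 ∈ OO Ω η} :=
      (measurable_fst.comp measurable_snd) (isOpen_OO Ω η).measurableSet
    have m3 : MeasurableSet {q : ℝ × (ℂ × ℝ) | q.2.2 ∈ Ico 0 (2 * π)} :=
      (measurable_snd.comp measurable_snd) measurableSet_Ico
    have m5 : Measurable (fun q : ℝ × (ℂ × ℝ) =>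
        f (q.2.1 + q.1 • (I * dir q.2.2), q.2.2)) := by
      refine hf.comp ?_
      apply Continuous.measurable
      have := continuous_dir
      fun_prop
    exact m1.inter (m2.inter (m3.inter (measurableSet_eq_fun (hf.comp measurable_snd) m5).compl))
  have hz : ∀ η : ℝ, 0 < η → ∀ᵐ q : ℝ × (ℂ × ℝ), ¬ (q.1 ∈ Ioo 0 η ∧
      (q.2.1 ∈ OO Ω η ∧ (q.2.2 ∈ Ico 0 (2 * π) ∧
      ¬ (f q.2 = f (q.2.1 + q.1 • (I * dir q.2.2), q.2.2))))) := by
    intro η hη
    rw [ae_iff]
    simp only [not_not]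
    rw [Measure.volume_eq_prod, Measure.measure_prod_null (hmeas η)]
    refine Eventually.of_forall fun δ => ?_
    simp only [Pi.zero_apply]
    by_cases hδ : δ ∈ Ioo 0 η
    · refine measure_mono_null ?_ (hnull2 η δ hδ.1 hδ.2)
      rintro ⟨z, θ⟩ ⟨_, h2, h3, h4⟩
      exact ⟨⟨h2, h3⟩, h4⟩
    · convert measure_empty (μ := (volume : Measure (ℂ × ℝ)))
      rw [eq_empty_iff_forall_notMem]
      rintro x ⟨h1, _⟩
      exact hδ h1
  -- swap
  have hz2 : ∀ η : ℝ, 0 < η → ∀ᵐ θ : ℝ, ∀ᵐ z : ℂ, ∀ᵐ δ : ℝ, ¬ (δ ∈ Ioo 0 η ∧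
      (z ∈ OO Ω η ∧ (θ ∈ Ico 0 (2 * π) ∧
      ¬ (f (z, θ) = f (z + δ • (I * dir θ), θ))))) := by
    intro η hη
    have h1 := hz η hη
    have hsw : Measure.QuasiMeasurePreserving (Prod.swap : (ℂ × ℝ) × ℝ → ℝ × (ℂ × ℝ)) :=
      (Measure.measurePreserving_swap (μ := (volume : Measure (ℂ × ℝ)))
        (ν := (volume : Measure ℝ))).quasiMeasurePreserving
    have h2 := hsw.ae h1
    have h3 := Measure.ae_ae_of_ae_prod h2
    have hsw2 : Measure.QuasiMeasurePreserving (Prod.swap : ℝ × ℂ → ℂ × ℝ) :=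
      (Measure.measurePreserving_swap (μ := (volume : Measure ℝ))
        (ν := (volume : Measure ℂ))).quasiMeasurePreserving
    have h4 := hsw2.ae h3
    have h5 := Measure.ae_ae_of_ae_prod h4
    exact h5
  have hz3 : ∀ᵐ θ : ℝ, ∀ k : ℕ, ∀ᵐ z : ℂ, ∀ᵐ δ : ℝ, ¬ (δ ∈ Ioo 0 (1 / ((k : ℝ) + 1)) ∧
      (z ∈ OO Ω (1 / ((k : ℝ) + 1)) ∧ (θ ∈ Ico 0 (2 * π) ∧
      ¬ (f (z, θ) = f (z + δ • (I * dir θ), θ))))) := by
    rw [ae_all_iff]
    intro k
    exact hz2 _ (by positivity)
  -- sections are constant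
  have hsec : ∀ᵐ θ : ℝ, θ ∈ Ico 0 (2 * π) →
      ∃ c : E, ∀ᵐ z : ℂ ∂(volume.restrict Ω), FF V f (z, θ) = c := by
    filter_upwards [hz3] with θ hθ hθI
    have hU : ∀ U : Set E, MeasurableSet U →
        (∀ᵐ z : ℂ ∂(volume.restrict Ω), FF V f (z, θ) ∈ U) ∨
        (∀ᵐ z : ℂ ∂(volume.restrict Ω), FF V f (z, θ) ∉ U) := by
      intro U hUm
      have hg : volume (Ω ∩ {z | FF V f (z, θ) ∈ U}) = 0 ∨
          volume (Ω \ {z | FF V f (z, θ) ∈ U}) = 0 := by
        apply global_const Ω _ hconv.isPreconnected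
        apply local_const Ω _ θ hop
        · intro z s h1 h2
          have h3 := hI.free z θ s (by rw [hreg]; exact h1) (by rw [hreg]; exact h2)
          have h4 : FF V f (z, θ) = FF V f (z + s • dir θ, θ) := by
            unfold FF
            simp only
            rw [h3, xc_add_smul, ← hG.add]
            congr 2
            ring
          show FF V f (z, θ) ∈ U ↔ FF V f (z + s • dir θ, θ) ∈ U
          rw [h4]
        · intro k
          filter_upwards [hθ k] with z hz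
          filter_upwards [hz] with δ hδ h1 h2 h3
          have h4 : f (z, θ) = f (z + δ • (I * dir θ), θ) := by
            by_contra hn
            exact hδ ⟨⟨h2, h3⟩, h1, hθI, hn⟩
          have h5 : FF V f (z, θ) = FF V f (z + δ • (I * dir θ), θ) := by
            unfold FF
            simp only
            rw [h4, xc_add_perp]
          show FF V f (z, θ) ∈ U ↔ FF V f (z + δ • (I * dir θ), θ) ∈ U
          rw [h5]
      rcases hg with hg | hg
      · right
        rw [ae_restrict_iff' hop.measurableSet, ae_iff]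
        refine measure_mono_null ?_ hg
        intro z hz
        simp only [mem_ofPred_eq, Classical.not_imp, not_not] at hz
        exact hz
      · left
        rw [ae_restrict_iff' hop.measurableSet, ae_iff]
        refine measure_mono_null ?_ hg
        intro z hz
        simp only [mem_ofPred_eq, Classical.not_imp] at hz
        exact hz
    obtain ⟨c, hc⟩ := Filter.exists_eventuallyEq_const_of_forall_separating
      (l := ae (volume.restrict Ω)) (f := fun z => FF V f (z, θ)) MeasurableSet hU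
    exact ⟨c, hc⟩
  -- the function of the direction
  have hΩvol : volume Ω < ⊤ := by
    have h1 : Bornology.IsBounded (region p) :=
      ((isBounded_convexHull.2 (finite_range p).isBounded).subset interior_subset)
    rw [hreg] at h1
    exact h1.measure_lt_top
  have hΩpos : 0 < volume Ω := hop.measure_pos volume hne
  have hV : (volume Ω).toReal ≠ 0 := (ENNReal.toReal_pos hΩpos.ne' hΩvol.ne).ne'
  set g : ℝ → E := fun θ => (volume Ω).toReal⁻¹ • ∫ z in Ω, FF V f (z, θ) with hg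
  have hgm : Measurable g := by
    have h1 : StronglyMeasurable (fun θ : ℝ => ∫ z in Ω, FF V f (z, θ)) :=
      (meas_FF hG hf).stronglyMeasurable.integral_prod_left'
    exact (h1.measurable).const_smul ((volume Ω).toReal⁻¹ : ℝ)
  refine ⟨g, hgm, ?_, ?_, ?_⟩
  · intro θ
    rw [hg]
    simp only
    congr 2
    funext z
    unfold FF
    simp only
    rw [hI.periodic, xc_per]
  · intro θ
    have h1 : ‖∫ z in Ω, FF V f (z, θ)‖ ≤ 1 * (volume Ω).toReal :=
      norm_setIntegral_le_of_norm_le_const hΩvol (fun z _ => by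
        rw [norm_FF]; exact hb _)
    have h2 : g θ = (volume Ω).toReal⁻¹ • ∫ z in Ω, FF V f (z, θ) := rfl
    have h0 : 0 < (volume Ω).toReal := ENNReal.toReal_pos hΩpos.ne' hΩvol.ne
    rw [h2, norm_smul, norm_inv, Real.norm_eq_abs, abs_of_pos h0]
    calc (volume Ω).toReal⁻¹ * ‖∫ z in Ω, FF V f (z, θ)‖
        ≤ (volume Ω).toReal⁻¹ * (1 * (volume Ω).toReal) := by gcongr
      _ = 1 := by field_simp
  · have hE : MeasurableSet {x : ℂ × ℝ | x ∈ phase p ∧ ¬ (FF V f x = g x.2)} := by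
      have m1 : MeasurableSet (phase p) := by
        unfold phase
        rw [hreg]
        exact hop.measurableSet.prod measurableSet_Ico
      exact m1.inter (measurableSet_eq_fun (meas_FF hG hf) (hgm.comp measurable_snd)).compl
    rw [ae_iff]
    have hset : {x : ℂ × ℝ | ¬ (x ∈ phase p → FF V f x = g x.2)} =
        {x : ℂ × ℝ | x ∈ phase p ∧ ¬ (FF V f x = g x.2)} := by
      ext x
      simp only [mem_ofPred_eq, Classical.not_imp]
    rw [hset]
    have hsw : MeasurePreserving (Prod.swap : ℝ × ℂ → ℂ × ℝ) :=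
      Measure.measurePreserving_swap (μ := (volume : Measure ℝ)) (ν := (volume : Measure ℂ))
    rw [← hsw.measure_preimage hE.nullMeasurableSet, Measure.volume_eq_prod,
      Measure.measure_prod_null (hsw.measurable hE)]
    filter_upwards [hsec] with θ hθ
    simp only [Pi.zero_apply]
    by_cases hθI : θ ∈ Ico 0 (2 * π)
    · obtain ⟨c, hc⟩ := hθ hθI
      have hgc : g θ = c := by
        rw [hg]
        simp only
        rw [integral_congr_ae hc, setIntegral_const, measureReal_def, smul_smul,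
          inv_mul_cancel₀ hV, one_smul]
      rw [ae_restrict_iff' hop.measurableSet, ae_iff] at hc
      refine measure_mono_null ?_ hc
      rintro z ⟨⟨hz1, _⟩, hz2⟩
      have hz3 : z ∈ region p := hz1
      rw [hreg] at hz3
      simp only [mem_ofPred_eq, Classical.not_imp]
      refine ⟨hz3, ?_⟩
      rw [← hgc]
      exact hz2
    · convert measure_empty (μ := (volume : Measure ℂ))
      rw [eq_empty_iff_forall_notMem]
      rintro z ⟨⟨_, h2⟩, _⟩
      exact hθI h2

end Pool.Agent.Q183.BX
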