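import Pool.Agent.TH578.BE.Jump

set_option autoImplicit false

/-!
Periodic functions of finite variation with values in a Banach space have few jumps.
-/

namespace Pool.Agent.Q183.BX

open Set MeasureTheory Filter Topology
open Pool.Agent.TH578.BE (sin_ne)

open scoped Real

variable {E : Type*} [NormedAddCommGroup E] [NormedSpace ℝ E] [MeasurableSpace E]
  [BorelSpace E] [SecondCountableTopology E] [CompleteSpace E]

/-- the mean of `g` over an interval of length `ε` -/
noncomputable def mg (g : ℝ → E) (ε x : ℝ) : E := (ε : ℝ)⁻¹ • ∫ s in x..(x + ε), g s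

theorem intble {g : ℝ → E} (hg : Measurable g) (hb : ∀ x, ‖g x‖ ≤ 1) (a b : ℝ) :
    IntervalIntegrable g volume a b := by
  rw [intervalIntegrable_iff]
  refine Measure.integrableOn_of_bounded (M := 1) ?_ hg.aestronglyMeasurable
    (Eventually.of_forall fun x => hb x)
  rw [uIoc, Real.volume_Ioc]
  exact ENNReal.ofReal_ne_top

theorem tendsto_mg {g : ℝ → E} (hg : Measurable g) (hb : ∀ x, ‖g x‖ ≤ 1) :
    ∀ᵐ x : ℝ, Tendsto (fun ε => mg g ε x) (𝓝[>] 0) (𝓝 (g x)) := by
  have hloc : LocallyIntegrable g volume := by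
    refine MeasureTheory.LocallyIntegrable.mono (f := fun _ : ℝ => (1 : ℝ))
      (locallyIntegrable_const _) hg.aestronglyMeasurable (Eventually.of_forall fun x => ?_)
    rw [norm_one]
    exact hb x
  filter_upwards [LocallyIntegrable.ae_hasDerivAt_integral hloc] with x hx
  have h1 := (hx 0).tendsto_slope_zero_right
  refine h1.congr' ?_
  filter_upwards [self_mem_nhdsWithin] with ε _
  unfold mg
  rw [intervalIntegral.integral_interval_sub_left (intble hg hb _ _) (intble hg hb _ _)]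

theorem mg_sub {g : ℝ → E} (hg : Measurable g) (hb : ∀ x, ‖g x‖ ≤ 1) {ε : ℝ} (hε : 0 < ε)
    {x y : ℝ} (hxy : x ≤ y) :
    ‖mg g ε y - mg g ε x‖ ≤ ε⁻¹ * ∫ s in x..y, ‖g (s + ε) - g s‖ := by
  have hI := fun a b => intble hg hb a b
  have e : mg g ε y - mg g ε x = ε⁻¹ • ∫ s in x..y, (g (s + ε) - g s) := by
    unfold mg
    rw [← smul_sub]
    congr 1
    have h1 : ∫ s in x..y, (g (s + ε) - g s) = (∫ s in x..y, g (s + ε)) - ∫ s in x..y, g s := by
      refine intervalIntegral.integral_sub ?_ (hI _ _)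
      exact intble (g := fun s => g (s + ε)) (hg.comp (measurable_id.add_const ε))
        (fun s => hb _) x y
    rw [h1, intervalIntegral.integral_comp_add_right (fun s => g s)]
    have h2 := intervalIntegral.integral_add_adjacent_intervals (hI x y) (hI y (y + ε))
    have h3 := intervalIntegral.integral_add_adjacent_intervals (hI x (x + ε)) (hI (x + ε) (y + ε))
    have h4 : (∫ s in x..y, g s) + ∫ s in y..(y + ε), g s =
        (∫ s in x..(x + ε), g s) + ∫ s in (x + ε)..(y + ε), g s := by rw [h2, h3]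
    rw [sub_eq_sub_iff_add_eq_add, add_comm, h4, add_comm]
  rw [e, norm_smul, norm_inv, Real.norm_eq_abs, abs_of_pos hε]
  gcongr
  exact intervalIntegral.norm_integral_le_integral_norm hxy

theorem jump_bound {g : ℝ → E} (hg : Measurable g) (hb : ∀ x, ‖g x‖ ≤ 1)
    (hper : ∀ x, g (x + 2 * π) = g x) {C : ℝ}
    (hC : ∀ ε : ℝ, 0 < ε → ε < 1 → ∫ x in (0 : ℝ)..(2 * π), ‖g (x + ε) - g x‖ ≤ C * ε)
    (B : Finset ℝ) (hB : ∀ b ∈ B, 0 ≤ b ∧ b < 2 * π) :
    ∃ h > 0, ∀ᵐ t : ℝ, 0 < t → t < h → ∑ b ∈ B, ‖g (b + t) - g (b - t)‖ ≤ C := by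
  -- the width
  have e1 : ∀ᶠ h in 𝓝[>] (0 : ℝ), ∀ b ∈ B, b + 2 * h < 2 * π := by
    rw [Finset.eventually_all]
    intro b hbB
    have h1 : Tendsto (fun h : ℝ => b + 2 * h) (𝓝[>] 0) (𝓝 b) := by
      have : Tendsto (fun h : ℝ => b + 2 * h) (𝓝 0) (𝓝 (b + 2 * 0)) :=
        Continuous.tendsto (by fun_prop) 0
      rw [mul_zero, add_zero] at this
      exact this.mono_left nhdsWithin_le_nhds
    exact h1.eventually (gt_mem_nhds (hB b hbB).2)
  have e2 : ∀ᶠ h in 𝓝[>] (0 : ℝ), ∀ b ∈ B, ∀ b' ∈ B, b < b' → b + 2 * h < b' := by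
    rw [Finset.eventually_all]
    intro b _
    rw [Finset.eventually_all]
    intro b' _
    by_cases hbb : b < b'
    · have h1 : Tendsto (fun h : ℝ => b + 2 * h) (𝓝[>] 0) (𝓝 b) := by
        have : Tendsto (fun h : ℝ => b + 2 * h) (𝓝 0) (𝓝 (b + 2 * 0)) :=
          Continuous.tendsto (by fun_prop) 0
        rw [mul_zero, add_zero] at this
        exact this.mono_left nhdsWithin_le_nhds
      filter_upwards [h1.eventually (gt_mem_nhds hbb)] with h hh _ using hh
    · exact Eventually.of_forall fun h hh => absurd hh hbb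
  obtain ⟨h, ⟨hh1, hh2⟩, hh0⟩ := ((e1.and e2).and self_mem_nhdsWithin).exists
  have hh0 : (0 : ℝ) < h := hh0
  refine ⟨h, hh0, ?_⟩
  -- the estimate for the means
  have key : ∀ ε t : ℝ, 0 < ε → ε < 1 → 0 < t → t < h →
      ∑ b ∈ B, ‖mg g ε (b + t) - mg g ε (b - t)‖ ≤ C := by
    intro ε t hε hε1 ht0 hth
    set F : ℝ → ℝ := fun s => ‖g (s + ε) - g s‖ with hF
    have hFm : Measurable F := ((hg.comp (measurable_id.add_const ε)).sub hg).norm
    have hF0 : ∀ s, 0 ≤ F s := fun s => norm_nonneg _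
    have hF2 : ∀ s, F s ≤ 2 := by
      intro s
      refine (norm_sub_le _ _).trans ?_
      linarith [hb (s + ε), hb s]
    have hFi : ∀ a b : ℝ, IntegrableOn F (Ioc a b) := by
      intro a b
      refine Measure.integrableOn_of_bounded (M := 2) ?_ hFm.aestronglyMeasurable
        (Eventually.of_forall fun x => ?_)
      · rw [Real.volume_Ioc]
        exact ENNReal.ofReal_ne_top
      · rw [Real.norm_eq_abs, abs_of_nonneg (hF0 x)]
        exact hF2 x
    have hFp : Function.Periodic F (2 * π) := by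
      intro s
      rw [hF]
      simp only
      rw [show s + 2 * π + ε = s + ε + 2 * π by ring, hper, hper]
    have hdisj : (B : Set ℝ).Pairwise (Function.onFun Disjoint fun b => Ioc (b - t) (b + t)) := by
      intro b hbB b' hbB' hne
      rw [Function.onFun, Set.disjoint_left]
      rintro x ⟨x1, x2⟩ ⟨x3, x4⟩
      rcases lt_or_gt_of_ne hne with hlt | hlt
      · have := hh2 b hbB b' hbB' hlt
        linarith
      · have := hh2 b' hbB' b hbB hlt
        linarith
    calc ∑ b ∈ B, ‖mg g ε (b + t) - mg g ε (b - t)‖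
        ≤ ∑ b ∈ B, ε⁻¹ * ∫ s in (b - t)..(b + t), F s :=
          Finset.sum_le_sum fun b _ => mg_sub hg hb hε (by linarith)
      _ = ε⁻¹ * ∑ b ∈ B, ∫ s in Ioc (b - t) (b + t), F s := by
          rw [Finset.mul_sum]
          refine Finset.sum_congr rfl fun b _ => ?_
          rw [intervalIntegral.integral_of_le (by linarith)]
      _ = ε⁻¹ * ∫ s in ⋃ b ∈ B, Ioc (b - t) (b + t), F s := by
          rw [integral_biUnion_finset B (fun b _ => measurableSet_Ioc) hdisj
            (fun b _ => hFi _ _)]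
      _ ≤ ε⁻¹ * ∫ s in Ioc (-h) (-h + 2 * π), F s := by
          refine mul_le_mul_of_nonneg_left ?_ (by positivity)
          refine setIntegral_mono_set (hFi _ _) (Eventually.of_forall hF0) ?_
          refine (LE.le.eventuallyLE ?_)
          intro x hx
          obtain ⟨b, hbB, x1, x2⟩ := mem_iUnion₂.1 hx
          have h1 := hh1 b hbB
          have h2 := (hB b hbB).1
          exact ⟨by linarith, by linarith⟩
      _ = ε⁻¹ * ∫ s in (0 : ℝ)..(2 * π), F s := by
          congr 1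
          have h1 := hFp.intervalIntegral_add_eq (-h) 0
          rw [zero_add] at h1
          rw [← h1, intervalIntegral.integral_of_le (by linarith [Real.pi_pos])]
      _ ≤ ε⁻¹ * (C * ε) := by
          gcongr
          exact hC ε hε hε1
      _ = C := by field_simp
  -- the limit
  have hT := tendsto_mg hg hb
  have hTb : ∀ᵐ t : ℝ, ∀ b ∈ B, Tendsto (fun ε => mg g ε (b + t)) (𝓝[>] 0) (𝓝 (g (b + t))) ∧
      Tendsto (fun ε => mg g ε (b - t)) (𝓝[>] 0) (𝓝 (g (b - t))) := by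
    have : ∀ b ∈ B, ∀ᵐ t : ℝ, Tendsto (fun ε => mg g ε (b + t)) (𝓝[>] 0) (𝓝 (g (b + t))) ∧
        Tendsto (fun ε => mg g ε (b - t)) (𝓝[>] 0) (𝓝 (g (b - t))) := by
      intro b _
      exact ((measurePreserving_add_left volume b).quasiMeasurePreserving.ae hT).and
        ((Measure.measurePreserving_sub_left volume b).quasiMeasurePreserving.ae hT)
    rw [Finset.eventually_all]
    exact this
  filter_upwards [hTb] with t ht ht0 hth
  have hlim : Tendsto (fun ε => ∑ b ∈ B, ‖mg g ε (b + t) - mg g ε (b - t)‖) (𝓝[>] 0)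
      (𝓝 (∑ b ∈ B, ‖g (b + t) - g (b - t)‖)) := by
    refine tendsto_finsetSum _ fun b hbB => ?_
    exact ((ht b hbB).1.sub (ht b hbB).2).norm
  refine le_of_tendsto hlim ?_
  filter_upwards [Ioo_mem_nhdsGT (zero_lt_one : (0 : ℝ) < 1)] with ε hε
  exact key ε t hε.1 hε.2 ht0 hth

/-! ### The weights of two reflections -/

/-- the weight -/
noncomputable def sw (C : E ≃ₗᵢ[ℝ] E) (τ θ : ℝ) : E ≃ₗᵢ[ℝ] E :=
  if Real.sin (θ - τ) < 0 then C else C⁻¹

/-- the jump at `b` has size `D` -/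
def Jp (g : ℝ → E) (D b : ℝ) : Prop :=
  ∃ h > 0, ∀ᵐ t : ℝ, 0 < t → t < h → ‖g (b + t) - g (b - t)‖ = D

theorem Jp_per {g : ℝ → E} (hper : ∀ x, g (x + 2 * π) = g x) (D b : ℝ) :
    Jp g D (b + 2 * π) ↔ Jp g D b := by
  unfold Jp
  have h1 : ∀ t, g (b + 2 * π + t) = g (b + t) := by
    intro t
    rw [show b + 2 * π + t = b + t + 2 * π by ring, hper]
  have h2 : ∀ t, g (b + 2 * π - t) = g (b - t) := by
    intro t
    rw [show b + 2 * π - t = b - t + 2 * π by ring, hper]
  simp only [h1, h2]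

theorem Jp_int {g : ℝ → E} (hper : ∀ x, g (x + 2 * π) = g x) (D : ℝ) (k : ℤ) :
    ∀ b, Jp g D (b + k • (2 * π)) ↔ Jp g D b := by
  induction k using Int.induction_on with
  | zero => intro θ; simp
  | succ k ih =>
    intro θ
    rw [add_zsmul, one_zsmul, ← add_assoc, Jp_per hper, ih]
  | pred k ih =>
    intro θ
    rw [← Jp_per hper, sub_zsmul, one_zsmul]
    have : θ + ((-(k:ℤ)) • (2 * π) + -(2 * π)) + 2 * π = θ + (-(k:ℤ)) • (2 * π) := by ring
    rw [this, ih]

theorem Jp_refl {g : ℝ → E} {σ : ℝ} {ψ : E ≃ₗᵢ[ℝ] E}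
    (h : ∀ᵐ θ : ℝ, g (2 * σ - θ) = sw ψ σ θ (g θ)) {D b : ℝ} (hs : Real.sin (b - σ) ≠ 0)
    (hJ : Jp g D b) : Jp g D (2 * σ - b) := by
  obtain ⟨h1, hh1, hJ⟩ := hJ
  -- constancy of the weight
  have hw : ∃ δ > 0, ∀ x, |x - b| < δ → sw ψ σ x = sw ψ σ b := by
    have hc : Continuous (fun x : ℝ => Real.sin (x - σ)) := by fun_prop
    rcases lt_or_gt_of_ne hs with hlt | hgt
    · have := hc.continuousAt (x := b) |>.eventually (gt_mem_nhds hlt)
      obtain ⟨δ, hδ, hb⟩ := Metric.eventually_nhds_iff.1 this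
      refine ⟨δ, hδ, fun x hx => ?_⟩
      have h2 := hb (by rwa [Real.dist_eq])
      unfold sw
      rw [if_pos h2, if_pos hlt]
    · have := hc.continuousAt (x := b) |>.eventually (lt_mem_nhds hgt)
      obtain ⟨δ, hδ, hb⟩ := Metric.eventually_nhds_iff.1 this
      refine ⟨δ, hδ, fun x hx => ?_⟩
      have h2 : 0 < Real.sin (x - σ) := hb (by rwa [Real.dist_eq])
      unfold sw
      rw [if_neg h2.not_gt, if_neg (not_lt.2 (le_of_lt hgt))]
  obtain ⟨δ, hδ, hwc⟩ := hw
  refine ⟨min h1 δ, lt_min hh1 hδ, ?_⟩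
  have q1 := (measurePreserving_add_left (volume : Measure ℝ) b).quasiMeasurePreserving.ae h
  have q2 := (Measure.measurePreserving_sub_left (volume : Measure ℝ) b).quasiMeasurePreserving.ae h
  filter_upwards [hJ, q1, q2] with t t1 t2 t3 ht0 htm
  have ht1 := lt_of_lt_of_le htm (min_le_left _ _)
  have ht2 := lt_of_lt_of_le htm (min_le_right _ _)
  have w1 : sw ψ σ (b + t) = sw ψ σ b := hwc _ (by rw [add_sub_cancel_left, abs_of_pos ht0]; exact ht2)
  have w2 : sw ψ σ (b - t) = sw ψ σ b := by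
    apply hwc
    rw [show b - t - b = -t by ring, abs_neg, abs_of_pos ht0]
    exact ht2
  rw [w1] at t2
  rw [w2] at t3
  have e1 : 2 * σ - b + t = 2 * σ - (b - t) := by ring
  have e2 : 2 * σ - b - t = 2 * σ - (b + t) := by ring
  rw [e1, e2, t2, t3, ← map_sub, (sw ψ σ b).norm_map, norm_sub_rev]
  exact t1 ht0 ht1

theorem weight_one {g : ℝ → E} (hg : Measurable g) (hb : ∀ x, ‖g x‖ ≤ 1)
    (hper : ∀ x, g (x + 2 * π) = g x) {C : ℝ}
    (hC : ∀ ε : ℝ, 0 < ε → ε < 1 → ∫ x in (0 : ℝ)..(2 * π), ‖g (x + ε) - g x‖ ≤ C * ε)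
    {D : ℝ} {τ σ : ℝ} {χ ψ : E ≃ₗᵢ[ℝ] E} (hn : ∀ᵐ θ : ℝ, ‖χ (g θ) - g θ‖ = D)
    (irr : Irrational ((τ - σ) / π))
    (h1 : ∀ᵐ θ : ℝ, g (2 * τ - θ) = sw χ τ θ (g θ))
    (h2 : ∀ᵐ θ : ℝ, g (2 * σ - θ) = sw ψ σ θ (g θ)) : D ≤ 0 := by
  -- the jump at `τ`
  have base : Jp g D τ := by
    refine ⟨π, Real.pi_pos, ?_⟩
    have q1 := (Measure.measurePreserving_sub_left (volume : Measure ℝ) τ).quasiMeasurePreserving.ae h1
    have q2 := (Measure.measurePreserving_sub_left (volume : Measure ℝ) τ).quasiMeasurePreserving.ae hn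
    filter_upwards [q1, q2] with t t1 t2 ht0 htπ
    have e1 : 2 * τ - (τ - t) = τ + t := by ring
    have e2 : sw χ τ (τ - t) = χ := by
      unfold sw
      rw [if_pos]
      rw [show τ - t - τ = -t by ring, Real.sin_neg]
      linarith [Real.sin_pos_of_pos_of_lt_pi ht0 htπ]
    rw [e1, e2] at t1
    rw [t1, t2]
  -- the orbit
  have horb : ∀ k : ℕ, Jp g D (τ + 2 * k * (τ - σ)) := by
    intro k
    induction k with
    | zero => simpa using base
    | succ k ih =>
      have s1 : Real.sin (τ + 2 * k * (τ - σ) - σ) ≠ 0 := by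
        have := sin_ne irr (k := 2 * k + 1) (by omega)
        have e : τ + 2 * k * (τ - σ) - σ = ((2 * k + 1 : ℤ) : ℝ) * (τ - σ) := by push_cast; ring
        rw [e]
        exact this
      have j1 := Jp_refl h2 s1 ih
      have s2 : Real.sin (2 * σ - (τ + 2 * k * (τ - σ)) - τ) ≠ 0 := by
        have := sin_ne irr (k := -(2 * k + 2)) (by omega)
        have e : 2 * σ - (τ + 2 * k * (τ - σ)) - τ = ((-(2 * k + 2) : ℤ) : ℝ) * (τ - σ) := by
          push_cast; ring
        rw [e]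
        exact this
      have j2 := Jp_refl h1 s2 j1
      have e : 2 * τ - (2 * σ - (τ + 2 * k * (τ - σ))) = τ + 2 * (k + 1 : ℕ) * (τ - σ) := by
        push_cast; ring
      rwa [e] at j2
  -- representatives
  obtain ⟨r, hr⟩ : ∃ r : ℕ → ℝ, r = fun k : ℕ =>
      toIcoMod Real.two_pi_pos 0 (τ + 2 * k * (τ - σ)) := ⟨_, rfl⟩
  have hrk : ∀ k, r k = τ + 2 * k * (τ - σ) -
      toIcoDiv Real.two_pi_pos 0 (τ + 2 * k * (τ - σ)) • (2 * π) := by
    intro k
    rw [hr]
    exact (self_sub_toIcoDiv_zsmul Real.two_pi_pos 0 _).symm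
  have hrI : ∀ k, 0 ≤ r k ∧ r k < 2 * π := by
    intro k
    rw [hr]
    have := toIcoMod_mem_Ico Real.two_pi_pos 0 (τ + 2 * k * (τ - σ))
    rw [zero_add] at this
    exact this
  have hinj : Function.Injective r := by
    intro k l hkl
    by_contra hne
    rw [hrk, hrk] at hkl
    set a := toIcoDiv Real.two_pi_pos 0 (τ + 2 * k * (τ - σ))
    set b := toIcoDiv Real.two_pi_pos 0 (τ + 2 * l * (τ - σ))
    have h3 : Real.sin (((k : ℤ) - (l : ℤ) : ℤ) * (τ - σ)) = 0 := by
      rw [Real.sin_eq_zero_iff]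
      refine ⟨a - b, ?_⟩
      rw [zsmul_eq_mul, zsmul_eq_mul] at hkl
      push_cast
      linarith
    exact sin_ne irr (by omega) h3
  have hrJ : ∀ k, Jp g D (r k) := by
    intro k
    rw [hrk, sub_eq_add_neg, ← neg_zsmul, Jp_int hper]
    exact horb k
  -- the bound
  have hbound : ∀ m : ℕ, (m : ℝ) * D ≤ C := by
    intro m
    obtain ⟨h, hh, hbd⟩ := jump_bound hg hb hper hC ((Finset.range m).image r) (by
      intro b hb
      obtain ⟨k, -, rfl⟩ := Finset.mem_image.1 hb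
      exact hrI k)
    choose w hw0 hw using hrJ
    have e1 : ∀ᶠ t in 𝓝[>] (0 : ℝ), ∀ k ∈ Finset.range m, t < w k := by
      rw [Finset.eventually_all]
      intro k _
      filter_upwards [Ioo_mem_nhdsGT (hw0 k)] with t ht using ht.2
    obtain ⟨δ, hδ, hδm⟩ := mem_nhdsGT_iff_exists_Ioo_subset.1 e1
    have hδ : (0 : ℝ) < δ := hδ
    have hall : ∀ᵐ t : ℝ, ∀ k ∈ Finset.range m,
        0 < t → t < w k → ‖g (r k + t) - g (r k - t)‖ = D := by
      rw [Finset.eventually_all]
      exact fun k _ => hw k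
    have hpos : 0 < volume (Ioo (0 : ℝ) (min h δ)) := by
      rw [Real.volume_Ioo, ENNReal.ofReal_pos]
      have := lt_min hh hδ
      linarith
    obtain ⟨t, ht, ht1, ht2⟩ : ∃ t ∈ Ioo (0 : ℝ) (min h δ),
        (0 < t → t < h → ∑ b ∈ (Finset.range m).image r, ‖g (b + t) - g (b - t)‖ ≤ C) ∧
        ∀ k ∈ Finset.range m, 0 < t → t < w k → ‖g (r k + t) - g (r k - t)‖ = D := by
      by_contra hcon
      have h5 := hbd.and hall
      rw [ae_iff] at h5
      exact hpos.ne' (measure_mono_null (fun t ht hP => hcon ⟨t, ht, hP⟩) h5)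
    have ht3 := ht1 ht.1 (lt_of_lt_of_le ht.2 (min_le_left _ _))
    have hδt : ∀ k ∈ Finset.range m, t < w k :=
      hδm ⟨ht.1, lt_of_lt_of_le ht.2 (min_le_right _ _)⟩
    rw [Finset.sum_image (fun a _ b _ hab => hinj hab)] at ht3
    rw [Finset.sum_congr rfl (fun k hk => ht2 k hk ht.1 (hδt k hk)), Finset.sum_const,
      Finset.card_range, nsmul_eq_mul] at ht3
    exact ht3
  by_contra hcon
  push Not at hcon
  obtain ⟨m, hm⟩ := exists_nat_gt (C / D)
  have := hbound m
  rw [div_lt_iff₀ hcon] at hm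
  linarith

end Pool.Agent.Q183.BX
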