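import Pool.Agent.Q183.BX.Refl
import Pool.Agent.Q183.BX.Jump
import Pool.Agent.TH578.BE.Fin

set_option autoImplicit false

/-!
Equivariant functions of finite directional variation in a polygon with an irrational angle.
-/

namespace Pool.Agent.Q183.BX

open Complex Set MeasureTheory Filter Topology Pool.Agent.W780.PG Pool.Agent.W780.BB
open Pool.Agent.W803.BBD (xc)
open Pool.Agent.TH578.BE (UU GG VV xc_per xc_add_smul xc_add_perp xc_sub' xc_smul xc_polar xc_side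
  side_ne irr_tau countable_cos)

open scoped Real ComplexConjugate

variable {n : ℕ} {E : Type*} [NormedAddCommGroup E] [NormedSpace ℝ E] [MeasurableSpace E]
  [BorelSpace E] [SecondCountableTopology E]

/-- finite directional variation, with the constant `C₀` -/
def FV (p : Fin (n + 3) → ℂ) (f : ℂ × ℝ → E) (C₀ : ℝ) : Prop :=
  ∀ h : ℝ, 0 < h → h < 1 → ∫⁻ x in phase p, ENNReal.ofReal (DD f h x) ≤ ENNReal.ofReal (C₀ * h)

omit [NormedSpace ℝ E] in
theorem rot_const (hRot : S_Rot) {h : ℝ → E} (hm : Measurable h)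
    (hper : ∀ θ, h (θ + 2 * π) = h θ) {a b : ℝ} (ha : ∀ᵐ θ : ℝ, h (2 * a - θ) = h θ)
    (hb : ∀ᵐ θ : ℝ, h (2 * b - θ) = h θ) (irr : Irrational ((a - b) / π)) :
    ∃ c : E, ∀ᵐ θ : ℝ, h θ = c := by
  have hU : ∀ U : Set E, MeasurableSet U →
      (∀ᵐ θ : ℝ, h θ ∈ U) ∨ (∀ᵐ θ : ℝ, h θ ∉ U) := by
    intro U hUm
    rcases hRot (h ⁻¹' U) a b (hm hUm) (fun θ => by simp only [mem_preimage, hper])
      (by filter_upwards [ha] with θ hθ; simp only [mem_preimage, hθ])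
      (by filter_upwards [hb] with θ hθ; simp only [mem_preimage, hθ]) irr with h1 | h1
    · right
      exact measure_eq_zero_iff_ae_notMem.1 h1
    · left
      rw [ae_iff]
      exact h1
  obtain ⟨c, hc⟩ := Filter.exists_eventuallyEq_const_of_forall_separating
    (l := ae (volume : Measure ℝ)) (f := h) MeasurableSet hU
  exact ⟨c, hc⟩

/-- all directions -/
theorem ae_all_dir {E : Type*} {p : Fin (n + 3) → ℂ} {F : ℂ × ℝ → E} {g : ℝ → E}
    (hF : ∀ z θ, F (z, θ + 2 * π) = F (z, θ)) (hg : ∀ θ, g (θ + 2 * π) = g θ)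
    (h : ∀ᵐ x : ℂ × ℝ, x ∈ phase p → F x = g x.2) :
    ∀ᵐ x : ℂ × ℝ, x.1 ∈ region p → F x = g x.2 := by
  have hFz : ∀ (k : ℤ) z θ, F (z, θ + k • (2 * π)) = F (z, θ) := by
    intro k
    induction k using Int.induction_on with
    | zero => intro z θ; simp
    | succ k ih =>
      intro z θ
      rw [add_zsmul, one_zsmul, ← add_assoc, hF, ih]
    | pred k ih =>
      intro z θ
      rw [← hF, sub_zsmul, one_zsmul]
      have : θ + ((-(k:ℤ)) • (2 * π) + -(2 * π)) + 2 * π = θ + (-(k:ℤ)) • (2 * π) := by ring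
      rw [this, ih]
  have hgz : ∀ (k : ℤ) θ, g (θ + k • (2 * π)) = g θ := by
    intro k
    induction k using Int.induction_on with
    | zero => intro θ; simp
    | succ k ih =>
      intro θ
      rw [add_zsmul, one_zsmul, ← add_assoc, hg, ih]
    | pred k ih =>
      intro θ
      rw [← hg, sub_zsmul, one_zsmul]
      have : θ + ((-(k:ℤ)) • (2 * π) + -(2 * π)) + 2 * π = θ + (-(k:ℤ)) • (2 * π) := by ring
      rw [this, ih]
  have h1 : ∀ᵐ x : ℂ × ℝ, ∀ k : ℤ, (x.1, x.2 + k • (2 * π)) ∈ phase p →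
      F (x.1, x.2 + k • (2 * π)) = g (x.2 + k • (2 * π)) := by
    rw [ae_all_iff]
    intro k
    exact (shift (k • (2 * π))).quasiMeasurePreserving.ae h
  filter_upwards [h1] with x hx hxr
  obtain ⟨k, hk, -⟩ := existsUnique_add_zsmul_mem_Ico Real.two_pi_pos x.2 0
  rw [zero_add] at hk
  have h2 := hx k ⟨hxr, hk⟩
  rw [hFz, hgz] at h2
  exact h2

theorem xc_lip (θ ε : ℝ) (u : ℂ) : |xc (θ + ε) u - xc θ u| ≤ ‖u‖ * |ε| := by
  rw [xc_polar, xc_polar, ← mul_sub, abs_mul, abs_of_nonneg (norm_nonneg u)]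
  refine mul_le_mul_of_nonneg_left ?_ (norm_nonneg u)
  have h1 := Real.abs_cos_sub_cos_le (θ + ε - arg u) (θ - arg u)
  have h2 : θ + ε - arg u - (θ - arg u) = ε := by ring
  rwa [h2] at h1

omit [BorelSpace E] [SecondCountableTopology E] in
/-- the variation of a function of the direction -/
theorem var_dir (hB : S_Basic) (hH : S_Hull) {p : Fin (n + 3) → ℂ} (hp : IsConvexPolygon p)
    {g : ℝ → E} (hFm : ∀ ε : ℝ, Measurable fun θ : ℝ => ‖g (θ + ε) - g θ‖) (hgb : ∀ θ, ‖g θ‖ ≤ 1)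
    {C : ℝ} (hC0 : 0 ≤ C)
    (hC : ∀ ε : ℝ, 0 < ε → ε < 1 →
      ∫⁻ x in phase p, ENNReal.ofReal ‖g (x.2 + ε) - g x.2‖ ≤ ENNReal.ofReal (C * ε)) :
    ∃ C' : ℝ, ∀ ε : ℝ, 0 < ε → ε < 1 →
      ∫ x in (0 : ℝ)..(2 * π), ‖g (x + ε) - g x‖ ≤ C' * ε := by
  have hrr : region p = reg p := (hH n p hp).2
  obtain ⟨_, hop, _, _, _, hne, _⟩ := hB n p hp
  rw [← hrr] at hop hne
  have hregm : MeasurableSet (region p) := hop.measurableSet
  have hfin : volume (region p) < ⊤ :=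
    ((isBounded_convexHull.2 (finite_range p).isBounded).subset interior_subset).measure_lt_top
  have hpos : 0 < volume (region p) := hop.measure_pos volume hne
  obtain ⟨V, hV⟩ : ∃ V : ℝ, V = (volume (region p)).toReal := ⟨_, rfl⟩
  have hV0 : 0 < V := by rw [hV]; exact ENNReal.toReal_pos hpos.ne' hfin.ne
  refine ⟨C / V, fun ε hε hε1 => ?_⟩
  have hF := hFm ε
  have h3 : ∫⁻ x in phase p, ENNReal.ofReal ‖g (x.2 + ε) - g x.2‖ =
      volume (region p) * ∫⁻ θ in Ico 0 (2 * π), ENNReal.ofReal ‖g (θ + ε) - g θ‖ := by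
    rw [phase, Measure.volume_eq_prod, ← Measure.prod_restrict]
    have hFs : Measurable (fun x : ℂ × ℝ => ENNReal.ofReal ‖g (x.2 + ε) - g x.2‖) :=
      hF.ennreal_ofReal.comp measurable_snd
    rw [lintegral_prod _ hFs.aemeasurable]
    simp only
    rw [lintegral_const, Measure.restrict_apply_univ, mul_comm]
  have h4 := hC ε hε hε1
  rw [h3] at h4
  have hint : IntegrableOn (fun θ : ℝ => ‖g (θ + ε) - g θ‖) (Ico 0 (2 * π)) := by
    refine Measure.integrableOn_of_bounded (M := 2) ?_ hF.aestronglyMeasurable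
      (Eventually.of_forall fun x => ?_)
    · rw [Real.volume_Ico]
      exact ENNReal.ofReal_ne_top
    · rw [Real.norm_eq_abs, abs_of_nonneg (norm_nonneg _)]
      refine (norm_sub_le _ _).trans ?_
      linarith [hgb (x + ε), hgb x]
  rw [← ofReal_integral_eq_lintegral_ofReal hint (Eventually.of_forall fun x => norm_nonneg _)] at h4
  have h5 : volume (region p) = ENNReal.ofReal V := by
    rw [hV, ENNReal.ofReal_toReal hfin.ne]
  rw [h5, ← ENNReal.ofReal_mul hV0.le] at h4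
  have h6 : V * ∫ θ in Ico 0 (2 * π), ‖g (θ + ε) - g θ‖ ≤ C * ε := by
    rwa [ENNReal.ofReal_le_ofReal_iff (by positivity)] at h4
  rw [intervalIntegral.integral_of_le (by positivity), ← integral_Ico_eq_integral_Ioc]
  rw [div_mul_eq_mul_div, le_div_iff₀ hV0, mul_comm]
  exact h6

/-- the first part: the function of the direction -/
theorem core [CompleteSpace E] {p : Fin (n + 3) → ℂ} (hp : IsConvexPolygon p)
    {V : ℝ → (E ≃ₗᵢ[ℝ] E)} {Cs : Fin (n + 3) → (E ≃ₗᵢ[ℝ] E)} (hG : IsGrp V Cs)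
    {L : ℝ} (hL0 : 0 ≤ L) {f : ℂ × ℝ → E} (hf : Measurable f) (hb : ∀ x, ‖f x‖ ≤ 1)
    (hI : IsEq p V Cs f) (hL : ∀ x s, ‖V s (f x) - f x‖ ≤ L * |s|) {C₀ : ℝ} (hC0 : 0 ≤ C₀)
    (hC : FV p f C₀) :
    ∃ g : ℝ → E, Measurable g ∧ (∀ θ, g (θ + 2 * π) = g θ) ∧ (∀ θ, ‖g θ‖ ≤ 1) ∧
      (∀ᵐ x : ℂ × ℝ, x.1 ∈ region p → f x = V (xc x.2 x.1) (g x.2)) ∧
      ∀ i, ∀ᵐ θ : ℝ, g (2 * tau p i - θ) =
        V (xc θ (p i) - xc (2 * tau p i - θ) (p i)) (wt p Cs i θ (g θ)) := by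
  have hB : S_Basic := Pool.Agent.W174.PG.basic
  have hH : S_Hull := Pool.Agent.W975.PG.hull hB
  have hR : S_Ref := Pool.Agent.W347.BB.ref
  have hM : S_Mp := Pool.Agent.W333.BB.mp
  have hO : S_Open := Pool.Agent.W762.BB.open_it
  have hU : S_Uniq := Pool.Agent.W108.BB.uniq
  have hVr : S_Rev := W973.BB.rev hR
  have hUnif : S_Unif := Pool.Agent.W12.BB.Unif.unif W327.BB.alt (Pool.Agent.W340.BB.Trip.trip hR hB)
  have hFan : S_Fan := Pool.Agent.W12.BB.Fan.fan hR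
  have hEx : S_Exist := Pool.Agent.W345.BB.exist hR Pool.Agent.W337.BB.exit_th hUnif
  have hGen : S_Gen := Pool.Agent.W337.BB.gen_th
  have hFl : S_Flow := Pool.Agent.W462.BBF.flow hR hM hO hU hVr hH hB
  have hBad : S_Bad := Pool.Agent.W74.BB.bad
  have hMain : ∀ T η : ℝ, 0 < T → 0 < η → ∀ᶠ h in 𝓝[>] (0 : ℝ),
      ∫⁻ x in GG p η, ENNReal.ofReal (TT f (T * Real.sin h) x) ≤
        ENNReal.ofReal ((6 * C₀ + 3) * h) := fun T η hT hη =>
    main_f hH hB hR hO hU hM hFan hEx hGen hFl hBad hp hG hL0 hf hb hI hL C₀ hC0 hC T η hT hη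
  have hnull : ∀ η δ : ℝ, 0 < δ → δ < η →
      ∫⁻ x in GG p (2 * η), ENNReal.ofReal (TT f δ x) = 0 := fun η δ h1 h2 =>
    lim_f hf (by positivity) hMain η δ h1 h2
  obtain ⟨g, hgm, hgp, hgb, hg⟩ := dir_f hB hH hp hG hf hb hI hnull
  have hgood := ae_good hH hp hG hI hgp hg
  have hFp : ∀ z θ, FF V f (z, θ + 2 * π) = FF V f (z, θ) := by
    intro z θ
    unfold FF
    simp only
    rw [hI.periodic, xc_per]
  refine ⟨g, hgm, hgp, hgb, ?_, fun i => refl_f hB hH hp hG hI hgood i⟩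
  filter_upwards [ae_all_dir hFp hgp hg] with x hx hxr
  rw [eq_FF hG f x, hx hxr]

end Pool.Agent.Q183.BX
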