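import Pool.Agent.Q183.BX.Gen

set_option autoImplicit false

/-!
Equivariant functions of finite directional variation: two sides which make an irrational angle and
act by commuting isometries.
-/

namespace Pool.Agent.Q183.BX

open Complex Set MeasureTheory Filter Topology Pool.Agent.W780.PG Pool.Agent.W780.BB
open Pool.Agent.W174.PG Pool.Agent.W82.BB
open Pool.Agent.W803.BBD (xc)

open scoped Real ComplexConjugate

variable {n : ℕ} {E : Type*} [NormedAddCommGroup E] [NormedSpace ℝ E] [MeasurableSpace E]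
  [BorelSpace E] [SecondCountableTopology E] [CompleteSpace E]

omit [CompleteSpace E] in
theorem sv_of_fv {p : Fin (n + 3) → ℂ} {f : ℂ × ℝ → E} {C : ℝ} (hC : FV p f C) : SV p f := by
  intro ε hε
  apply Eventually.frequently
  have e1 : Tendsto (fun h : ℝ => Real.log (1 / h)) (𝓝[>] 0) atTop := by
    have h1 : Tendsto (fun h : ℝ => h⁻¹) (𝓝[>] 0) atTop := tendsto_inv_nhdsGT_zero
    have h2 := Real.tendsto_log_atTop.comp h1
    refine h2.congr fun x => ?_
    rw [Function.comp_apply, one_div]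
  filter_upwards [e1.eventually_ge_atTop (C / ε), Ioo_mem_nhdsGT (zero_lt_one : (0 : ℝ) < 1)]
    with h h1 h2
  refine (hC h h2.1 h2.2).trans (ENNReal.ofReal_le_ofReal ?_)
  rw [div_le_iff₀ hε] at h1
  have := mul_le_mul_of_nonneg_right h1 h2.1.le
  calc C * h ≤ Real.log (1 / h) * ε * h := this
    _ = ε * (h * Real.log (1 / h)) := by ring

/-- a fixed vector -/
theorem all_sides {p : Fin (n + 3) → ℂ} {Cs : Fin (n + 3) → (E ≃ₗᵢ[ℝ] E)} {g : ℝ → E} {w : E}
    (hw : ∀ᵐ θ : ℝ, g θ = w) (h3 : ∀ k, ∀ᵐ θ : ℝ, g (2 * tau p k - θ) = wt p Cs k θ (g θ))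
    (k : Fin (n + 3)) : Cs k w = w := by
  have q1 := (Measure.measurePreserving_sub_left (volume : Measure ℝ)
    (2 * tau p k)).quasiMeasurePreserving.ae hw
  obtain ⟨θ, a1, a2, a3⟩ := ((h3 k).and (hw.and q1)).exists
  rw [a2, a3] at a1
  unfold wt at a1
  split_ifs at a1
  · exact a1.symm
  · exact fix_inv a1.symm

theorem const_gen {p : Fin (n + 3) → ℂ} (hp : IsConvexPolygon p)
    {V : ℝ → (E ≃ₗᵢ[ℝ] E)} {Cs : Fin (n + 3) → (E ≃ₗᵢ[ℝ] E)} (hG : IsGrp V Cs)
    {f : ℂ × ℝ → E} (hf : Measurable f) (hb : ∀ x, ‖f x‖ ≤ 1)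
    (hI : IsEq p V Cs f) {C₀ : ℝ} (hC0 : 0 ≤ C₀)
    (hC : FV p f C₀) {i j : Fin (n + 3)} (hij : Irrational ((tau p i - tau p j) / π))
    (hc : ∀ v, Cs i (Cs j v) = Cs j (Cs i v)) :
    ∃ w : E, (∀ᵐ x : ℂ × ℝ, x.1 ∈ region p → f x = w) ∧ (∀ t, V t w = w) ∧ ∀ k, Cs k w = w := by
  have hB : S_Basic := Pool.Agent.W174.PG.basic
  have hH : S_Hull := Pool.Agent.W975.PG.hull hB
  have hRot : S_Rot := Pool.Agent.W363.BB.rot
  have hrr : region p = reg p := (hH n p hp).2
  have hop : IsOpen (reg p) := (hB n p hp).2.1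
  have hregm : MeasurableSet (region p) := by rw [hrr]; exact hop.measurableSet
  have hph : MeasurableSet (phase p) := hregm.prod measurableSet_Ico
  obtain ⟨z₀, hz0, h1, h2, h3⟩ := gen_all hp hG hf hb hI (sv_of_fv hC)
  obtain ⟨g, hg⟩ : ∃ g : ℝ → E, g = fun θ => f (z₀, θ) := ⟨_, rfl⟩
  have hgf : ∀ θ, f (z₀, θ) = g θ := fun θ => by rw [hg]
  have hgm : Measurable g := by
    rw [hg]
    exact hf.comp (measurable_const.prodMk measurable_id)
  have hgb : ∀ θ, ‖g θ‖ ≤ 1 := fun θ => by rw [hg]; exact hb _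
  have hgp : ∀ θ, g (θ + 2 * π) = g θ := fun θ => by rw [hg]; exact hI.periodic z₀ θ
  simp only [hgf] at h1 h2 h3
  obtain ⟨C', hC'⟩ := var_dir (g := g) hB hH hp
    (fun ε => ((hgm.comp (measurable_id.add_const ε)).sub hgm).norm) hgb
    (C := C₀) hC0 (fun ε hε hε1 => by
      have hfGs := (shift ε).quasiMeasurePreserving.ae h1
      refine le_trans (lintegral_mono_ae ?_) (hC ε hε hε1)
      filter_upwards [ae_restrict_mem hph, ae_restrict_of_ae h1, ae_restrict_of_ae hfGs]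
        with x a1 a2 a3
      have b1 := a2 a1.1
      have b2 : f (x.1, x.2 + ε) = g (x.2 + ε) := a3 a1.1
      unfold DD
      rw [b1, b2])
  have irr' : Irrational ((tau p j - tau p i) / π) := by
    have : (tau p j - tau p i) / π = -((tau p i - tau p j) / π) := by ring
    rw [this]
    exact hij.neg
  have f1 := fix_side hgm hgb hgp hC' hc hij (h3 i) (h3 j)
  have f2 := fix_side hgm hgb hgp hC' (fun v => (hc v).symm) irr' (h3 j) (h3 i)
  obtain ⟨w, hw⟩ := rot_const hRot hgm hgp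
    (a := tau p i) (b := tau p j)
    (by filter_upwards [h3 i, f1] with θ a1 a2; rw [a1, wt_fix a2])
    (by filter_upwards [h3 j, f2] with θ a1 a2; rw [a1, wt_fix a2]) hij
  have hws := (Measure.quasiMeasurePreserving_snd (μ := (volume : Measure ℂ))
      (ν := (volume : Measure ℝ))).ae hw
  refine ⟨w, ?_, fun t => ?_, all_sides hw h3⟩
  · filter_upwards [h1, hws] with x a1 a2 hx
    rw [a1 hx, a2]
  · obtain ⟨θ, a1, a2⟩ := (h2.and hw).exists
    have := a1 t
    rwa [a2] at this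

end Pool.Agent.Q183.BX
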