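import Pool.Agent.Q183.BX.Skew
import Pool.Agent.Q183.BX.Gen2

set_option autoImplicit false

/-!
Skew products over billiards in polygons with two sides which make an irrational angle.
-/

namespace Pool.Agent.Q183.BX

open Complex Set MeasureTheory Filter Topology Pool.Agent.W780.PG Pool.Agent.W780.BB

open scoped Real ENNReal

variable {n : ℕ} {Y : Type*} [MeasurableSpace Y] {ν : Measure Y} [IsProbabilityMeasure ν]
  {S : ℝ → Y → Y} {R : Fin (n + 3) → Y ≃ᵐ Y}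

theorem fv_of {p : Fin (n + 3) → ℂ} {F : (ℂ × ℝ) × Y → ℝ} (hV : FiniteVariation p ν F)
    {f : ℂ × ℝ → Lp ℝ 1 ν} (h : ∀ x x', ENNReal.ofReal ‖f x' - f x‖ ≤
      ∫⁻ y, ENNReal.ofReal |F (x', y) - F (x, y)| ∂ν) :
    ∃ C₀ : ℝ, 0 ≤ C₀ ∧ FV p f C₀ := by
  obtain ⟨C, hC⟩ := hV
  refine ⟨max C 0, le_max_right _ _, fun ε h0 h1 => ?_⟩
  calc ∫⁻ x in phase p, ENNReal.ofReal (DD f ε x)
      ≤ ∫⁻ x in phase p, ∫⁻ y, ENNReal.ofReal |F ((x.1, x.2 + ε), y) - F (x, y)| ∂ν :=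
        lintegral_mono fun x => h x (x.1, x.2 + ε)
    _ ≤ ENNReal.ofReal (C * ε) := hC ε h0 h1
    _ ≤ ENNReal.ofReal (max C 0 * ε) :=
        ENNReal.ofReal_le_ofReal (mul_le_mul_of_nonneg_right (le_max_left _ _) h0.le)

theorem CR_comm (hS : IsFibreMotion ν S R) {i j : Fin (n + 3)}
    (hc : ∀ y, R i (R j y) = R j (R i y)) (v : Lp ℝ 1 ν) :
    CR hS i (CR hS j v) = CR hS j (CR hS i v) := by
  have e : ∀ y, (R j).symm ((R i).symm y) = (R i).symm ((R j).symm y) := by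
    intro y
    apply (R i).injective
    apply (R j).injective
    rw [← hc, (R j).apply_symm_apply, (R i).apply_symm_apply, (R i).apply_symm_apply,
      (R j).apply_symm_apply]
  refine Lp.ext ?_
  filter_upwards [CR_coe hS i (CR hS j v), CR_coe hS j (CR hS i v),
    (hS.mpR' i).quasiMeasurePreserving.ae (CR_coe hS j v),
    (hS.mpR' j).quasiMeasurePreserving.ae (CR_coe hS i v)] with y a1 a2 a3 a4
  rw [a1, a2, a3, a4, e]

/-- the function on the fibre given by a fixed vector -/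
theorem of_const (hS : IsFibreMotion ν S R) {p : Fin (n + 3) → ℂ} (hp : IsConvexPolygon p)
    {F : (ℂ × ℝ) × Y → ℝ} (hF : Measurable F) {f : ℂ × ℝ → Lp ℝ 1 ν}
    (hfF : ∀ x, ∀ᵐ y ∂ν, F (x, y) = qs (f x y)) {w : Lp ℝ 1 ν}
    (hw : ∀ᵐ x : ℂ × ℝ, x.1 ∈ region p → f x = w) (hwV : ∀ t, VS hS t w = w)
    (hwC : ∀ k, CR hS k w = w) :
    ∃ G : Y → ℝ, Measurable G ∧ (∀ t, ∀ᵐ y ∂ν, G (S t y) = G y) ∧
      (∀ k, ∀ᵐ y ∂ν, G (R k y) = G y) ∧
      ∀ᵐ q : (ℂ × ℝ) × Y ∂((volume : Measure (ℂ × ℝ)).prod ν), q.1 ∈ phase p → F q = G q.2 := by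
  have hwm : Measurable fun y => qs (w y) := meas_qs.comp (Lp.stronglyMeasurable w).measurable
  refine ⟨fun y => qs (w y), hwm, fun t => ?_, fun k => ?_, ?_⟩
  · have h1 := VS_coe hS (-t) w
    rw [hwV, neg_neg] at h1
    filter_upwards [h1] with y hy
    rw [hy]
  · have h1 := CR_coe hS k w
    rw [hwC] at h1
    filter_upwards [(hS.mpR k).quasiMeasurePreserving.ae h1] with y hy
    rw [(R k).symm_apply_apply] at hy
    rw [hy]
  · have hset : MeasurableSet {q : (ℂ × ℝ) × Y | q.1 ∈ phase p → F q = qs (w q.2)} := by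
      have h1 : {q : (ℂ × ℝ) × Y | q.1 ∈ phase p → F q = qs (w q.2)} =
          {q : (ℂ × ℝ) × Y | q.1 ∈ phase p}ᶜ ∪ {q | F q = qs (w q.2)} := by
        ext q
        simp only [mem_setOf_eq, mem_union, mem_compl_iff]
        tauto
      rw [h1]
      exact (measurable_fst (meas_phase hp)).compl.union
        (measurableSet_eq_fun hF (hwm.comp measurable_snd))
    rw [Measure.ae_prod_iff_ae_ae hset]
    filter_upwards [hw] with x hx
    filter_upwards [hfF x] with y hy hxp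
    rw [hy, hx hxp.1]

theorem const_skew [IsSeparable ν] (hS : IsFibreMotion ν S R) {p : Fin (n + 3) → ℂ}
    (hp : IsConvexPolygon p) {i j : Fin (n + 3)} (hi : Irrational ((tau p i - tau p j) / π))
    (hc : ∀ y, R i (R j y) = R j (R i y))
    {F : (ℂ × ℝ) × Y → ℝ} (hF : Measurable F) (hI : IsSkewInvariant p ν S R F)
    (hV : FiniteVariation p ν F) :
    ∃ G : Y → ℝ, Measurable G ∧ (∀ t, ∀ᵐ y ∂ν, G (S t y) = G y) ∧
      (∀ k, ∀ᵐ y ∂ν, G (R k y) = G y) ∧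
      ∀ᵐ q : (ℂ × ℝ) × Y ∂((volume : Measure (ℂ × ℝ)).prod ν), q.1 ∈ phase p → F q = G q.2 := by
  obtain ⟨f, hfm, hfb, hfI, hfF, hfV⟩ := toE hS hF hI
  obtain ⟨C₀, hC0, hC⟩ := fv_of hV hfV
  have hc' := CR_comm hS hc
  obtain ⟨w, hw, hwV, hwC⟩ := const_gen hp (isGrp hS) hfm hfb hfI hC0 hC hi hc'
  exact of_const hS hp hF hfF hw hwV hwC

theorem skew_main [IsSeparable ν] (hS : IsFibreMotion ν S R) {p : Fin (n + 3) → ℂ}
    (hp : IsConvexPolygon p) {i j : Fin (n + 3)} (hi : Irrational ((tau p i - tau p j) / π))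
    (hc : ∀ y, R i (R j y) = R j (R i y)) :
    (∀ F : (ℂ × ℝ) × Y → ℝ, Measurable F → IsSkewInvariant p ν S R F → FiniteVariation p ν F →
      ∃ c : ℝ, ∀ᵐ q : (ℂ × ℝ) × Y ∂((volume : Measure (ℂ × ℝ)).prod ν), q.1 ∈ phase p → F q = c) ↔
    ∀ G : Y → ℝ, Measurable G → (∀ t, ∀ᵐ y ∂ν, G (S t y) = G y) →
      (∀ k, ∀ᵐ y ∂ν, G (R k y) = G y) → ∃ c : ℝ, ∀ᵐ y ∂ν, G y = c := by
  constructor
  · intro h G hG hGS hGR
    obtain ⟨c, hc⟩ := h (fun q => G q.2) (hG.comp measurable_snd)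
      ⟨fun z θ => Eventually.of_forall fun y => rfl, fun z θ s _ _ => hGS s,
        fun k w _ θ s r _ _ _ _ => by
          filter_upwards [hGS s, (hS.mp s).quasiMeasurePreserving.ae (hGR k),
            ((hS.mpR k).comp (hS.mp s)).quasiMeasurePreserving.ae (hGS r)] with y a1 a2 a3
          simp only [Function.comp_apply] at a3
          rw [a3, a2, a1]⟩
      ⟨0, fun ε _ _ => by
        simp only [sub_self, abs_zero, ENNReal.ofReal_zero, lintegral_zero, le_refl, zero_le]⟩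
    have h1 : ∀ᵐ x : ℂ × ℝ, ∀ᵐ y ∂ν, x ∈ phase p → G y = c := Measure.ae_ae_of_ae_prod hc
    have h2 : ∀ᵐ x : ℂ × ℝ, x ∈ phase p → ∀ᵐ y ∂ν, G y = c := by
      filter_upwards [h1] with x hx hxp
      filter_upwards [hx] with y hy
      exact hy hxp
    obtain ⟨x, -, hx⟩ := phase_pos hp h2
    exact ⟨c, hx⟩
  · intro h F hF hI hV
    obtain ⟨G, hG, hGS, hGR, hFG⟩ := const_skew hS hp hi hc hF hI hV
    obtain ⟨c, hc⟩ := h G hG hGS hGR
    refine ⟨c, ?_⟩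
    have h1 := (Measure.quasiMeasurePreserving_snd (μ := (volume : Measure (ℂ × ℝ)))
      (ν := ν)).ae hc
    filter_upwards [hFG, h1] with q a1 a2 a3
    rw [a1 a3, a2]

end Pool.Agent.Q183.BX
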