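import Pool.Agent.Q183.BX.Koop

set_option autoImplicit false

/-!
The values of the function of the direction are fixed by the flow.
-/

namespace Pool.Agent.Q183.BX

open Complex Set MeasureTheory Filter Topology Pool.Agent.W780.PG Pool.Agent.W780.BB
open Pool.Agent.W174.PG Pool.Agent.W82.BB
open Pool.Agent.W803.BBD (xc)
open Pool.Agent.TH578.BE (xc_per xc_sub' xc_polar xc_side side_ne)

open scoped Real ComplexConjugate

variable {n : ℕ} {E : Type*} [NormedAddCommGroup E] [NormedSpace ℝ E]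

section

variable {V : ℝ → (E ≃ₗᵢ[ℝ] E)} {Cs : Fin (n + 3) → (E ≃ₗᵢ[ℝ] E)}

theorem pow_comm (W : E ≃ₗᵢ[ℝ] E) (hW : ∀ s v, V s (W v) = W (V s v)) (j : ℕ) (s : ℝ) (v : E) :
    V s ((W ^ j) v) = (W ^ j) (V s v) := by
  induction j generalizing v with
  | zero => rw [pow_zero]; rfl
  | succ j ih =>
      rw [pow_succ]
      show V s ((W ^ j) (W v)) = (W ^ j) (W (V s v))
      rw [ih, hW]

theorem pow_fix (hG : IsGrp V Cs) (W : E ≃ₗᵢ[ℝ] E) (hW : ∀ s v, V s (W v) = W (V s v)) {a : ℝ}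
    {u : E} (h : V a (W u) = u) (j : ℕ) : V (j * a) ((W ^ j) u) = u := by
  induction j with
  | zero =>
      rw [pow_zero, Nat.cast_zero, zero_mul, hG.zero]
      rfl
  | succ j ih =>
      rw [pow_succ]
      show V (((j + 1 : ℕ) : ℝ) * a) ((W ^ j) (W u)) = u
      have e : (((j + 1 : ℕ) : ℝ) * a) = j * a + a := by push_cast; ring
      rw [e, hG.add, pow_comm W hW, h, ih]

theorem near (hG : IsGrp V Cs) (W : E ≃ₗᵢ[ℝ] E) (hW : ∀ s v, V s (W v) = W (V s v)) {a b : ℝ}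
    {u v x : E} {ε : ℝ} (ha : V a (W u) = u) (hb : V b (W v) = v) (hu : ‖u - x‖ ≤ ε)
    (hv : ‖v - x‖ ≤ ε) (j : ℕ) : ‖V (j * (a - b)) x - x‖ ≤ 4 * ε := by
  have key : ∀ (c : ℝ) (w : E), V c (W w) = w → ‖w - x‖ ≤ ε →
      ‖V (j * c) ((W ^ j) x) - x‖ ≤ 2 * ε := by
    intro c w hc hw
    have h1 := pow_fix hG W hW hc j
    have h2 : ‖V (j * c) ((W ^ j) (w - x))‖ ≤ ε := by
      rw [(V _).norm_map, (W ^ j).norm_map]
      exact hw
    rw [map_sub, map_sub, h1] at h2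
    calc ‖V (j * c) ((W ^ j) x) - x‖ = ‖(w - x) - (w - V (j * c) ((W ^ j) x))‖ := by
          congr 1
          abel
      _ ≤ ‖w - x‖ + ‖w - V (j * c) ((W ^ j) x)‖ := norm_sub_le _ _
      _ ≤ 2 * ε := by linarith
  have h3 := key a u ha hu
  have h4 := key b v hb hv
  have h5 : ‖V (j * a) ((W ^ j) x) - V (j * b) ((W ^ j) x)‖ ≤ 4 * ε := by
    calc ‖V (j * a) ((W ^ j) x) - V (j * b) ((W ^ j) x)‖
        = ‖(V (j * a) ((W ^ j) x) - x) - (V (j * b) ((W ^ j) x) - x)‖ := by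
          congr 1
          abel
      _ ≤ _ := norm_sub_le _ _
      _ ≤ 4 * ε := by linarith
  have h6 : V (j * a) ((W ^ j) x) = V (j * b) ((W ^ j) (V (j * (a - b)) x)) := by
    rw [← pow_comm W hW, ← hG.add]
    congr 2
    ring
  rw [h6, ← map_sub, ← map_sub, (V _).norm_map, (W ^ j).norm_map] at h5
  exact h5

theorem near_int (hG : IsGrp V Cs) (W : E ≃ₗᵢ[ℝ] E) (hW : ∀ s v, V s (W v) = W (V s v)) {a b : ℝ}
    {u v x : E} {ε : ℝ} (ha : V a (W u) = u) (hb : V b (W v) = v) (hu : ‖u - x‖ ≤ ε)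
    (hv : ‖v - x‖ ≤ ε) (j : ℤ) : ‖V (j * (a - b)) x - x‖ ≤ 4 * ε := by
  obtain ⟨m, rfl | rfl⟩ := j.eq_nat_or_neg
  · exact_mod_cast near hG W hW ha hb hu hv m
  · have h1 := near hG W hW hb ha hv hu m
    have e : (((-(m : ℤ) : ℤ) : ℝ)) * (a - b) = m * (b - a) := by push_cast; ring
    rw [e]
    exact h1

theorem dense_near (hG : IsGrp V Cs) {x : E} {ε s t : ℝ} (hst : Irrational (s / t))
    (hs : ∀ j : ℤ, ‖V (j * s) x - x‖ ≤ ε) (ht : ∀ j : ℤ, ‖V (j * t) x - x‖ ≤ ε) (r : ℝ) :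
    ‖V r x - x‖ ≤ 2 * ε := by
  have hd := dense_addSubgroupClosure_pair_iff.2 hst
  have hcl : IsClosed {r : ℝ | ‖V r x - x‖ ≤ 2 * ε} :=
    isClosed_le (((hG.cont x).sub continuous_const).norm) continuous_const
  have hsub : ((AddSubgroup.closure {s, t} : AddSubgroup ℝ) : Set ℝ) ⊆
      {r : ℝ | ‖V r x - x‖ ≤ 2 * ε} := by
    intro r hr
    obtain ⟨j, k, rfl⟩ := AddSubgroup.mem_closure_pair.1 hr
    show ‖V (j • s + k • t) x - x‖ ≤ 2 * ε
    rw [zsmul_eq_mul, zsmul_eq_mul, hG.add]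
    have h1 : ‖V (j * s) (V (k * t) x - x)‖ ≤ ε := by
      rw [(V _).norm_map]
      exact ht k
    rw [map_sub] at h1
    calc ‖V (j * s) (V (k * t) x) - x‖
        = ‖(V (j * s) (V (k * t) x) - V (j * s) x) + (V (j * s) x - x)‖ := by
          congr 1
          abel
      _ ≤ _ := norm_add_le _ _
      _ ≤ 2 * ε := by linarith [hs j]
  have := hd.closure_eq ▸ (hcl.closure_subset_iff.2 hsub)
  exact this (mem_univ r)

/-- an isometry which commutes with a flow fixes, after a motion of the flow, a vector that is not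
fixed by the flow only for countably many times -/
theorem bad_countable [SecondCountableTopology E] (hG : IsGrp V Cs) (W : E ≃ₗᵢ[ℝ] E)
    (hW : ∀ s v, V s (W v) = W (V s v)) :
    {a : ℝ | ∃ u : E, V a (W u) = u ∧ ∃ t, V t u ≠ u}.Countable := by
  -- the pieces
  let e : ℕ → E := TopologicalSpace.denseSeq E
  let P : ℚ → ℕ → ℕ → Set ℝ := fun q m k =>
    {a : ℝ | ∃ u : E, V a (W u) = u ∧ 1 / ((m : ℝ) + 1) < ‖V q u - u‖ ∧
      ‖u - e k‖ ≤ 1 / (10 * ((m : ℝ) + 1))}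
  have hcover : {a : ℝ | ∃ u : E, V a (W u) = u ∧ ∃ t, V t u ≠ u} ⊆
      ⋃ q : ℚ, ⋃ m : ℕ, ⋃ k : ℕ, P q m k := by
    rintro a ⟨u, hu, t, ht⟩
    have hq : ∃ q : ℚ, V (q : ℝ) u ≠ u := by
      by_contra hcon
      push Not at hcon
      apply ht
      have hcl : IsClosed {t : ℝ | V t u = u} := isClosed_eq (hG.cont u) continuous_const
      have hd : Dense (range ((↑) : ℚ → ℝ)) := Rat.denseRange_cast
      have hsub : range ((↑) : ℚ → ℝ) ⊆ {t : ℝ | V t u = u} := by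
        rintro _ ⟨q, rfl⟩
        exact hcon q
      have := hd.closure_eq ▸ (hcl.closure_subset_iff.2 hsub)
      exact this (mem_univ t)
    obtain ⟨q, hq⟩ := hq
    have hpos : 0 < ‖V (q : ℝ) u - u‖ := norm_pos_iff.2 (sub_ne_zero.2 hq)
    obtain ⟨m, hm⟩ := exists_nat_one_div_lt hpos
    have hε : (0 : ℝ) < 1 / (10 * ((m : ℝ) + 1)) := by positivity
    obtain ⟨k, hk⟩ := (TopologicalSpace.denseRange_denseSeq E).exists_dist_lt u hε
    rw [dist_eq_norm] at hk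
    simp only [mem_iUnion]
    exact ⟨q, m, k, u, hu, hm, hk.le⟩
  refine Countable.mono hcover (countable_iUnion fun q => countable_iUnion fun m =>
    countable_iUnion fun k => ?_)
  -- one piece
  rcases (P q m k).subsingleton_or_nontrivial with hsub | ⟨a, ha, b, hb, hab⟩
  · exact hsub.countable
  · have hs0 : a - b ≠ 0 := sub_ne_zero.2 hab
    refine (countable_range fun r : ℚ => a - (a - b) * r).mono fun c hc => ?_
    by_contra hcon
    have hc0 : a - c ≠ 0 := by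
      intro h0
      apply hcon
      refine ⟨0, ?_⟩
      simp only [Rat.cast_zero, mul_zero, sub_zero]
      linarith
    have hirr : Irrational ((a - c) / (a - b)) := by
      rintro ⟨r, hr⟩
      apply hcon
      refine ⟨r, ?_⟩
      simp only [hr]
      field_simp
      ring
    obtain ⟨ua, ha1, ha2, ha3⟩ := ha
    obtain ⟨ub, hb1, -, hb3⟩ := hb
    obtain ⟨uc, hc1, -, hc3⟩ := hc
    have h1 := fun j => near_int hG W hW ha1 hc1 ha3 hc3 j
    have h2 := fun j => near_int hG W hW ha1 hb1 ha3 hb3 j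
    have h3 := dense_near hG hirr h1 h2 (q : ℝ)
    have h4 : ‖V (q : ℝ) (ua - e k)‖ ≤ 1 / (10 * ((m : ℝ) + 1)) := by
      rw [(V _).norm_map]
      exact ha3
    rw [map_sub] at h4
    have h5 : ‖V (q : ℝ) ua - ua‖ ≤ 10 * (1 / (10 * ((m : ℝ) + 1))) := by
      calc ‖V (q : ℝ) ua - ua‖
          = ‖(V (q : ℝ) ua - V (q : ℝ) (e k)) + ((V (q : ℝ) (e k) - e k) - (ua - e k))‖ := by
            congr 1
            abel
        _ ≤ ‖V (q : ℝ) ua - V (q : ℝ) (e k)‖ + ‖(V (q : ℝ) (e k) - e k) - (ua - e k)‖ :=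
            norm_add_le _ _
        _ ≤ ‖V (q : ℝ) ua - V (q : ℝ) (e k)‖ + (‖V (q : ℝ) (e k) - e k‖ + ‖ua - e k‖) := by
            gcongr
            exact norm_sub_le _ _
        _ ≤ 10 * (1 / (10 * ((m : ℝ) + 1))) := by linarith
    have h6 : 10 * (1 / (10 * ((m : ℝ) + 1))) = 1 / ((m : ℝ) + 1) := by
      field_simp
    rw [h6] at h5
    exact absurd ha2 (not_lt.2 h5)

/-- the two values of the weight -/
noncomputable def wb (Cs : Fin (n + 3) → (E ≃ₗᵢ[ℝ] E)) (i : Fin (n + 3)) (b : Bool) :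
    E ≃ₗᵢ[ℝ] E := if b then Cs i else (Cs i)⁻¹

theorem wt_wb (p : Fin (n + 3) → ℂ) (Cs : Fin (n + 3) → (E ≃ₗᵢ[ℝ] E)) (i : Fin (n + 3)) (θ : ℝ) :
    ∃ b, wt p Cs i θ = wb Cs i b := by
  unfold wt wb
  split_ifs
  · exact ⟨true, rfl⟩
  · exact ⟨false, rfl⟩

theorem wb_comm (hG : IsGrp V Cs) (i : Fin (n + 3)) (b : Bool) (s : ℝ) (v : E) :
    V s (wb Cs i b v) = wb Cs i b (V s v) := by
  unfold wb
  split_ifs
  · exact hG.comm _ _ _
  · exact hG.comm' _ _ _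

theorem rot_wt {p : Fin (n + 3) → ℂ} {G : ℝ → E} {i j : Fin (n + 3)} {a b : ℝ}
    (r1 : ∀ᵐ θ : ℝ, G (2 * a - θ) = wt p Cs i θ (G θ))
    (r2 : ∀ᵐ θ : ℝ, G (2 * b - θ) = wt p Cs j θ (G θ)) :
    ∀ᵐ θ : ℝ, ∃ c d : Bool, G (θ + 2 * (a - b)) = wb Cs i c (wb Cs j d (G θ)) := by
  have q1 := (Measure.measurePreserving_sub_left (volume : Measure ℝ)
    (2 * b)).quasiMeasurePreserving.ae r1
  filter_upwards [q1, r2] with θ h1 h2
  obtain ⟨c, hc⟩ := wt_wb p Cs i (2 * b - θ)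
  obtain ⟨d, hd⟩ := wt_wb p Cs j θ
  refine ⟨c, d, ?_⟩
  rw [← hc, ← hd, ← h2, ← h1]
  congr 1
  ring

/-- the values of the function of the direction are fixed by the flow -/
theorem fixed_dir [SecondCountableTopology E] (hB : S_Basic) {p : Fin (n + 3) → ℂ}
    (hp : IsConvexPolygon p) (hG : IsGrp V Cs) {g : ℝ → E}
    (hrefl : ∀ i, ∀ᵐ θ : ℝ, g (2 * tau p i - θ) =
      V (xc θ (p i) - xc (2 * tau p i - θ) (p i)) (wt p Cs i θ (g θ))) :
    ∀ᵐ θ : ℝ, ∀ t, V t (g θ) = g θ := by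
  -- three consecutive sides
  obtain ⟨i, hi⟩ : ∃ i : Fin (n + 3), i = 1 := ⟨_, rfl⟩
  obtain ⟨j, hj⟩ : ∃ j : Fin (n + 3), j = i - 1 := ⟨_, rfl⟩
  obtain ⟨k, hk⟩ : ∃ k : Fin (n + 3), k = i + 1 := ⟨_, rfl⟩
  have hji : j + 1 = i := by rw [hj, sub_add_cancel]
  obtain ⟨u, hu⟩ : ∃ u : ℂ, u = p k - p i := ⟨_, rfl⟩
  have hu0 : u ≠ 0 := by
    rw [hu, hk]
    exact sub_ne_zero.2 (side_ne hB hp i)
  have r1 : ∀ᵐ θ : ℝ, Gv V g (p i) (2 * tau p i - θ) = wt p Cs i θ (Gv V g (p i) θ) :=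
    Gv_refl hG (hrefl i) fun θ => rfl
  have r2 : ∀ᵐ θ : ℝ, Gv V g (p i) (2 * tau p j - θ) = wt p Cs j θ (Gv V g (p i) θ) := by
    refine Gv_refl hG (hrefl j) fun θ => ?_
    have h1 := xc_side p j θ
    rw [hji, xc_sub', xc_sub'] at h1
    linarith
  have r3 : ∀ᵐ θ : ℝ, Gv V g (p k) (2 * tau p k - θ) = wt p Cs k θ (Gv V g (p k) θ) :=
    Gv_refl hG (hrefl k) fun θ => rfl
  have r4 : ∀ᵐ θ : ℝ, Gv V g (p k) (2 * tau p i - θ) = wt p Cs i θ (Gv V g (p k) θ) := by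
    refine Gv_refl hG (hrefl i) fun θ => ?_
    have h1 := xc_side p i θ
    rw [← hk, xc_sub', xc_sub'] at h1
    linarith
  obtain ⟨G, hGd⟩ : ∃ G : ℝ → E, G = Gv V g (p i) := ⟨_, rfl⟩
  have hGk : ∀ θ, Gv V g (p k) θ = V (xc θ u) (G θ) := by
    intro θ
    have : p k = p i + u := by rw [hu]; ring
    rw [this, Gv_add hG, hGd]
  rw [← hGd] at r1 r2
  obtain ⟨α, hα⟩ : ∃ α : ℝ, α = 2 * (tau p i - tau p j) := ⟨_, rfl⟩
  obtain ⟨β, hβ⟩ : ∃ β : ℝ, β = 2 * (tau p k - tau p i) := ⟨_, rfl⟩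
  have s1 := rot_wt r1 r2
  have s2 := rot_wt r3 r4
  rw [← hα] at s1
  rw [← hβ] at s2
  -- the bad directions
  obtain ⟨κ, hκ⟩ : ∃ κ : ℝ → ℝ, κ = fun θ => xc θ u - xc (θ + β) u - xc (θ + α) u +
      xc (θ + α + β) u := ⟨_, rfl⟩
  obtain ⟨c, hc⟩ : ∃ c : ℝ, c = -4 * ‖u‖ * Real.sin (α / 2) * Real.sin (β / 2) := ⟨_, rfl⟩
  have hκc : ∀ θ, κ θ = c * Real.cos (θ - (arg u - (α + β) / 2)) := by
    intro θ
    rw [hκ, hc]
    simp only
    rw [xc_polar, xc_polar, xc_polar, xc_polar]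
    have e1 : θ - arg u = (θ - (arg u - (α + β) / 2)) - (α / 2 + β / 2) := by ring
    have e2 : θ + β - arg u = (θ - (arg u - (α + β) / 2)) - (α / 2 - β / 2) := by ring
    have e3 : θ + α - arg u = (θ - (arg u - (α + β) / 2)) + (α / 2 - β / 2) := by ring
    have e4 : θ + α + β - arg u = (θ - (arg u - (α + β) / 2)) + (α / 2 + β / 2) := by ring
    rw [e1, e2, e3, e4]
    simp only [Real.cos_add, Real.cos_sub, Real.sin_add, Real.sin_sub]
    ring
  have hc0 : c ≠ 0 := by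
    rw [hc]
    have h1 : Real.sin (α / 2) ≠ 0 := by
      have h := Pool.Agent.TH578.BE.sin_tau_ne hp j
      rw [hji] at h
      intro h0
      apply h
      have : tau p j - tau p i = -(α / 2) := by rw [hα]; ring
      rw [this, Real.sin_neg, h0, neg_zero]
    have h2 : Real.sin (β / 2) ≠ 0 := by
      have h := Pool.Agent.TH578.BE.sin_tau_ne hp i
      rw [← hk] at h
      intro h0
      apply h
      have : tau p i - tau p k = -(β / 2) := by rw [hβ]; ring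
      rw [this, Real.sin_neg, h0, neg_zero]
    exact mul_ne_zero (mul_ne_zero (mul_ne_zero (by norm_num) (norm_ne_zero_iff.2 hu0)) h1) h2
  obtain ⟨W, hW⟩ : ∃ W : (Fin 8 → Bool) → (E ≃ₗᵢ[ℝ] E), W = fun b =>
      (wb Cs k (b 4) * wb Cs i (b 5) * wb Cs i (b 6) * wb Cs j (b 7))⁻¹ *
      (wb Cs i (b 0) * wb Cs j (b 1) * wb Cs k (b 2) * wb Cs i (b 3)) := ⟨_, rfl⟩
  have hWc : ∀ b s v, V s (W b v) = W b (V s v) := by
    intro b s v
    have h1 : ∀ v, V s ((wb Cs k (b 4) * wb Cs i (b 5) * wb Cs i (b 6) * wb Cs j (b 7)) v) =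
        (wb Cs k (b 4) * wb Cs i (b 5) * wb Cs i (b 6) * wb Cs j (b 7)) (V s v) := by
      intro v
      simp only [mul_ap, wb_comm hG]
    have h2 : ∀ v, V s ((wb Cs k (b 4) * wb Cs i (b 5) * wb Cs i (b 6) * wb Cs j (b 7))⁻¹ v) =
        (wb Cs k (b 4) * wb Cs i (b 5) * wb Cs i (b 6) * wb Cs j (b 7))⁻¹ (V s v) := by
      intro v
      obtain ⟨Q, hQ⟩ : ∃ Q : E ≃ₗᵢ[ℝ] E,
          Q = wb Cs k (b 4) * wb Cs i (b 5) * wb Cs i (b 6) * wb Cs j (b 7) := ⟨_, rfl⟩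
      rw [← hQ] at h1 ⊢
      have h3 : Q (Q⁻¹ v) = v := Q.apply_symm_apply v
      have h4 := h1 (Q⁻¹ v)
      rw [h3] at h4
      rw [h4]
      exact (Q.symm_apply_apply _).symm
    rw [hW]
    simp only
    rw [mul_ap, mul_ap, h2]
    simp only [mul_ap, wb_comm hG]
  have hbad : (⋃ b : Fin 8 → Bool, {a : ℝ | ∃ v : E, V a (W b v) = v ∧ ∃ t, V t v ≠ v}).Countable :=
    countable_iUnion fun b => bad_countable hG (W b) (hWc b)
  have h4 := countable_pre hbad (ρ := c) (κ := arg u - (α + β) / 2) hc0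
  have h5 := measure_eq_zero_iff_ae_notMem.1 (h4.measure_zero volume)
  -- the commutator
  have t1 := (measurePreserving_add_right (volume : Measure ℝ) β).quasiMeasurePreserving.ae s1
  have t2 := (measurePreserving_add_right (volume : Measure ℝ) α).quasiMeasurePreserving.ae s2
  filter_upwards [s1, s2, t1, t2, h5] with θ a1 a2 a3 a4 a5
  obtain ⟨b6, b7, a1⟩ := a1
  obtain ⟨b2, b3, a2⟩ := a2
  obtain ⟨b0, b1, a3⟩ := a3
  obtain ⟨b4, b5, a4⟩ := a4
  rw [hGk, hGk] at a2 a4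
  have hfix : ∀ t, V t (G θ) = G θ := by
    by_contra hcon
    push Not at hcon
    apply a5
    show c * Real.cos (θ - (arg u - (α + β) / 2)) ∈ _
    rw [← hκc, mem_iUnion]
    refine ⟨![b0, b1, b2, b3, b4, b5, b6, b7], G θ, ?_, hcon⟩
    have w1 : G (θ + β) = V (xc θ u - xc (θ + β) u) (wb Cs k b2 (wb Cs i b3 (G θ))) := by
      have h1 : V (-(xc (θ + β) u)) (V (xc (θ + β) u) (G (θ + β))) =
          V (-(xc (θ + β) u)) (wb Cs k b2 (wb Cs i b3 (V (xc θ u) (G θ)))) := by rw [a2]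
      rw [hG.neg] at h1
      rw [h1, ← wb_comm hG, ← wb_comm hG, ← hG.add]
      congr 2
      ring
    have w2 : G (θ + α + β) = V (xc (θ + α) u - xc (θ + α + β) u)
        (wb Cs k b4 (wb Cs i b5 (G (θ + α)))) := by
      have h1 : V (-(xc (θ + α + β) u)) (V (xc (θ + α + β) u) (G (θ + α + β))) =
          V (-(xc (θ + α + β) u)) (wb Cs k b4 (wb Cs i b5 (V (xc (θ + α) u) (G (θ + α))))) := by
        rw [a4]
      rw [hG.neg] at h1
      rw [h1, ← wb_comm hG, ← wb_comm hG, ← hG.add]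
      congr 2
      ring
    have w3 : G (θ + α + β) = wb Cs i b0 (wb Cs j b1 (G (θ + β))) := by
      rw [← a3]
      congr 1
      ring
    rw [w1] at w3
    rw [a1] at w2
    rw [w3] at w2
    -- `w2` compares the two paths
    have hQ : (wb Cs k b4 * wb Cs i b5 * wb Cs i b6 * wb Cs j b7) (G θ) =
        V (κ θ) ((wb Cs i b0 * wb Cs j b1 * wb Cs k b2 * wb Cs i b3) (G θ)) := by
      have h1 : V (-(xc (θ + α) u - xc (θ + α + β) u))
          (wb Cs i b0 (wb Cs j b1 (V (xc θ u - xc (θ + β) u) (wb Cs k b2 (wb Cs i b3 (G θ)))))) =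
          wb Cs k b4 (wb Cs i b5 (wb Cs i b6 (wb Cs j b7 (G θ)))) := by
        rw [w2, hG.neg]
      simp only [mul_ap]
      rw [← h1, ← wb_comm hG j, ← wb_comm hG i, ← hG.add]
      congr 2
      rw [hκ]
      simp only
      ring
    rw [hW]
    simp only [Matrix.cons_val]
    obtain ⟨Q, hQd⟩ : ∃ Q : E ≃ₗᵢ[ℝ] E,
        Q = wb Cs k b4 * wb Cs i b5 * wb Cs i b6 * wb Cs j b7 := ⟨_, rfl⟩
    have hQc : ∀ v, V (κ θ) (Q v) = Q (V (κ θ) v) := by
      intro v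
      rw [hQd]
      simp only [mul_ap, wb_comm hG]
    have hQi : ∀ v, V (κ θ) (Q⁻¹ v) = Q⁻¹ (V (κ θ) v) := by
      intro v
      have h3 : Q (Q⁻¹ v) = v := Q.apply_symm_apply v
      have h4 := hQc (Q⁻¹ v)
      rw [h3] at h4
      rw [h4]
      exact (Q.symm_apply_apply _).symm
    rw [← hQd] at hQ ⊢
    rw [mul_ap, hQi, ← hQ]
    exact Q.symm_apply_apply _
  intro t
  have h6 : g θ = V (-(xc θ (p i))) (G θ) := by
    rw [hGd]
    unfold Gv
    rw [hG.neg]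
  rw [h6, hG.vcomm, hfix]

end

end Pool.Agent.Q183.BX
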