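import Pool.Agent.Q183.BX.LimLog
import Pool.Agent.Q183.BX.Fix

set_option autoImplicit false

/-!
Equivariant functions of slow directional variation depend only on the direction, their values are
fixed by the flow.
-/

namespace Pool.Agent.Q183.BX

open Complex Set MeasureTheory Filter Topology Pool.Agent.W780.PG Pool.Agent.W780.BB
open Pool.Agent.W174.PG Pool.Agent.W82.BB
open Pool.Agent.W803.BBD (xc)
open Pool.Agent.TH578.BE (GG xc_per)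

open scoped Real ComplexConjugate

variable {n : ℕ} {E : Type*} [NormedAddCommGroup E] [NormedSpace ℝ E] [MeasurableSpace E]
  [BorelSpace E] [SecondCountableTopology E] [CompleteSpace E]

/-- the directional modulus is small compared with `h log (1 / h)` along a sequence -/
def SV (p : Fin (n + 3) → ℂ) (f : ℂ × ℝ → E) : Prop :=
  ∀ ε : ℝ, 0 < ε → ∃ᶠ h in 𝓝[>] (0 : ℝ), Dm p f h ≤ ENNReal.ofReal (ε * (h * Real.log (1 / h)))

theorem core_slow {p : Fin (n + 3) → ℂ} (hp : IsConvexPolygon p)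
    {V : ℝ → (E ≃ₗᵢ[ℝ] E)} {Cs : Fin (n + 3) → (E ≃ₗᵢ[ℝ] E)} (hG : IsGrp V Cs)
    {Λ : ℝ} (hΛ0 : 0 ≤ Λ) {f : ℂ × ℝ → E} (hf : Measurable f) (hb : ∀ x, ‖f x‖ ≤ 1)
    (hI : IsEq p V Cs f) (hΛ : ∀ x s, ‖V s (f x) - f x‖ ≤ Λ * |s|) (hSl : SV p f) :
    ∃ g : ℝ → E, Measurable g ∧ (∀ θ, g (θ + 2 * π) = g θ) ∧ (∀ θ, ‖g θ‖ ≤ 1) ∧
      (∀ᵐ x : ℂ × ℝ, x.1 ∈ region p → f x = V (xc x.2 x.1) (g x.2)) ∧
      ∀ i, ∀ᵐ θ : ℝ, g (2 * tau p i - θ) =
        V (xc θ (p i) - xc (2 * tau p i - θ) (p i)) (wt p Cs i θ (g θ)) := by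
  have hB : S_Basic := Pool.Agent.W174.PG.basic
  have hH : S_Hull := Pool.Agent.W975.PG.hull hB
  have hR : S_Ref := Pool.Agent.W347.BB.ref
  have hM : S_Mp := Pool.Agent.W333.BB.mp
  have hO : S_Open := Pool.Agent.W762.BB.open_it
  have hU : S_Uniq := Pool.Agent.W108.BB.uniq
  have hVr : S_Rev := W973.BB.rev hR
  have hUnif : S_Unif := Pool.Agent.W12.BB.Unif.unif W327.BB.alt (Pool.Agent.W340.BB.Trip.trip hR hB)
  have hFan : S_Fan := Pool.Agent.W12.BB.Fan.fan hR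
  have hGen : S_Gen := Pool.Agent.W337.BB.gen_th
  have hFl : S_Flow := Pool.Agent.W462.BBF.flow hR hM hO hU hVr hH hB
  have hnull : ∀ η δ : ℝ, 0 < δ → δ < η →
      ∫⁻ x in GG p (2 * η), ENNReal.ofReal (TT f δ x) = 0 := fun η δ h1 h2 =>
    lim_log hH hB hR hO hU hM hFan Pool.Agent.W337.BB.exit_th hUnif hGen hFl hp hG hΛ0 hf hb hI
      hΛ hSl η δ h1 h2
  obtain ⟨g, hgm, hgp, hgb, hg⟩ := dir_f hB hH hp hG hf hb hI hnull
  have hgood := ae_good hH hp hG hI hgp hg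
  have hFp : ∀ z θ, FF V f (z, θ + 2 * π) = FF V f (z, θ) := by
    intro z θ
    unfold FF
    simp only
    rw [hI.periodic, xc_per]
  refine ⟨g, hgm, hgp, hgb, ?_, fun i => refl_f hB hH hp hG hI hgood i⟩
  filter_upwards [ae_all_dir hFp hgp hg] with x hx hxr
  rw [eq_FF hG f x, hx hxr]

theorem gen_lip {p : Fin (n + 3) → ℂ} (hp : IsConvexPolygon p)
    {V : ℝ → (E ≃ₗᵢ[ℝ] E)} {Cs : Fin (n + 3) → (E ≃ₗᵢ[ℝ] E)} (hG : IsGrp V Cs)
    {Λ : ℝ} (hΛ0 : 0 ≤ Λ) {f : ℂ × ℝ → E} (hf : Measurable f) (hb : ∀ x, ‖f x‖ ≤ 1)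
    (hI : IsEq p V Cs f) (hΛ : ∀ x s, ‖V s (f x) - f x‖ ≤ Λ * |s|) (hSl : SV p f) :
    ∃ g : ℝ → E, (∀ᵐ x : ℂ × ℝ, x.1 ∈ region p → f x = g x.2) ∧
      (∀ᵐ θ : ℝ, ∀ t, V t (g θ) = g θ) ∧
      ∀ i, ∀ᵐ θ : ℝ, g (2 * tau p i - θ) = wt p Cs i θ (g θ) := by
  have hB : S_Basic := Pool.Agent.W174.PG.basic
  obtain ⟨g, hgm, hgp, hgb, hfg, hrefl⟩ := core_slow hp hG hΛ0 hf hb hI hΛ hSl
  have hfix := fixed_dir hB hp hG hrefl
  have hsnd := (Measure.quasiMeasurePreserving_snd (μ := (volume : Measure ℂ))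
      (ν := (volume : Measure ℝ))).ae hfix
  refine ⟨g, ?_, hfix, fun i => ?_⟩
  · filter_upwards [hfg, hsnd] with x h1 h2 hx
    rw [h1 hx, h2]
  · filter_upwards [hrefl i, hfix] with θ h1 h2
    rw [h1, wt_comm hG, h2]

theorem Av_SV {V : ℝ → (E ≃ₗᵢ[ℝ] E)} {Cs : Fin (n + 3) → (E ≃ₗᵢ[ℝ] E)} (hG : IsGrp V Cs)
    {p : Fin (n + 3) → ℂ} {f : ℂ × ℝ → E} (hC : SV p f)
    {ε : ℝ} (hε : 0 < ε) : SV p (fun x => Av V ε (f x)) := by
  intro δ hδ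
  refine (hC δ hδ).mono fun h hh => ?_
  refine (lintegral_mono fun x => ENNReal.ofReal_le_ofReal ?_).trans hh
  unfold DD
  rw [← Av_sub hG]
  exact Av_norm V hε _

/-- the general form -/
theorem gen_all {p : Fin (n + 3) → ℂ} (hp : IsConvexPolygon p)
    {V : ℝ → (E ≃ₗᵢ[ℝ] E)} {Cs : Fin (n + 3) → (E ≃ₗᵢ[ℝ] E)} (hG : IsGrp V Cs)
    {f : ℂ × ℝ → E} (hf : Measurable f) (hb : ∀ x, ‖f x‖ ≤ 1)
    (hI : IsEq p V Cs f) (hSl : SV p f) :
    ∃ z₀ ∈ region p, (∀ᵐ x : ℂ × ℝ, x.1 ∈ region p → f x = f (z₀, x.2)) ∧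
      (∀ᵐ θ : ℝ, ∀ t, V t (f (z₀, θ)) = f (z₀, θ)) ∧
      ∀ i, ∀ᵐ θ : ℝ, f (z₀, 2 * tau p i - θ) = wt p Cs i θ (f (z₀, θ)) := by
  have hm : ∀ m : ℕ, (0 : ℝ) < 1 / ((m : ℝ) + 1) := fun m => by positivity
  have key : ∀ m : ℕ, ∃ g : ℝ → E, (∀ᵐ x : ℂ × ℝ, x.1 ∈ region p →
      Av V (1 / ((m : ℝ) + 1)) (f x) = g x.2) ∧
      (∀ᵐ θ : ℝ, ∀ t, V t (g θ) = g θ) ∧
      ∀ i, ∀ᵐ θ : ℝ, g (2 * tau p i - θ) = wt p Cs i θ (g θ) := by
    intro m
    refine gen_lip hp hG (Λ := 2 * (1 / ((m : ℝ) + 1))⁻¹) (by positivity)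
      ((Av_cont hG (hm m)).measurable.comp hf)
      (fun x => (Av_norm V (hm m) _).trans (hb x)) (Av_eq hG hI _) (fun x s => ?_)
      (Av_SV hG hSl (hm m))
    refine (Av_lip hG (hm m) s (f x)).trans ?_
    refine mul_le_mul_of_nonneg_right ?_ (abs_nonneg s)
    have := mul_le_mul_of_nonneg_left (hb x)
      (show (0 : ℝ) ≤ 2 * (1 / ((m : ℝ) + 1))⁻¹ by positivity)
    rwa [mul_one] at this
  choose g hg hgV hgC using key
  have hall : ∀ᵐ x : ℂ × ℝ, x.1 ∈ region p → ∀ m : ℕ, Av V (1 / ((m : ℝ) + 1)) (f x) = g m x.2 := by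
    have := ae_all_iff.2 hg
    filter_upwards [this] with x hx hxr m
    exact hx m hxr
  have hB : S_Basic := Pool.Agent.W174.PG.basic
  have hH : S_Hull := Pool.Agent.W975.PG.hull hB
  have hrr : region p = reg p := (hH n p hp).2
  obtain ⟨_, hop, _, _, _, hne, _⟩ := hB n p hp
  rw [← hrr] at hop hne
  -- a point
  have hfub : ∀ᵐ z : ℂ, ∀ᵐ θ : ℝ, z ∈ region p →
      ∀ m : ℕ, Av V (1 / ((m : ℝ) + 1)) (f (z, θ)) = g m θ := Measure.ae_ae_of_ae_prod hall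
  obtain ⟨z₀, hz0, hz1⟩ : ∃ z₀ ∈ region p, ∀ᵐ θ : ℝ,
      ∀ m : ℕ, Av V (1 / ((m : ℝ) + 1)) (f (z₀, θ)) = g m θ := by
    by_contra hcon
    push Not at hcon
    have h1 : ∀ᵐ z : ℂ, z ∉ region p := by
      filter_upwards [hfub] with z hz hmem
      refine hcon z hmem ?_
      filter_upwards [hz] with θ hθ
      have h2 := hθ hmem
      push Not
      exact h2
    have h2 : volume (region p) = 0 := by
      have := ae_iff.1 h1
      simpa only [not_not, setOf_mem_eq] using this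
    exact (hop.measure_pos volume hne).ne' h2
  have hlim : ∀ᵐ θ : ℝ, Tendsto (fun m => g m θ) atTop (𝓝 (f (z₀, θ))) := by
    filter_upwards [hz1] with θ hθ
    exact (Av_tendsto hG (f (z₀, θ))).congr hθ
  have hlims := (Measure.quasiMeasurePreserving_snd (μ := (volume : Measure ℂ))
      (ν := (volume : Measure ℝ))).ae hlim
  refine ⟨z₀, hz0, ?_, ?_, fun i => ?_⟩
  · filter_upwards [hall, hlims] with x h1 h2 hx
    refine tendsto_nhds_unique (Av_tendsto hG (f x)) ?_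
    exact h2.congr fun m => (h1 hx m).symm
  · filter_upwards [hlim, ae_all_iff.2 hgV] with θ h1 h2 t
    refine tendsto_nhds_unique (((V t).continuous.tendsto _).comp h1) ?_
    exact h1.congr fun m => (h2 m t).symm
  · have q1 := (Measure.measurePreserving_sub_left (volume : Measure ℝ)
      (2 * tau p i)).quasiMeasurePreserving.ae hlim
    filter_upwards [hlim, q1, ae_all_iff.2 fun m => hgC m i] with θ h1 h2 h3
    refine tendsto_nhds_unique h2 ?_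
    exact (((wt p Cs i θ).continuous.tendsto _).comp h1).congr fun m => (h3 m).symm

end Pool.Agent.Q183.BX
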