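import Pool.Agent.Q183.BX.FinA
import Pool.Agent.Q183.BX.Gen
import Pool.Agent.TH578.BE.RotT

set_option autoImplicit false

/-!
Skew products over billiards in arbitrary convex polygons.
-/

namespace Pool.Agent.Q183.BX

open Complex Set MeasureTheory Filter Topology Pool.Agent.W780.PG Pool.Agent.W780.BB

open scoped Real ENNReal

variable {n : ℕ} {Y : Type*} [MeasurableSpace Y] {ν : Measure Y} [IsProbabilityMeasure ν]
  {S : ℝ → Y → Y} {R : Fin (n + 3) → Y ≃ᵐ Y}

/-- The lower limit, as `h` tends to `0`, of the mean change of `F` if all directions are turned by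
the angle `h`, divided by `h log (1 / h)`, is `0`. -/
def SlowVariation (p : Fin (n + 3) → ℂ) (ν : Measure Y) (F : (ℂ × ℝ) × Y → ℝ) : Prop :=
  ∀ ε : ℝ, 0 < ε → ∃ᶠ h in 𝓝[>] (0 : ℝ),
    ∫⁻ x in phase p, ∫⁻ y, ENNReal.ofReal |F ((x.1, x.2 + h), y) - F (x, y)| ∂ν ≤
      ENNReal.ofReal (ε * (h * Real.log (1 / h)))

omit [IsProbabilityMeasure ν] in
/-- functions of finite directional variation have slow directional variation -/
theorem slow_of_finite {p : Fin (n + 3) → ℂ} {F : (ℂ × ℝ) × Y → ℝ} (hF : FiniteVariation p ν F) :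
    SlowVariation p ν F := by
  obtain ⟨C, hC⟩ := hF
  intro ε hε
  apply Eventually.frequently
  have e1 : Tendsto (fun h : ℝ => Real.log (1 / h)) (𝓝[>] 0) atTop := by
    have h1 : Tendsto (fun h : ℝ => h⁻¹) (𝓝[>] 0) atTop := tendsto_inv_nhdsGT_zero
    have h2 := Real.tendsto_log_atTop.comp h1
    refine h2.congr fun x => ?_
    rw [Function.comp_apply, one_div]
  filter_upwards [e1.eventually_ge_atTop (C / ε), Ioo_mem_nhdsGT (zero_lt_one : (0 : ℝ) < 1)]
    with h h1 h2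
  refine (hC h h2.1 h2.2).trans (ENNReal.ofReal_le_ofReal ?_)
  rw [div_le_iff₀ hε] at h1
  have := mul_le_mul_of_nonneg_right h1 h2.1.le
  calc C * h ≤ Real.log (1 / h) * ε * h := this
    _ = ε * (h * Real.log (1 / h)) := by ring

omit [IsProbabilityMeasure ν] in
theorem sv_of {p : Fin (n + 3) → ℂ} {F : (ℂ × ℝ) × Y → ℝ} (hV : SlowVariation p ν F)
    {f : ℂ × ℝ → Lp ℝ 1 ν} (h : ∀ x x', ENNReal.ofReal ‖f x' - f x‖ ≤
      ∫⁻ y, ENNReal.ofReal |F (x', y) - F (x, y)| ∂ν) : SV p f := by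
  intro ε hε
  refine (hV ε hε).mono fun t ht => ?_
  exact (lintegral_mono fun x => h x (x.1, x.2 + t)).trans ht

/-- the description of the invariant functions, all convex polygons -/
theorem all_skew [IsSeparable ν] (hS : IsFibreMotion ν S R) {p : Fin (n + 3) → ℂ}
    (hp : IsConvexPolygon p) {F : (ℂ × ℝ) × Y → ℝ} (hF : Measurable F)
    (hI : IsSkewInvariant p ν S R F) (hV : SlowVariation p ν F) :
    ∃ G : ℝ × Y → ℝ, Measurable G ∧ (∀ θ, ∀ᵐ y ∂ν, G (θ + 2 * π, y) = G (θ, y)) ∧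
      (∀ᵐ θ : ℝ, ∀ t, ∀ᵐ y ∂ν, G (θ, S t y) = G (θ, y)) ∧
      (∀ k, ∀ᵐ θ : ℝ, Real.sin (θ - tau p k) < 0 →
        ∀ᵐ y ∂ν, G (2 * tau p k - θ, R k y) = G (θ, y)) ∧
      ∀ᵐ q : (ℂ × ℝ) × Y ∂((volume : Measure (ℂ × ℝ)).prod ν), q.1 ∈ phase p →
        F q = G (q.1.2, q.2) := by
  obtain ⟨f, hfm, hfb, hfI, hfF, hfV⟩ := toE hS hF hI
  obtain ⟨z₀, hz0, h1, h2, h3⟩ := gen_all hp (isGrp hS) hfm hfb hfI (sv_of hV hfV)
  have hGm : Measurable fun r : ℝ × Y => F ((z₀, r.1), r.2) :=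
    hF.comp ((measurable_const.prodMk measurable_fst).prodMk measurable_snd)
  refine ⟨fun r => F ((z₀, r.1), r.2), hGm, fun θ => hI.periodic z₀ θ, ?_, fun k => ?_, ?_⟩
  · filter_upwards [h2] with θ hθ t
    have e1 := VS_coe hS (-t) (f (z₀, θ))
    rw [hθ, neg_neg] at e1
    filter_upwards [hfF (z₀, θ), (hS.mp t).quasiMeasurePreserving.ae (hfF (z₀, θ)), e1]
      with y a1 a2 a3
    rw [a1, a2, ← a3]
  · filter_upwards [h3 k] with θ hθ hs
    have hw : wt p (CR hS) k θ = CR hS k := if_pos hs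
    rw [hw] at hθ
    have e1 := (hS.mpR k).quasiMeasurePreserving.ae (CR_coe hS k (f (z₀, θ)))
    rw [← hθ] at e1
    filter_upwards [hfF (z₀, θ),
      (hS.mpR k).quasiMeasurePreserving.ae (hfF (z₀, 2 * tau p k - θ)), e1] with y a1 a2 a3
    rw [(R k).symm_apply_apply] at a3
    rw [a1, a2, a3]
  · have hset : MeasurableSet {q : (ℂ × ℝ) × Y | q.1 ∈ phase p → F q = F ((z₀, q.1.2), q.2)} := by
      have h1 : {q : (ℂ × ℝ) × Y | q.1 ∈ phase p → F q = F ((z₀, q.1.2), q.2)} =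
          {q : (ℂ × ℝ) × Y | q.1 ∈ phase p}ᶜ ∪ {q | F q = F ((z₀, q.1.2), q.2)} := by
        ext q
        simp only [mem_setOf_eq, mem_union, mem_compl_iff]
        tauto
      rw [h1]
      exact (measurable_fst (meas_phase hp)).compl.union
        (measurableSet_eq_fun hF (hGm.comp ((measurable_snd.comp measurable_fst).prodMk
          measurable_snd)))
    rw [Measure.ae_prod_iff_ae_ae hset]
    filter_upwards [h1] with x hx
    filter_upwards [hfF x, hfF (z₀, x.2)] with y hy hy0 hxp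
    rw [hy, hy0, hx hxp.1]

theorem rot_E {E : Type*} [Nonempty E] [MeasurableSpace E] [TopologicalSpace E]
    [TopologicalSpace.PseudoMetrizableSpace E] [T0Space E]
    [BorelSpace E] [SecondCountableTopology E] {h : ℝ → E} (hm : Measurable h)
    (hper : ∀ θ, h (θ + 2 * π) = h θ) {α : ℝ}
    (htr : ∀ᵐ θ : ℝ, h (2 * α + θ) = h θ) (hirr : Irrational (α / π)) :
    ∃ c : E, ∀ᵐ θ : ℝ, h θ = c := by
  have hU : ∀ U : Set E, MeasurableSet U →
      (∀ᵐ θ : ℝ, h θ ∈ U) ∨ (∀ᵐ θ : ℝ, h θ ∉ U) := by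
    intro U hUm
    rcases Pool.Agent.TH578.BE.rot_set (hm hUm) (fun θ => by simp only [mem_preimage, hper])
      (by filter_upwards [htr] with θ hθ; simp only [mem_preimage, hθ]) hirr with h1 | h1
    · right
      exact measure_eq_zero_iff_ae_notMem.1 h1
    · left
      rw [ae_iff]
      exact h1
  obtain ⟨c, hc⟩ := Filter.exists_eventuallyEq_const_of_forall_separating
    (l := ae (volume : Measure ℝ)) (f := h) MeasurableSet hU
  exact ⟨c, hc⟩

/-- commuting involutions at two sides which make an irrational angle -/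
theorem slow_skew [IsSeparable ν] (hS : IsFibreMotion ν S R) {p : Fin (n + 3) → ℂ}
    (hp : IsConvexPolygon p) {i j : Fin (n + 3)} (hij : Irrational ((tau p i - tau p j) / π))
    (hi1 : ∀ y, R i (R i y) = y) (hi2 : ∀ y, R j (R j y) = y)
    (hc : ∀ y, R i (R j y) = R j (R i y))
    {F : (ℂ × ℝ) × Y → ℝ} (hF : Measurable F) (hI : IsSkewInvariant p ν S R F)
    (hV : SlowVariation p ν F) :
    ∃ G : Y → ℝ, Measurable G ∧ (∀ t, ∀ᵐ y ∂ν, G (S t y) = G y) ∧
      (∀ k, ∀ᵐ y ∂ν, G (R k y) = G y) ∧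
      ∀ᵐ q : (ℂ × ℝ) × Y ∂((volume : Measure (ℂ × ℝ)).prod ν), q.1 ∈ phase p → F q = G q.2 := by
  obtain ⟨f, hfm, hfb, hfI, hfF, hfV⟩ := toE hS hF hI
  obtain ⟨z₀, hz0, h1, h2, h3⟩ := gen_all hp (isGrp hS) hfm hfb hfI (sv_of hV hfV)
  obtain ⟨g, hg⟩ : ∃ g : ℝ → Lp ℝ 1 ν, g = fun θ => f (z₀, θ) := ⟨_, rfl⟩
  have hgf : ∀ θ, f (z₀, θ) = g θ := fun θ => by rw [hg]
  have hgm : Measurable g := by
    rw [hg]
    exact hfm.comp (measurable_const.prodMk measurable_id)
  have hgp : ∀ θ, g (θ + 2 * π) = g θ := fun θ => by rw [hg]; exact hfI.periodic z₀ θ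
  simp only [hgf] at h1 h2 h3
  have inv : ∀ k, (∀ y, R k (R k y) = y) → ∀ v, CR hS k (CR hS k v) = v := by
    intro k hk v
    have e : ∀ y, (R k).symm ((R k).symm y) = y := by
      intro y
      apply (R k).injective
      apply (R k).injective
      rw [(R k).apply_symm_apply, (R k).apply_symm_apply, hk]
    refine Lp.ext ?_
    filter_upwards [CR_coe hS k (CR hS k v),
      (hS.mpR' k).quasiMeasurePreserving.ae (CR_coe hS k v)] with y a1 a2
    rw [a1, a2, e]
  have hc' := CR_comm hS hc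
  have hwt : ∀ k, (∀ y, R k (R k y) = y) → ∀ θ v, wt p (CR hS) k θ v = CR hS k v := by
    intro k hk θ v
    unfold wt
    split_ifs
    · rfl
    · have h4 : (CR hS k)⁻¹ (CR hS k (CR hS k v)) = CR hS k v := (CR hS k).symm_apply_apply _
      rw [inv k hk] at h4
      exact h4
  have r1 : ∀ᵐ θ : ℝ, g (2 * tau p i - θ) = CR hS i (g θ) := by
    filter_upwards [h3 i] with θ hθ
    rw [hθ, hwt i hi1]
  have r2 : ∀ᵐ θ : ℝ, g (2 * tau p j - θ) = CR hS j (g θ) := by
    filter_upwards [h3 j] with θ hθ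
    rw [hθ, hwt j hi2]
  obtain ⟨δ, hδ⟩ : ∃ δ : ℝ, δ = tau p i - tau p j := ⟨_, rfl⟩
  rw [← hδ] at hij
  have s1 : ∀ᵐ θ : ℝ, g (2 * δ + θ) = CR hS i (CR hS j (g θ)) := by
    have q1 := (Measure.measurePreserving_sub_left (volume : Measure ℝ)
      (2 * tau p j)).quasiMeasurePreserving.ae r1
    filter_upwards [q1, r2] with θ a1 a2
    rw [← a2, ← a1, hδ]
    congr 1
    ring
  have s2 : ∀ᵐ θ : ℝ, g (2 * (2 * δ) + θ) = g θ := by
    have q1 := (measurePreserving_add_left (volume : Measure ℝ) (2 * δ)).quasiMeasurePreserving.ae s1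
    filter_upwards [q1, s1] with θ a1 a2
    rw [a2, ← hc', inv j hi2, inv i hi1] at a1
    rw [← a1]
    congr 1
    ring
  have irr2 : Irrational (2 * δ / π) := by
    have : 2 * δ / π = ((2 : ℕ) : ℝ) * (δ / π) := by push_cast; ring
    rw [this]
    exact hij.natCast_mul two_ne_zero
  obtain ⟨w, hw⟩ := rot_E hgm hgp s2 irr2
  have hwC := all_sides hw h3
  have hwV : ∀ t, VS hS t w = w := by
    obtain ⟨θ, a1, a2⟩ := (h2.and hw).exists
    intro t
    have := a1 t
    rwa [a2] at this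
  have hws := (Measure.quasiMeasurePreserving_snd (μ := (volume : Measure ℂ))
    (ν := (volume : Measure ℝ))).ae hw
  refine of_const hS hp hF hfF ?_ hwV hwC
  filter_upwards [h1, hws] with x hx hxs hr
  rw [hx hr, hxs]

/-- in a rational polygon there are functions of the direction -/
theorem rational_slow {p : Fin (n + 3) → ℂ} (hp : IsConvexPolygon p)
    (h : ∀ F : (ℂ × ℝ) × Y → ℝ, Measurable F → IsSkewInvariant p ν S R F → SlowVariation p ν F →
      ∃ G : Y → ℝ, ∀ᵐ q : (ℂ × ℝ) × Y ∂((volume : Measure (ℂ × ℝ)).prod ν),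
        q.1 ∈ phase p → F q = G q.2) : ∃ i, Irrational (ang p i / π) := by
  refine (finished hp).2.2 fun A hA hAI hAF => ?_
  obtain ⟨C, hC⟩ := hAF
  have hind : Measurable (A.indicator (1 : ℂ × ℝ → ℝ)) := measurable_one.indicator hA
  have heq : ∀ {x x' : ℂ × ℝ}, (x ∈ A ↔ x' ∈ A) →
      A.indicator (1 : ℂ × ℝ → ℝ) x = A.indicator (1 : ℂ × ℝ → ℝ) x' := by
    intro x x' hx
    by_cases h1 : x ∈ A
    · rw [indicator_of_mem h1, indicator_of_mem (hx.1 h1)]
      rfl
    · rw [indicator_of_notMem h1, indicator_of_notMem (fun h2 => h1 (hx.2 h2))]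
  obtain ⟨G, hG⟩ := h (fun q => A.indicator (1 : ℂ × ℝ → ℝ) q.1) (hind.comp measurable_fst)
    ⟨fun z θ => Eventually.of_forall fun y => heq (hAI.periodic z θ),
      fun z θ s h1 h2 => Eventually.of_forall fun y => heq (hAI.free z θ s h1 h2).symm,
      fun k w hw θ s r h1 h2 h3 h4 => Eventually.of_forall fun y =>
        heq (hAI.reflect k w hw θ s r h1 h2 h3 h4).symm⟩
    (slow_of_finite ⟨C, fun ε h0 h1 => by
      refine le_trans ?_ (hC ε h0 h1)
      have hmA : MeasurableSet {x : ℂ × ℝ | ¬ (x ∈ A ↔ (x.1, x.2 + ε) ∈ A)} := by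
        have m1 : MeasurableSet {x : ℂ × ℝ | (x.1, x.2 + ε) ∈ A} :=
          (measurable_fst.prodMk (measurable_snd.add_const ε)) hA
        have : {x : ℂ × ℝ | ¬ (x ∈ A ↔ (x.1, x.2 + ε) ∈ A)} =
            (A ∩ {x : ℂ × ℝ | (x.1, x.2 + ε) ∈ A}ᶜ) ∪ (Aᶜ ∩ {x : ℂ × ℝ | (x.1, x.2 + ε) ∈ A}) := by
          ext x
          simp only [mem_setOf_eq, mem_union, mem_inter_iff, mem_compl_iff]
          tauto
        rw [this]
        exact (hA.inter m1.compl).union (hA.compl.inter m1)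
      calc ∫⁻ x in phase p, ∫⁻ _y : Y, ENNReal.ofReal
            |A.indicator (1 : ℂ × ℝ → ℝ) (x.1, x.2 + ε) - A.indicator (1 : ℂ × ℝ → ℝ) x| ∂ν
          = ∫⁻ x in phase p,
              ({x : ℂ × ℝ | ¬ (x ∈ A ↔ (x.1, x.2 + ε) ∈ A)}.indicator 1 x : ℝ≥0∞) := by
            refine lintegral_congr fun x => ?_
            rw [lintegral_const, measure_univ, mul_one]
            by_cases hx : x ∈ A <;> by_cases hx' : (x.1, x.2 + ε) ∈ A
            · have : x ∉ {x : ℂ × ℝ | ¬ (x ∈ A ↔ (x.1, x.2 + ε) ∈ A)} := by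
                simp only [mem_setOf_eq, hx, hx', not_true, iff_self, not_false_eq_true]
              rw [indicator_of_mem hx, indicator_of_mem hx', indicator_of_notMem this]
              simp
            · have : x ∈ {x : ℂ × ℝ | ¬ (x ∈ A ↔ (x.1, x.2 + ε) ∈ A)} := by
                simp only [mem_setOf_eq, hx, hx', iff_false, not_true, not_false_eq_true]
              rw [indicator_of_mem hx, indicator_of_notMem hx', indicator_of_mem this]
              simp
            · have : x ∈ {x : ℂ × ℝ | ¬ (x ∈ A ↔ (x.1, x.2 + ε) ∈ A)} := by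
                simp only [mem_setOf_eq, hx, hx', iff_true, not_false_eq_true]
              rw [indicator_of_notMem hx, indicator_of_mem hx', indicator_of_mem this]
              simp
            · have : x ∉ {x : ℂ × ℝ | ¬ (x ∈ A ↔ (x.1, x.2 + ε) ∈ A)} := by
                simp only [mem_setOf_eq, hx, hx', not_true, iff_self, not_false_eq_true]
              rw [indicator_of_notMem hx, indicator_of_notMem hx', indicator_of_notMem this]
              simp
        _ = volume {x : ℂ × ℝ | x ∈ phase p ∧ ¬ (x ∈ A ↔ (x.1, x.2 + ε) ∈ A)} := by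
            rw [lintegral_indicator_one hmA, Measure.restrict_apply hmA, inter_comm]
            rfl
        _ ≤ volume {x : ℂ × ℝ | x ∈ phase p ∧ ¬ (x ∈ A ↔ (x.1, x.2 + ε) ∈ A)} := le_refl _⟩)
  -- the function is constant
  have h1 : ∀ᵐ x : ℂ × ℝ, ∀ᵐ y ∂ν, x ∈ phase p → A.indicator (1 : ℂ × ℝ → ℝ) x = G y :=
    Measure.ae_ae_of_ae_prod hG
  have h2 : ∀ᵐ x : ℂ × ℝ, x ∈ phase p → ∀ᵐ y ∂ν, A.indicator (1 : ℂ × ℝ → ℝ) x = G y := by
    filter_upwards [h1] with x hx hxp
    filter_upwards [hx] with y hy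
    exact hy hxp
  obtain ⟨x₀, -, hx0⟩ := phase_pos hp h2
  have h3 : ∀ᵐ x : ℂ × ℝ, x ∈ phase p →
      A.indicator (1 : ℂ × ℝ → ℝ) x = A.indicator (1 : ℂ × ℝ → ℝ) x₀ := by
    filter_upwards [h2] with x hx hxp
    obtain ⟨y, a1, a2⟩ := ((hx hxp).and hx0).exists
    rw [a1, a2]
  by_cases hA0 : x₀ ∈ A
  · right
    rw [indicator_of_mem hA0] at h3
    have h4 : ∀ᵐ x : ℂ × ℝ, x ∉ phase p \ A := by
      filter_upwards [h3] with x hx hmem
      have := hx hmem.1
      rw [indicator_of_notMem hmem.2] at this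
      exact zero_ne_one this
    exact measure_eq_zero_iff_ae_notMem.2 h4
  · left
    rw [indicator_of_notMem hA0] at h3
    have h4 : ∀ᵐ x : ℂ × ℝ, x ∉ phase p ∩ A := by
      filter_upwards [h3] with x hx hmem
      have := hx hmem.1
      rw [indicator_of_mem hmem.2] at this
      exact one_ne_zero this
    exact measure_eq_zero_iff_ae_notMem.2 h4

end Pool.Agent.Q183.BX
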