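import Pool.Agent.Q183.BX.FinB

set_option autoImplicit false

/-!
Skew products over billiards: the maps of the sides preserve the invariant sets of the flow.
-/

namespace Pool.Agent.Q183.BX

open Complex Set MeasureTheory Filter Topology Pool.Agent.W780.PG Pool.Agent.W780.BB

open scoped Real ENNReal

variable {n : ℕ} {Y : Type*} [MeasurableSpace Y] {ν : Measure Y} [IsProbabilityMeasure ν]
  {S : ℝ → Y → Y} {R : Fin (n + 3) → Y ≃ᵐ Y}

theorem flow_skew [IsSeparable ν] (hS : IsFibreMotion ν S R) {p : Fin (n + 3) → ℂ}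
    (hp : IsConvexPolygon p) (hirr : ∃ i, Irrational (ang p i / π))
    (hR : ∀ G : Y → ℝ, Measurable G → (∀ t, ∀ᵐ y ∂ν, G (S t y) = G y) →
      ∀ k, ∀ᵐ y ∂ν, G (R k y) = G y)
    {F : (ℂ × ℝ) × Y → ℝ} (hF : Measurable F) (hI : IsSkewInvariant p ν S R F)
    (hV : SlowVariation p ν F) :
    ∃ G : Y → ℝ, Measurable G ∧ (∀ t, ∀ᵐ y ∂ν, G (S t y) = G y) ∧
      (∀ k, ∀ᵐ y ∂ν, G (R k y) = G y) ∧
      ∀ᵐ q : (ℂ × ℝ) × Y ∂((volume : Measure (ℂ × ℝ)).prod ν), q.1 ∈ phase p → F q = G q.2 := by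
  have hRot : S_Rot := Pool.Agent.W363.BB.rot
  have hTau : S_Tau := Pool.Agent.W337.BB.tau_th
  obtain ⟨i, hi⟩ := hirr
  have irr := Pool.Agent.TH578.BE.irr_tau hTau hp hi
  obtain ⟨f, hfm, hfb, hfI, hfF, hfV⟩ := toE hS hF hI
  obtain ⟨z₀, hz0, h1, h2, h3⟩ := gen_all hp (isGrp hS) hfm hfb hfI (sv_of hV hfV)
  obtain ⟨g, hg⟩ : ∃ g : ℝ → Lp ℝ 1 ν, g = fun θ => f (z₀, θ) := ⟨_, rfl⟩
  have hgf : ∀ θ, f (z₀, θ) = g θ := fun θ => by rw [hg]
  have hgm : Measurable g := by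
    rw [hg]
    exact hfm.comp (measurable_const.prodMk measurable_id)
  have hgp : ∀ θ, g (θ + 2 * π) = g θ := fun θ => by rw [hg]; exact hfI.periodic z₀ θ
  simp only [hgf] at h1 h2 h3
  -- the vectors fixed by the flow are fixed by the sides
  have hfix : ∀ v : Lp ℝ 1 ν, (∀ t, VS hS t v = v) → ∀ k, CR hS k v = v := by
    intro v hv k
    have h4 := hR (fun y => v y) (Lp.stronglyMeasurable v).measurable (fun t => by
      have h5 := VS_coe hS (-t) v
      rw [hv, neg_neg] at h5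
      filter_upwards [h5] with y hy
      rw [← hy]) k
    refine Lp.ext ?_
    filter_upwards [CR_coe hS k v, (hS.mpR' k).quasiMeasurePreserving.ae h4] with y a1 a2
    rw [(R k).apply_symm_apply] at a2
    rw [a1, a2]
  have hr : ∀ k, ∀ᵐ θ : ℝ, g (2 * tau p k - θ) = g θ := by
    intro k
    filter_upwards [h2, h3 k] with θ a1 a2
    rw [a2, wt_fix (hfix _ a1 k)]
  obtain ⟨w, hw⟩ := rot_const hRot hgm hgp (hr i) (hr (i - 1)) irr
  have hwV : ∀ t, VS hS t w = w := by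
    obtain ⟨θ, a1, a2⟩ := (h2.and hw).exists
    intro t
    have := a1 t
    rwa [a2] at this
  have hws := (Measure.quasiMeasurePreserving_snd (μ := (volume : Measure ℂ))
    (ν := (volume : Measure ℝ))).ae hw
  refine of_const hS hp hF hfF ?_ hwV (hfix w hwV)
  filter_upwards [h1, hws] with x hx hxs hr'
  rw [hx hr', hxs]

theorem flow_main [IsSeparable ν] (hS : IsFibreMotion ν S R) {p : Fin (n + 3) → ℂ}
    (hp : IsConvexPolygon p)
    (hR : ∀ G : Y → ℝ, Measurable G → (∀ t, ∀ᵐ y ∂ν, G (S t y) = G y) →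
      ∀ k, ∀ᵐ y ∂ν, G (R k y) = G y) :
    (∃ i, Irrational (ang p i / π)) ↔
      ∀ F : (ℂ × ℝ) × Y → ℝ, Measurable F → IsSkewInvariant p ν S R F → SlowVariation p ν F →
        ∃ G : Y → ℝ, Measurable G ∧ (∀ t, ∀ᵐ y ∂ν, G (S t y) = G y) ∧
          ∀ᵐ q : (ℂ × ℝ) × Y ∂((volume : Measure (ℂ × ℝ)).prod ν), q.1 ∈ phase p →
            F q = G q.2 := by
  constructor
  · intro hirr F hF hI hV
    obtain ⟨G, a1, a2, -, a4⟩ := flow_skew hS hp hirr hR hF hI hV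
    exact ⟨G, a1, a2, a4⟩
  · intro h
    refine rational_slow hp (ν := ν) (S := S) (R := R) fun F hF hI hV => ?_
    obtain ⟨G, -, -, a3⟩ := h F hF hI hV
    exact ⟨G, a3⟩

end Pool.Agent.Q183.BX
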