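import Pool.Agent.TH578.BE.Inv

set_option autoImplicit false

/-!
Functions of the states of a billiard with values in a normed space on which the free motion and the
reflections act by isometries.
-/

namespace Pool.Agent.Q183.BX

open Complex Set MeasureTheory Filter Topology Pool.Agent.W780.PG Pool.Agent.W780.BB
open Pool.Agent.W174.PG Pool.Agent.W82.BB
open Pool.Agent.TH578.BE (dir_def dir_neg_mul)

open scoped Real ComplexConjugate

variable {n : ℕ} {E : Type*} [NormedAddCommGroup E] [NormedSpace ℝ E]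

/-- the equivariance of a function -/
structure IsEq (p : Fin (n + 3) → ℂ) (V : ℝ → (E ≃ₗᵢ[ℝ] E)) (C : Fin (n + 3) → (E ≃ₗᵢ[ℝ] E))
    (f : ℂ × ℝ → E) : Prop where
  periodic : ∀ (z : ℂ) (θ : ℝ), f (z, θ + 2 * π) = f (z, θ)
  free : ∀ (z : ℂ) (θ s : ℝ), z ∈ region p → z + s • dir θ ∈ region p →
    f (z + s • dir θ, θ) = V s (f (z, θ))
  reflect : ∀ i, ∀ y ∈ openSegment ℝ (p i) (p (i + 1)), ∀ θ s r : ℝ, 0 < s → 0 < r →
    y - s • dir θ ∈ region p → y + r • dir (2 * tau p i - θ) ∈ region p →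
    f (y + r • dir (2 * tau p i - θ), 2 * tau p i - θ) =
      V (s + r) (C i (f (y - s • dir θ, θ)))

theorem mul_ap (a b : E ≃ₗᵢ[ℝ] E) (v : E) : (a * b) v = a (b v) := rfl

/-- a flow of isometries which commutes with the isometries of the sides -/
structure IsGrp (V : ℝ → (E ≃ₗᵢ[ℝ] E)) (C : Fin (n + 3) → (E ≃ₗᵢ[ℝ] E)) : Prop where
  add : ∀ s t v, V (s + t) v = V s (V t v)
  comm : ∀ s i v, V s (C i v) = C i (V s v)
  cont : ∀ v, Continuous fun s => V s v

namespace IsGrp

variable {V : ℝ → (E ≃ₗᵢ[ℝ] E)} {C : Fin (n + 3) → (E ≃ₗᵢ[ℝ] E)}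

theorem zero (h : IsGrp V C) (v : E) : V 0 v = v := by
  have h1 := h.add 0 0 v
  rw [add_zero] at h1
  exact ((V 0).injective h1).symm

theorem neg (h : IsGrp V C) (s : ℝ) (v : E) : V (-s) (V s v) = v := by
  rw [← h.add, neg_add_cancel, h.zero]

theorem neg' (h : IsGrp V C) (s : ℝ) (v : E) : V s (V (-s) v) = v := by
  rw [← h.add, add_neg_cancel, h.zero]

theorem vcomm (h : IsGrp V C) (s t : ℝ) (v : E) : V s (V t v) = V t (V s v) := by
  rw [← h.add, ← h.add, add_comm]

theorem comm' (h : IsGrp V C) (s : ℝ) (i : Fin (n + 3)) (v : E) :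
    V s ((C i)⁻¹ v) = (C i)⁻¹ (V s v) := by
  have h1 := h.comm s i ((C i)⁻¹ v)
  have h2 : C i ((C i)⁻¹ v) = v := (C i).apply_symm_apply v
  rw [h2] at h1
  rw [h1]
  exact ((C i).symm_apply_apply _).symm

/-- joint continuity -/
theorem jcont (h : IsGrp V C) : Continuous fun q : ℝ × E => V q.1 q.2 := by
  rw [continuous_iff_continuousAt]
  rintro ⟨s, v⟩
  rw [ContinuousAt, tendsto_iff_dist_tendsto_zero]
  have h1 : Tendsto (fun q : ℝ × E => dist (V q.1 v) (V s v) + dist q.2 v) (𝓝 (s, v)) (𝓝 0) := by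
    have h2 : Continuous (fun q : ℝ × E => dist (V q.1 v) (V s v) + dist q.2 v) :=
      (((h.cont v).comp continuous_fst).dist continuous_const).add
        (continuous_snd.dist continuous_const)
    have h3 := h2.tendsto (s, v)
    simpa using h3
  refine squeeze_zero (fun _ => dist_nonneg) (fun q => ?_) h1
  calc dist (V q.1 q.2) (V s v) ≤ dist (V q.1 q.2) (V q.1 v) + dist (V q.1 v) (V s v) :=
        dist_triangle _ _ _
    _ = dist (V q.1 v) (V s v) + dist q.2 v := by
        rw [(V q.1).dist_map, add_comm]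

end IsGrp

/-- the factor of an itinerary -/
noncomputable def XX (C : Fin (n + 3) → (E ≃ₗᵢ[ℝ] E)) (s : ℝ) : List (Fin (n + 3)) → (E ≃ₗᵢ[ℝ] E)
  | [] => 1
  | i :: w => XX C s w * (if 0 < s then C i else (C i)⁻¹)

theorem XX_sign (C : Fin (n + 3) → (E ≃ₗᵢ[ℝ] E)) {s s' : ℝ} (h : 0 < s ↔ 0 < s')
    (w : List (Fin (n + 3))) : XX C s w = XX C s' w := by
  induction w with
  | nil => rfl
  | cons i w ih => simp only [XX, ih, h]

/-- the general statement -/
theorem inv_gen (hR : S_Ref) {p : Fin (n + 3) → ℂ} (hp : IsConvexPolygon p)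
    (hreg : region p = reg p) {V : ℝ → (E ≃ₗᵢ[ℝ] E)} {C : Fin (n + 3) → (E ≃ₗᵢ[ℝ] E)}
    (hG : IsGrp V C) {f : ℂ × ℝ → E} (hS : IsEq p V C f) :
    ∀ (w : List (Fin (n + 3))) (y : ℂ) (θ s r : ℝ), y + (r * s) • dir θ ∈ reg p →
      Ch p w y (y + s • dir θ) →
      f (fd p w (y + s • dir θ, θ)) =
        XX C s w (V (s - r * s) (f (y + (r * s) • dir θ, θ))) := by
  obtain ⟨-, -, hR3, hR4, hR5, -⟩ := hR n p hp
  intro w
  induction w with
  | nil =>
    intro y θ s r hz hA
    have h1 := hS.free (y + (r * s) • dir θ) θ (s - r * s) (by rw [hreg]; exact hz)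
    have e : y + (r * s) • dir θ + (s - r * s) • dir θ = y + s • dir θ := by
      rw [add_assoc, ← add_smul]; congr 2; ring
    rw [e, hreg] at h1
    exact h1 hA
  | cons i w ih =>
    intro y θ s r hz hCh
    obtain ⟨hy, hA, hc, hCh'⟩ := hCh
    obtain ⟨A, hAdef⟩ : ∃ A : ℂ, A = y + s • dir θ := ⟨_, rfl⟩
    obtain ⟨t, ht⟩ : ∃ t : ℝ, t = sf p i y / (sf p i y - sf p i A) := ⟨_, rfl⟩
    rw [← hAdef] at hA hc hCh'
    have hAy : A - y = s • dir θ := by rw [hAdef]; ring
    have hden : 0 < sf p i y - sf p i A := by linarith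
    have ht0 : 0 < t := by rw [ht]; exact div_pos hy hden
    have ht1 : t < 1 := by rw [ht, div_lt_one hden]; linarith
    have hcr : cr p i y A = y + (t * s) • dir θ := by
      unfold cr
      rw [← ht, hAy, smul_smul]
    have hc0 : sf p i (cr p i y A) = 0 := by
      have h1 : cr p i y A = y + t • (A - y) := by unfold cr; rw [← ht]
      rw [h1, sf_line, ht]
      field_simp
      ring
    obtain ⟨c, hcdef⟩ : ∃ c : ℂ, c = cr p i y A := ⟨_, rfl⟩
    rw [← hcdef] at hc hc0 hCh' hcr
    have hside : c ∈ side p i := mem_side hp hc0 hc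
    have hr : r < t := by
      have h1 := hz i
      have h2 : y + (r * s) • dir θ = y + r • (A - y) := by rw [hAy, smul_smul]
      rw [h2] at h1
      have h3 := sf_line p i y A r
      unfold sf at h3
      rw [h3] at h1
      have h4 : (1 - r) * sf p i y + r * sf p i A > 0 := h1
      rw [ht, lt_div_iff₀ hden]
      linarith
    -- the next piece
    have hrfc : rf p i c = c := hR4 i c hc0
    have hA2 : A = c + ((1 - t) * s) • dir θ := by
      rw [hcr, hAdef, add_assoc, ← add_smul]
      congr 2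
      ring
    have hrfA : rf p i A = c + ((1 - t) * s) • dir (2 * tau p i - θ) := by
      conv_lhs => rw [hA2]
      rw [hR5, hrfc]
    have hsfA : 0 < sf p i (rf p i A) := by rw [hR3]; linarith
    obtain ⟨u, hu0, hu1, hu⟩ := small_step hc0 hc hsfA
    have hu' : c + (u * ((1 - t) * s)) • dir (2 * tau p i - θ) ∈ reg p := by
      have e : c + u • (rf p i A - c) = c + (u * ((1 - t) * s)) • dir (2 * tau p i - θ) := by
        rw [hrfA, add_sub_cancel_left, smul_smul]
      rwa [e] at hu
    have hIH := ih c (2 * tau p i - θ) ((1 - t) * s) u hu' (by rw [← hrfA]; exact hCh')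
    have hfd : fd p (i :: w) (A, θ) = fd p w (c + ((1 - t) * s) • dir (2 * tau p i - θ), 2 * tau p i - θ) := by
      rw [← hrfA]
      rfl
    rw [← hAdef, hfd, hIH]
    have hz' : y + (r * s) • dir θ = c - ((t - r) * s) • dir θ := by
      rw [hcr]
      have : (r * s) = t * s - (t - r) * s := by ring
      rw [this, sub_smul]
      ring
    have htr : 0 < t - r := by linarith
    have h1t : 0 < 1 - t := by linarith
    rcases lt_trichotomy s 0 with hs | hs | hs
    · -- backward motion
      have h1 := hS.reflect i c hside (2 * tau p i - θ) (-(u * ((1 - t) * s))) (-((t - r) * s))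
        (by nlinarith [mul_pos hu0 h1t, mul_neg_of_pos_of_neg (mul_pos hu0 h1t) hs]) (by nlinarith)
      have e1 : 2 * tau p i - (2 * tau p i - θ) = θ := by ring
      have e2 : c - (-(u * ((1 - t) * s))) • dir (2 * tau p i - θ) =
          c + (u * ((1 - t) * s)) • dir (2 * tau p i - θ) := by
        rw [neg_smul, sub_neg_eq_add]
      have e3 : c + (-((t - r) * s)) • dir θ = c - ((t - r) * s) • dir θ := by
        rw [neg_smul]; ring
      rw [e1, e2, e3, hreg, ← hz'] at h1
      have h2 := h1 hu' hz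
      have hX1 : XX C s (i :: w) = XX C s w * (C i)⁻¹ := by
        simp only [XX, if_neg hs.not_gt]
      have hX2 : XX C ((1 - t) * s) w = XX C s w := by
        apply XX_sign
        constructor
        · intro h
          nlinarith
        · intro h
          exact absurd h hs.not_gt
      rw [h2, hX1, hX2, mul_ap]
      congr 1
      have e4 : ∀ v : E, (C i)⁻¹ (C i v) = v := fun v => (C i).symm_apply_apply v
      rw [← hG.add, hG.comm, e4]
      congr 2
      ring
    · exfalso
      rw [hs, zero_smul, add_zero] at hAdef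
      rw [hAdef] at hA
      linarith
    · have h1 := hS.reflect i c hside θ ((t - r) * s) (u * ((1 - t) * s))
        (mul_pos htr hs) (mul_pos hu0 (mul_pos h1t hs))
      rw [hreg, ← hz'] at h1
      have h2 := h1 hz hu'
      have hX1 : XX C s (i :: w) = XX C s w * C i := by
        simp only [XX, if_pos hs]
      have hX2 : XX C ((1 - t) * s) w = XX C s w := by
        apply XX_sign
        exact ⟨fun _ => hs, fun _ => mul_pos h1t hs⟩
      rw [h2, hX1, hX2, mul_ap]
      congr 1
      rw [← hG.add, hG.comm]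
      congr 3
      ring

/-- Equivariant functions along itineraries: the factor depends only on the itinerary and the time. -/
theorem inv_f (hR : S_Ref) {p : Fin (n + 3) → ℂ} (hp : IsConvexPolygon p)
    (hreg : region p = reg p) {V : ℝ → (E ≃ₗᵢ[ℝ] E)} {C : Fin (n + 3) → (E ≃ₗᵢ[ℝ] E)}
    (hG : IsGrp V C) {f : ℂ × ℝ → E} (hS : IsEq p V C f) (w : List (Fin (n + 3))) (s : ℝ) :
    ∃ c : E ≃ₗᵢ[ℝ] E, ∀ (z : ℂ) (θ : ℝ), z ∈ reg p → Ch p w z (z + s • dir θ) →
      f (fd p w (z + s • dir θ, θ)) = c (f (z, θ)) := by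
  refine ⟨XX C s w * V s, ?_⟩
  intro z θ hz hCh
  have h := inv_gen hR hp hreg hG hS w z θ s 0 (by simpa using hz) hCh
  simpa using h

end Pool.Agent.Q183.BX
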