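import Pool.Agent.Q183.BX.Smooth

set_option autoImplicit false

/-!
The isometries of `L¹` of a probability space induced by measure preserving maps and flows.
-/

namespace Pool.Agent.Q183.BX

open Set MeasureTheory Filter Topology

open scoped Real ENNReal

variable {X Y : Type*} [MeasurableSpace X] [MeasurableSpace Y] {ν : Measure Y}

noncomputable instance instMLp : MeasurableSpace (Lp ℝ 1 ν) := borel _

instance instBLp : BorelSpace (Lp ℝ 1 ν) := ⟨rfl⟩

instance instFact1 : Fact ((1 : ℝ≥0∞) ≠ ∞) := ⟨ENNReal.one_ne_top⟩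

/-- a measurable function of two variables is a measurable function with values in `L¹` -/
theorem meas_toLp [IsSeparable ν] [SFinite ν] {F : X × Y → ℝ} (hF : Measurable F)
    (hi : ∀ x, MemLp (fun y => F (x, y)) 1 ν) :
    Measurable fun x => (hi x).toLp := by
  let e : ℕ → Lp ℝ 1 ν := TopologicalSpace.denseSeq (Lp ℝ 1 ν)
  let Φ : Lp ℝ 1 ν → (ℕ → ℝ) := fun v k => dist v (e k)
  have hΦc : Continuous Φ := continuous_pi fun k => continuous_id.dist continuous_const
  have hΦi : Function.Injective Φ := by
    intro u v huv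
    have h1 : ∀ k, dist u (e k) = dist v (e k) := fun k => congrFun huv k
    have hcl : ∀ w : Lp ℝ 1 ν, dist u w = dist v w := by
      intro w
      have hd : Dense (range e) := TopologicalSpace.denseRange_denseSeq _
      have hc : IsClosed {w : Lp ℝ 1 ν | dist u w = dist v w} :=
        isClosed_eq (continuous_const.dist continuous_id) (continuous_const.dist continuous_id)
      have hsub : range e ⊆ {w : Lp ℝ 1 ν | dist u w = dist v w} := by
        rintro _ ⟨k, rfl⟩
        exact h1 k
      have := hd.closure_eq ▸ (hc.closure_subset_iff.2 hsub)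
      exact this (mem_univ w)
    have := hcl v
    rw [dist_self] at this
    exact dist_eq_zero.1 this
  have hΦ : MeasurableEmbedding Φ := hΦc.measurableEmbedding hΦi
  rw [← hΦ.measurable_comp_iff]
  refine measurable_pi_iff.2 fun k => ?_
  have h2 : (fun x => (Φ ∘ fun x => (hi x).toLp) x k) =
      fun x => (∫⁻ y, ‖F (x, y) - e k y‖ₑ ∂ν).toReal := by
    funext x
    show dist (hi x).toLp (e k) = _
    rw [L1.dist_def]
    congr 1
    refine lintegral_congr_ae ?_
    filter_upwards [(hi x).coeFn_toLp] with y hy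
    rw [hy, edist_eq_enorm_sub]
  rw [h2]
  have hm : Measurable fun q : X × Y => ‖F q - e k q.2‖ₑ :=
    (hF.sub ((Lp.stronglyMeasurable (e k)).measurable.comp measurable_snd)).enorm
  exact hm.lintegral_prod_right'.ennreal_toReal

/-- the isometry of `L¹` induced by an invertible measure preserving map -/
noncomputable def Kp {e e' : Y → Y} (he : MeasurePreserving e ν ν) (he' : MeasurePreserving e' ν ν)
    (h : ∀ y, e' (e y) = y) : Lp ℝ 1 ν ≃ₗᵢ[ℝ] Lp ℝ 1 ν :=
  LinearIsometryEquiv.ofSurjective (Lp.compMeasurePreservingₗᵢ ℝ e he) (fun v =>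
    ⟨Lp.compMeasurePreserving e' he' v, by
      show Lp.compMeasurePreserving e he (Lp.compMeasurePreserving e' he' v) = v
      rw [← Lp.compMeasurePreserving_comp_apply]
      have : e' ∘ e = id := funext h
      refine Lp.ext ?_
      filter_upwards [Lp.coeFn_compMeasurePreserving v (he'.comp he)] with y hy
      rw [hy, this]
      rfl⟩)

theorem Kp_coe {e e' : Y → Y} (he : MeasurePreserving e ν ν) (he' : MeasurePreserving e' ν ν)
    (h : ∀ y, e' (e y) = y) (v : Lp ℝ 1 ν) : Kp he he' h v =ᵐ[ν] v ∘ e :=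
  Lp.coeFn_compMeasurePreserving v he

/-- a measurable group of isometries of a separable space is continuous -/
theorem cont_of_meas {E : Type*} [NormedAddCommGroup E] [NormedSpace ℝ E] [MeasurableSpace E]
    [BorelSpace E] [SecondCountableTopology E] {V : ℝ → (E ≃ₗᵢ[ℝ] E)}
    (hadd : ∀ s t v, V (s + t) v = V s (V t v)) {v : E} (hm : Measurable fun s => V s v) :
    Continuous fun s => V s v := by
  have hzero : V 0 v = v := by
    have h1 := hadd 0 0 v
    rw [add_zero] at h1
    exact ((V 0).injective h1).symm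
  -- the truncated orbit
  obtain ⟨g, hg⟩ : ∃ g : ℝ → E, g = (Ioo (-1 : ℝ) 2).indicator fun s => V s v := ⟨_, rfl⟩
  have hgm : Measurable g := by
    rw [hg]
    exact hm.indicator measurableSet_Ioo
  have hgL : MemLp g 1 volume := by
    rw [hg, memLp_indicator_iff_restrict measurableSet_Ioo]
    haveI : IsFiniteMeasure ((volume : Measure ℝ).restrict (Ioo (-1 : ℝ) 2)) :=
      ⟨by rw [Measure.restrict_apply_univ, Real.volume_Ioo]; exact ENNReal.ofReal_lt_top⟩
    exact MemLp.of_bound hm.aestronglyMeasurable ‖v‖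
      (Eventually.of_forall fun s => by rw [(V s).norm_map])
  let T : ℝ → C(ℝ, ℝ) := fun t => ⟨fun s => s + t, by fun_prop⟩
  have hTc : Continuous T := by
    have h1 := (ContinuousMap.curry (⟨fun q : ℝ × ℝ => q.2 + q.1, by fun_prop⟩ :
      C(ℝ × ℝ, ℝ))).continuous
    exact h1
  have hTm : ∀ t, MeasurePreserving (T t) (volume : Measure ℝ) volume := fun t =>
    measurePreserving_add_right volume t
  obtain ⟨G, hG⟩ : ∃ G : Lp E 1 (volume : Measure ℝ), G = hgL.toLp := ⟨_, rfl⟩
  have hGg : G =ᵐ[volume] g := by rw [hG]; exact hgL.coeFn_toLp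
  have hlim := Filter.Tendsto.compMeasurePreservingLp (l := 𝓝 (0 : ℝ)) (f := fun _ => G)
    tendsto_const_nhds (hTc.tendsto 0) hTm (hTm 0) (by norm_num)
  have hT0 : Lp.compMeasurePreserving (T 0) (hTm 0) G = G := by
    refine Lp.ext ?_
    filter_upwards [Lp.coeFn_compMeasurePreserving G (hTm 0)] with s hs
    rw [hs]
    show G (s + 0) = G s
    rw [add_zero]
  rw [hT0] at hlim
  have hcmp : ∀ᶠ t in 𝓝 (0 : ℝ), dist (V t v) v ≤
      dist (Lp.compMeasurePreserving (T t) (hTm t) G) G := by
    have : Ioo (-1 : ℝ) 1 ∈ 𝓝 (0 : ℝ) := Ioo_mem_nhds (by norm_num) (by norm_num)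
    filter_upwards [this] with t ht
    rw [L1.dist_def, dist_eq_norm, ← ENNReal.toReal_ofReal (norm_nonneg (V t v - v))]
    refine ENNReal.toReal_mono ?_ ?_
    · rw [← L1.edist_def]
      exact edist_ne_top _ _
    have h1 : ∀ᵐ s : ℝ, (Lp.compMeasurePreserving (T t) (hTm t) G) s = g (s + t) := by
      filter_upwards [Lp.coeFn_compMeasurePreserving G (hTm t),
        (hTm t).quasiMeasurePreserving.ae hGg] with s h1 h2
      rw [h1]
      exact h2
    calc ENNReal.ofReal ‖V t v - v‖
        = ∫⁻ s in Ioo (0 : ℝ) 1, ENNReal.ofReal ‖V t v - v‖ := by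
          rw [setLIntegral_const, Real.volume_Ioo, sub_zero, ENNReal.ofReal_one, mul_one]
      _ = ∫⁻ s in Ioo (0 : ℝ) 1, edist (g (s + t)) (g s) := by
          refine setLIntegral_congr_fun measurableSet_Ioo fun s hs => ?_
          have e1 : g s = V s v := by
            rw [hg, indicator_of_mem]
            exact ⟨by linarith [hs.1], by linarith [hs.2]⟩
          have e2 : g (s + t) = V (s + t) v := by
            rw [hg, indicator_of_mem]
            exact ⟨by linarith [hs.1, ht.1], by linarith [hs.2, ht.2]⟩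
          rw [e1, e2, hadd, edist_eq_enorm_sub, ← map_sub, ← ofReal_norm, (V s).norm_map]
      _ ≤ ∫⁻ s, edist (g (s + t)) (g s) := setLIntegral_le_lintegral _ _
      _ = ∫⁻ s, edist ((Lp.compMeasurePreserving (T t) (hTm t) G) s) (G s) := by
          refine lintegral_congr_ae ?_
          filter_upwards [h1, hGg] with s a1 a2
          rw [a1, a2]
  have h0 : Tendsto (fun t => V t v) (𝓝 0) (𝓝 v) := by
    rw [tendsto_iff_dist_tendsto_zero]
    exact squeeze_zero' (Eventually.of_forall fun t => dist_nonneg) hcmp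
      (tendsto_iff_dist_tendsto_zero.1 hlim)
  rw [continuous_iff_continuousAt]
  intro s
  have h1 : Tendsto (fun r => r - s) (𝓝 s) (𝓝 0) := by
    have : Tendsto (fun r => r - s) (𝓝 s) (𝓝 (s - s)) := tendsto_id.sub_const s
    rwa [sub_self] at this
  have h2 := ((V s).continuous.tendsto v).comp (h0.comp h1)
  show Tendsto (fun r => V r v) (𝓝 s) (𝓝 (V s v))
  refine h2.congr fun r => ?_
  show V s (V (r - s) v) = V r v
  rw [← hadd]
  congr 2
  ring

end Pool.Agent.Q183.BX
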