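import Pool.Agent.Q183.BX.Main

set_option autoImplicit false

/-!
Small transversal translations do not change an equivariant function of finite directional variation.
-/

namespace Pool.Agent.Q183.BX

open Complex Set MeasureTheory Filter Topology Pool.Agent.W780.PG Pool.Agent.W780.BB
open Pool.Agent.TH578.BE (UU isOpen_UU UU_sub UU_shift GG meas_GG VV)

open scoped Real ComplexConjugate

variable {n : ℕ} {E : Type*} [NormedAddCommGroup E] [NormedSpace ℝ E] [MeasurableSpace E]
  [BorelSpace E] [SecondCountableTopology E]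

theorem meas_TT {f : ℂ × ℝ → E} (hf : Measurable f) (δ : ℝ) : Measurable (TT f δ) := by
  unfold TT
  have : Continuous (fun x : ℂ × ℝ => ((x.1 + δ • (I * dir x.2), x.2) : ℂ × ℝ)) := by
    have := continuous_dir
    fun_prop
  exact ((hf.comp this.measurable).sub hf).norm

theorem chain_pt (f : ℂ × ℝ → E) (δ : ℝ) {k : ℕ} (hk : 0 < k) (x : ℂ × ℝ) :
    TT f δ x ≤ ∑ j ∈ Finset.range k,
      TT f (δ / k) (x.1 + ((j : ℝ) * (δ / k)) • (I * dir x.2), x.2) := by
  have hk0 : (0 : ℝ) < k := by exact_mod_cast hk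
  have h := dist_le_range_sum_dist
    (fun j : ℕ => f (x.1 + ((j : ℝ) * (δ / k)) • (I * dir x.2), x.2)) k
  simp only [Nat.cast_zero, zero_mul, zero_smul, add_zero] at h
  rw [mul_div_cancel₀ _ hk0.ne', dist_comm, dist_eq_norm] at h
  refine h.trans (Finset.sum_le_sum fun j _ => ?_)
  rw [dist_comm, dist_eq_norm]
  unfold TT
  simp only
  apply le_of_eq
  congr 3
  rw [add_assoc, ← add_smul]
  push_cast
  congr 3
  ring

theorem chain {p : Fin (n + 3) → ℂ} {f : ℂ × ℝ → E} (hf : Measurable f) {η δ : ℝ} (hδ : 0 < δ)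
    (hδη : δ < η) {k : ℕ} (hk : 0 < k) :
    ∫⁻ x in GG p (2 * η), ENNReal.ofReal (TT f δ x) ≤
      k * ∫⁻ x in GG p η, ENNReal.ofReal (TT f (δ / k) x) := by
  have hk0 : (0 : ℝ) < k := by exact_mod_cast hk
  have hη : 0 < η := hδ.trans hδη
  have hmp : ∀ j : ℕ, MeasurePreserving
      (fun x : ℂ × ℝ => (x.1 + ((j : ℝ) * (δ / k)) • (I * dir x.2), x.2)) := fun j =>
    shear (fun θ => ((j : ℝ) * (δ / k)) • (I * dir θ))
      (by have := continuous_dir; exact (by fun_prop : Continuous _).measurable)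
  have hm := (meas_TT hf (δ / k)).ennreal_ofReal
  calc ∫⁻ x in GG p (2 * η), ENNReal.ofReal (TT f δ x)
      ≤ ∫⁻ x in GG p (2 * η), ∑ j ∈ Finset.range k, ENNReal.ofReal
        (TT f (δ / k) (x.1 + ((j : ℝ) * (δ / k)) • (I * dir x.2), x.2)) := by
        refine lintegral_mono fun x => ?_
        calc ENNReal.ofReal (TT f δ x) ≤ ENNReal.ofReal (∑ j ∈ Finset.range k,
              TT f (δ / k) (x.1 + ((j : ℝ) * (δ / k)) • (I * dir x.2), x.2)) :=
              ENNReal.ofReal_le_ofReal (chain_pt f δ hk x)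
          _ = _ := ENNReal.ofReal_sum_of_nonneg (fun j _ => norm_nonneg _)
    _ = ∑ j ∈ Finset.range k, ∫⁻ x in GG p (2 * η), ENNReal.ofReal
        (TT f (δ / k) (x.1 + ((j : ℝ) * (δ / k)) • (I * dir x.2), x.2)) := by
        refine lintegral_finsetSum _ fun j _ => ?_
        exact hm.comp (hmp j).measurable
    _ ≤ ∑ j ∈ Finset.range k, ∫⁻ x in GG p η, ENNReal.ofReal (TT f (δ / k) x) := by
        refine Finset.sum_le_sum fun j hj => ?_
        rw [← (hmp j).setLIntegral_comp_preimage (meas_GG p η) hm]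
        refine lintegral_mono_set ?_
        rintro x ⟨hx1, hx2⟩
        refine ⟨?_, hx2⟩
        show x.1 + ((j : ℝ) * (δ / k)) • (I * dir x.2) ∈ UU (reg p) η
        rw [two_mul] at hx1
        refine UU_shift hη.le hη.le hx1 ?_
        have hj' : (j : ℝ) ≤ k := by exact_mod_cast (Finset.mem_range.1 hj).le
        have hn : ‖I * dir x.2‖ = 1 := by rw [norm_mul, norm_I, W780.BB.norm_dir, one_mul]
        rw [dist_eq_norm, add_sub_cancel_left, norm_smul, hn,
          Real.norm_eq_abs, abs_of_nonneg (by positivity), mul_one]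
        calc (j : ℝ) * (δ / k) ≤ k * (δ / k) := by gcongr
          _ = δ := mul_div_cancel₀ _ hk0.ne'
          _ ≤ η := hδη.le
    _ = k * ∫⁻ x in GG p η, ENNReal.ofReal (TT f (δ / k) x) := by
        rw [Finset.sum_const, Finset.card_range, nsmul_eq_mul]

theorem lim_f {p : Fin (n + 3) → ℂ} {f : ℂ × ℝ → E} (hf : Measurable f) {A : ℝ} (hA : 0 ≤ A)
    (hMain : ∀ T η : ℝ, 0 < T → 0 < η → ∀ᶠ h in 𝓝[>] (0 : ℝ),
      ∫⁻ x in GG p η, ENNReal.ofReal (TT f (T * Real.sin h) x) ≤ ENNReal.ofReal (A * h))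
    (η δ : ℝ) (hδ : 0 < δ) (hδη : δ < η) :
    ∫⁻ x in GG p (2 * η), ENNReal.ofReal (TT f δ x) = 0 := by
  have key : ∀ T : ℝ, 0 < T → ∫⁻ x in GG p (2 * η), ENNReal.ofReal (TT f δ x) ≤
      ENNReal.ofReal (A * (π / 2) * δ / T) := by
    intro T hT
    have hev := hMain T η hT (hδ.trans hδη)
    -- the sequence of angles
    have hx0 : Tendsto (fun k : ℕ => δ / (k * T)) atTop (𝓝 0) := by
      have h1 : Tendsto (fun k : ℕ => (k : ℝ) * T) atTop atTop :=
        tendsto_natCast_atTop_atTop.atTop_mul_const hT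
      exact tendsto_const_nhds.div_atTop h1
    have hh0 : Tendsto (fun k : ℕ => Real.arcsin (δ / (k * T))) atTop (𝓝[>] 0) := by
      rw [tendsto_nhdsWithin_iff]
      constructor
      · have := (Real.continuous_arcsin.tendsto 0).comp hx0
        rw [Real.arcsin_zero] at this
        exact this
      · filter_upwards [eventually_gt_atTop 0] with k hk
        have : (0 : ℝ) < k := by exact_mod_cast hk
        exact Real.arcsin_pos.2 (by positivity)
    have hsmall : ∀ᶠ k : ℕ in atTop, δ / (k * T) < 1 := hx0.eventually (gt_mem_nhds one_pos)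
    obtain ⟨k, hk1, hk2, hk3⟩ := ((hh0.eventually hev).and
      (hsmall.and (eventually_gt_atTop 0))).exists
    have hk0 : (0 : ℝ) < k := by exact_mod_cast hk3
    have hs : Real.sin (Real.arcsin (δ / (k * T))) = δ / (k * T) :=
      Real.sin_arcsin (by have : 0 < δ / (k * T) := by positivity
                          linarith) hk2.le
    have hTs : T * Real.sin (Real.arcsin (δ / (k * T))) = δ / k := by
      rw [hs]; field_simp
    rw [hTs] at hk1
    have hle : Real.arcsin (δ / (k * T)) ≤ (π / 2) * (δ / (k * T)) := by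
      have h1 := Real.mul_le_sin (x := Real.arcsin (δ / (k * T)))
        (Real.arcsin_nonneg.2 (by positivity)) (Real.arcsin_le_pi_div_two _)
      rw [hs] at h1
      have hpi := Real.pi_pos
      calc Real.arcsin (δ / (k * T)) = (π / 2) * (2 / π * Real.arcsin (δ / (k * T))) := by
            field_simp
        _ ≤ (π / 2) * (δ / (k * T)) := by gcongr
    calc ∫⁻ x in GG p (2 * η), ENNReal.ofReal (TT f δ x)
        ≤ k * ∫⁻ x in GG p η, ENNReal.ofReal (TT f (δ / k) x) := chain hf hδ hδη hk3
      _ ≤ k * ENNReal.ofReal (A * Real.arcsin (δ / (k * T))) := by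
          gcongr
      _ = ENNReal.ofReal (k * (A * Real.arcsin (δ / (k * T)))) := by
          rw [ENNReal.ofReal_mul hk0.le, ENNReal.ofReal_natCast]
      _ ≤ ENNReal.ofReal (A * (π / 2) * δ / T) := by
          refine ENNReal.ofReal_le_ofReal ?_
          calc k * (A * Real.arcsin (δ / (k * T))) ≤
                k * (A * ((π / 2) * (δ / (k * T)))) := by gcongr
            _ = A * (π / 2) * δ / T := by field_simp
  -- T to infinity
  have hlim : Tendsto (fun T : ℝ => ENNReal.ofReal (A * (π / 2) * δ / T)) atTop (𝓝 0) := by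
    have h1 : Tendsto (fun T : ℝ => A * (π / 2) * δ / T) atTop (𝓝 0) :=
      tendsto_const_nhds.div_atTop tendsto_id
    have := (ENNReal.continuous_ofReal.tendsto 0).comp h1
    rw [ENNReal.ofReal_zero] at this
    exact this
  refine le_antisymm ?_ zero_le
  refine ge_of_tendsto hlim ?_
  filter_upwards [eventually_gt_atTop (0 : ℝ)] with T hT
  exact key T hT

end Pool.Agent.Q183.BX
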