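import Pool.Agent.Q183.BX.Koop
import Pool.Agent.TH578.BE.Eff

set_option autoImplicit false

/-!
Small transversal translations do not change an equivariant function whose directional modulus is small
compared with `h log (1 / h)` along a sequence of angles.
-/

namespace Pool.Agent.Q183.BX

open Complex Set MeasureTheory Filter Topology Pool.Agent.W780.PG Pool.Agent.W780.BB
open Pool.Agent.W174.PG Pool.Agent.W82.BB
open Pool.Agent.TH578.BE (UU isOpen_UU UU_sub UU_shift GG meas_GG VV exist_exp bad_eff)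

open scoped Real ComplexConjugate

variable {n : ℕ} {E : Type*} [NormedAddCommGroup E] [NormedSpace ℝ E] [MeasurableSpace E]
  [BorelSpace E] [SecondCountableTopology E]

/-- the directional modulus -/
noncomputable def Dm (p : Fin (n + 3) → ℂ) (f : ℂ × ℝ → E) (h : ℝ) : ENNReal :=
  ∫⁻ x in phase p, ENNReal.ofReal (DD f h x)

/-- the error terms -/
noncomputable def er (a b h : ℝ) : ℝ := a * (-(Real.log h * h ^ (1 / 2 : ℝ))) + b * h

theorem tendsto_er (a b : ℝ) : Tendsto (er a b) (𝓝[>] 0) (𝓝 0) := by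
  have h1 : Tendsto (fun h : ℝ => Real.log h * h ^ (1 / 2 : ℝ)) (𝓝[>] 0) (𝓝 0) :=
    tendsto_log_mul_rpow_nhdsGT_zero (by norm_num)
  have h2 : Tendsto (fun h : ℝ => h) (𝓝[>] 0) (𝓝 0) := tendsto_id.mono_left nhdsWithin_le_nhds
  have h3 := (h1.neg.const_mul a).add (h2.const_mul b)
  rw [neg_zero, mul_zero, mul_zero, add_zero] at h3
  exact h3

theorem tendsto_hlog : Tendsto (fun h : ℝ => h * Real.log (1 / h)) (𝓝[>] 0) (𝓝 0) := by
  have h1 : Tendsto (fun h : ℝ => Real.log h * h ^ (1 : ℝ)) (𝓝[>] 0) (𝓝 0) :=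
    tendsto_log_mul_rpow_nhdsGT_zero (by norm_num)
  have h2 := h1.neg
  rw [neg_zero] at h2
  refine h2.congr fun h => ?_
  rw [Real.rpow_one, one_div, Real.log_inv]
  ring

theorem lim_log (hHull : S_Hull) (hB : S_Basic) (hRef : S_Ref) (hO : S_Open)
    (hU : S_Uniq) (hM : S_Mp) (hFan : S_Fan) (hX : S_Exit) (hUn : S_Unif)
    (hGen : S_Gen) (hFlow : S_Flow) {p : Fin (n + 3) → ℂ}
    (hp : IsConvexPolygon p) {V : ℝ → (E ≃ₗᵢ[ℝ] E)} {Cs : Fin (n + 3) → (E ≃ₗᵢ[ℝ] E)}
    (hG : IsGrp V Cs) {Λ : ℝ} (hΛ0 : 0 ≤ Λ)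
    {f : ℂ × ℝ → E} (hf : Measurable f) (hb : ∀ x, ‖f x‖ ≤ 1) (hI : IsEq p V Cs f)
    (hΛ : ∀ x s, ‖V s (f x) - f x‖ ≤ Λ * |s|)
    (hL : ∀ ε : ℝ, 0 < ε → ∃ᶠ h in 𝓝[>] (0 : ℝ),
      Dm p f h ≤ ENNReal.ofReal (ε * (h * Real.log (1 / h))))
    (η δ : ℝ) (hδ : 0 < δ) (hδη : δ < η) :
    ∫⁻ x in GG p (2 * η), ENNReal.ofReal (TT f δ x) = 0 := by
  have hpi := Real.pi_pos
  have hη : 0 < η := hδ.trans hδη
  obtain ⟨B, hB0, hBT⟩ := exist_exp hRef hX hUn hp
  obtain ⟨c, hc⟩ : ∃ c : ℝ, c = 1 / (4 * B) := ⟨_, rfl⟩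
  have hc0 : 0 < c := by rw [hc]; positivity
  have hV0 : 0 ≤ VV p := ENNReal.toReal_nonneg
  obtain ⟨a1, ha1⟩ : ∃ a1 : ℝ, a1 = 2 * π ^ 2 * δ * c * Real.exp (2 * B) := ⟨_, rfl⟩
  obtain ⟨b1, hb1⟩ : ∃ b1 : ℝ, b1 = π / 2 * δ * Λ * VV p := ⟨_, rfl⟩
  -- the bound for every `ε`
  have key : ∀ ε : ℝ, 0 < ε → ∫⁻ x in GG p (2 * η), ENNReal.ofReal (TT f δ x) ≤
      ENNReal.ofReal (6 * π * ε * δ / c + ε) := by
    intro ε hε
    have e1 : ∀ᶠ h in 𝓝[>] (0 : ℝ), er a1 b1 h < ε :=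
      (tendsto_er a1 b1).eventually (gt_mem_nhds hε)
    have e2 : ∀ᶠ h in 𝓝[>] (0 : ℝ), h * Real.log (1 / h) < min (δ / c) (η / c) :=
      tendsto_hlog.eventually (gt_mem_nhds (lt_min (by positivity) (by positivity)))
    have e3 : ∀ᶠ h in 𝓝[>] (0 : ℝ), 0 < h ∧ h < 1 := by
      filter_upwards [Ioo_mem_nhdsGT (zero_lt_one : (0 : ℝ) < 1)] with h hh using hh
    obtain ⟨h, hD, h1, h2, h0, hh1⟩ := ((hL ε hε).and_eventually (e1.and (e2.and e3))).exists
    obtain ⟨L, hLd⟩ : ∃ L : ℝ, L = Real.log (1 / h) := ⟨_, rfl⟩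
    have hlog : Real.log h = -L := by rw [hLd, one_div, Real.log_inv, neg_neg]
    have hL0 : 0 < L := by
      have := Real.log_neg h0 hh1
      linarith
    rw [← hLd] at hD h2
    have h2a : h * L < δ / c := lt_of_lt_of_le h2 (min_le_left _ _)
    have h2b : h * L < η / c := lt_of_lt_of_le h2 (min_le_right _ _)
    rw [lt_div_iff₀ hc0] at h2a h2b
    -- the sine
    have hhp : h ≤ π / 2 := by linarith [Real.pi_gt_three]
    have hs1 : Real.sin h ≤ h := Real.sin_le h0.le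
    have hs2 : 2 / π * h ≤ Real.sin h := Real.mul_le_sin h0.le hhp
    have hs0 : 0 < Real.sin h := lt_of_lt_of_le (by positivity) hs2
    have hs3 : h ≤ π / 2 * Real.sin h := by
      calc h = π / 2 * (2 / π * h) := by field_simp
        _ ≤ π / 2 * Real.sin h := by gcongr
    -- the number of steps
    obtain ⟨T0, hT0⟩ : ∃ T0 : ℝ, T0 = c * L := ⟨_, rfl⟩
    have hT00 : 0 < T0 := by rw [hT0]; positivity
    obtain ⟨k, hk⟩ : ∃ k : ℕ, k = ⌈δ / (T0 * Real.sin h)⌉₊ := ⟨_, rfl⟩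
    have hkpos : 0 < k := by rw [hk]; exact Nat.ceil_pos.2 (by positivity)
    have hk0 : (0 : ℝ) < k := by exact_mod_cast hkpos
    have hk1 : δ / (T0 * Real.sin h) ≤ k := by rw [hk]; exact Nat.le_ceil _
    have hk2 : (k : ℝ) < δ / (T0 * Real.sin h) + 1 := by
      rw [hk]; exact Nat.ceil_lt_add_one (by positivity)
    obtain ⟨T, hT⟩ : ∃ T : ℝ, T = δ / (k * Real.sin h) := ⟨_, rfl⟩
    have hTpos : 0 < T := by rw [hT]; positivity
    have hTk : T * Real.sin h = δ / k := by rw [hT]; field_simp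
    have hTk2 : k * Real.sin h * T = δ := by rw [hT]; field_simp
    have hTle : T ≤ T0 := by
      rw [hT, div_le_iff₀ (by positivity)]
      rw [div_le_iff₀ (by positivity)] at hk1
      linarith
    have hTge : T0 ≤ 2 * T := by
      have h3 : T0 * (k * Real.sin h) ≤ 2 * δ := by
        have h4 : (k : ℝ) * (T0 * Real.sin h) < (δ / (T0 * Real.sin h) + 1) * (T0 * Real.sin h) := by
          gcongr
        have h5 : (δ / (T0 * Real.sin h) + 1) * (T0 * Real.sin h) = δ + T0 * Real.sin h := by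
          field_simp
        have h6 : T0 * Real.sin h ≤ δ := by
          calc T0 * Real.sin h ≤ T0 * h := by gcongr
            _ = h * L * c := by rw [hT0]; ring
            _ ≤ δ := h2a.le
        rw [h5] at h4
        linarith
      rw [hT]
      have : T0 ≤ 2 * δ / (k * Real.sin h) := by
        rw [le_div_iff₀ (by positivity)]
        exact h3
      calc T0 ≤ 2 * δ / (k * Real.sin h) := this
        _ = 2 * (δ / (k * Real.sin h)) := by ring
    have hTh : T * h < η := by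
      calc T * h ≤ T0 * h := by gcongr
        _ = h * L * c := by rw [hT0]; ring
        _ < η := h2b
    -- the main estimate
    obtain ⟨K, hK, hVf, hcard⟩ := hBT T hTpos.le
    have hmain := main_eff hHull hB hRef hO hU hM hFan hGen hFlow hp hG hΛ0 hf hb hI hΛ T η hTpos hη K hK
      h hTh h0
    rw [hTk] at hmain
    have hbad := bad_eff hVf hcard hTpos h0 hh1.le
    have hexp : Real.exp (B * (T + 1)) ^ 2 = Real.exp (2 * B) * Real.exp (2 * B * T) := by
      rw [sq, ← Real.exp_add, ← Real.exp_add]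
      congr 1
      ring
    have hexp2 : Real.exp (2 * B * T) ≤ h ^ (-(1 / 2) : ℝ) := by
      rw [Real.rpow_def_of_pos h0, hlog]
      apply Real.exp_le_exp.2
      calc 2 * B * T ≤ 2 * B * T0 := by gcongr
        _ = -L * -(1 / 2) := by
            rw [hT0, hc]
            field_simp
            ring
    have hkh : (k : ℝ) * h ≤ π / 2 * δ / T := by
      rw [le_div_iff₀ hTpos]
      calc (k : ℝ) * h * T ≤ k * (π / 2 * Real.sin h) * T := by gcongr
        _ = π / 2 * (k * Real.sin h * T) := by ring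
        _ = π / 2 * δ := by rw [hTk2]
    -- the three terms
    have t1 : (k : ℝ) * (6 * (ε * (h * L))) ≤ 6 * π * ε * δ / c := by
      calc (k : ℝ) * (6 * (ε * (h * L))) = 6 * ε * L * (k * h) := by ring
        _ ≤ 6 * ε * L * (π / 2 * δ / T) := by gcongr
        _ = 3 * π * ε * δ * (L / T) := by ring
        _ ≤ 3 * π * ε * δ * (2 / c) := by
            refine mul_le_mul_of_nonneg_left ?_ (by positivity)
            rw [div_le_div_iff₀ hTpos hc0]
            linarith [hTge, hT0]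
        _ = 6 * π * ε * δ / c := by ring
    have t2 : (k : ℝ) * (Λ * (T * h ^ 2) * VV p) ≤ b1 * h := by
      calc (k : ℝ) * (Λ * (T * h ^ 2) * VV p) = (k * h) * (Λ * T * VV p * h) := by ring
        _ ≤ (π / 2 * δ / T) * (Λ * T * VV p * h) := by gcongr
        _ = b1 * h := by rw [hb1]; field_simp
    have t3 : (k : ℝ) * (2 * (Real.exp (B * (T + 1)) ^ 2 * (2 * π * T ^ 2 * h ^ 2))) ≤
        a1 * (-(Real.log h * h ^ (1 / 2 : ℝ))) := by
      have hh12 : h ^ (-(1 / 2) : ℝ) * h = h ^ (1 / 2 : ℝ) := by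
        have : h ^ (1 / 2 : ℝ) = h ^ (-(1 / 2) + 1 : ℝ) := by norm_num
        rw [this, Real.rpow_add h0, Real.rpow_one]
      calc (k : ℝ) * (2 * (Real.exp (B * (T + 1)) ^ 2 * (2 * π * T ^ 2 * h ^ 2)))
          = (k * h) * (4 * π * T ^ 2 * h * (Real.exp (2 * B) * Real.exp (2 * B * T))) := by
            rw [hexp]; ring
        _ ≤ (π / 2 * δ / T) * (4 * π * T ^ 2 * h * (Real.exp (2 * B) * h ^ (-(1 / 2) : ℝ))) := by
            gcongr
        _ = 2 * π ^ 2 * δ * T * Real.exp (2 * B) * (h ^ (-(1 / 2) : ℝ) * h) := by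
            field_simp
            ring
        _ ≤ 2 * π ^ 2 * δ * T0 * Real.exp (2 * B) * (h ^ (-(1 / 2) : ℝ) * h) := by
            gcongr
        _ = a1 * (-(Real.log h * h ^ (1 / 2 : ℝ))) := by
            rw [hh12, hlog, ha1, hT0]
            ring
    have t4 : (k : ℝ) * (6 * (ε * (h * L)) + (Λ * (T * h ^ 2) * VV p +
        2 * (Real.exp (B * (T + 1)) ^ 2 * (2 * π * T ^ 2 * h ^ 2)))) ≤
        6 * π * ε * δ / c + ε := by
      have h7 : er a1 b1 h = a1 * (-(Real.log h * h ^ (1 / 2 : ℝ))) + b1 * h := rfl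
      rw [h7] at h1
      rw [mul_add, mul_add]
      linarith
    have hεL : 0 ≤ ε * (h * L) := by positivity
    have hm2 : ∫⁻ x in GG p η, ENNReal.ofReal (TT f (δ / k) x) ≤
        ENNReal.ofReal (6 * (ε * (h * L)) + (Λ * (T * h ^ 2) * VV p +
        2 * (Real.exp (B * (T + 1)) ^ 2 * (2 * π * T ^ 2 * h ^ 2)))) := by
      refine hmain.trans ?_
      rw [ENNReal.ofReal_add (by positivity) (by positivity),
        ENNReal.ofReal_add (by positivity) (by positivity),
        ENNReal.ofReal_mul (p := 6) (by norm_num), ENNReal.ofReal_mul (p := 2) (by norm_num)]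
      have h6 : ENNReal.ofReal 6 = 6 := by norm_num
      have h2' : ENNReal.ofReal 2 = 2 := by norm_num
      rw [h6, h2']
      gcongr
      exact hD
    calc ∫⁻ x in GG p (2 * η), ENNReal.ofReal (TT f δ x)
        ≤ k * ∫⁻ x in GG p η, ENNReal.ofReal (TT f (δ / k) x) := chain hf hδ hδη hkpos
      _ ≤ k * ENNReal.ofReal (6 * (ε * (h * L)) + (Λ * (T * h ^ 2) * VV p +
        2 * (Real.exp (B * (T + 1)) ^ 2 * (2 * π * T ^ 2 * h ^ 2)))) := by gcongr
      _ = ENNReal.ofReal (k * (6 * (ε * (h * L)) + (Λ * (T * h ^ 2) * VV p +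
        2 * (Real.exp (B * (T + 1)) ^ 2 * (2 * π * T ^ 2 * h ^ 2))))) := by
          rw [ENNReal.ofReal_mul hk0.le, ENNReal.ofReal_natCast]
      _ ≤ ENNReal.ofReal (6 * π * ε * δ / c + ε) := ENNReal.ofReal_le_ofReal t4
  -- `ε → 0`
  have hlim : Tendsto (fun ε : ℝ => ENNReal.ofReal (6 * π * ε * δ / c + ε)) (𝓝[>] 0) (𝓝 0) := by
    have h1 : Tendsto (fun ε : ℝ => 6 * π * ε * δ / c + ε) (𝓝 0) (𝓝 (6 * π * 0 * δ / c + 0)) :=
      Continuous.tendsto (by fun_prop) 0
    have h2 : (6 * π * 0 * δ / c + 0 : ℝ) = 0 := by ring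
    rw [h2] at h1
    have h3 : Tendsto (fun ε : ℝ => 6 * π * ε * δ / c + ε) (𝓝[>] 0) (𝓝 0) :=
      h1.mono_left nhdsWithin_le_nhds
    have := (ENNReal.continuous_ofReal.tendsto 0).comp h3
    rw [ENNReal.ofReal_zero] at this
    exact this
  refine le_antisymm ?_ zero_le
  refine ge_of_tendsto hlim ?_
  filter_upwards [self_mem_nhdsWithin] with ε hε
  exact key ε hε

end Pool.Agent.Q183.BX
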