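import Pool.Agent.Q183.BX.Abs
import Pool.Agent.Q183.BX.Gen2

set_option autoImplicit false

/-!
Functions of the direction of finite variation with two reflection relations are Lipschitz.
-/

namespace Pool.Agent.Q183.BX

open Set MeasureTheory Filter Topology

open scoped Real ENNReal

variable {E : Type*} [NormedAddCommGroup E] [NormedSpace ℝ E] [MeasurableSpace E]
  [BorelSpace E] [SecondCountableTopology E] [CompleteSpace E]

theorem evar_mg {g : ℝ → E} (hg : Measurable g) (hb : ∀ x, ‖g x‖ ≤ 1) {ε : ℝ} (hε : 0 < ε)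
    {A B : ℝ} (hAB : A ≤ B) :
    eVariationOn (mg g ε) (Icc A B) ≤ ENNReal.ofReal (ε⁻¹ * ∫ s in A..B, ‖g (s + ε) - g s‖) := by
  have hD : Measurable fun s : ℝ => ‖g (s + ε) - g s‖ :=
    ((hg.comp (measurable_id.add_const ε)).sub hg).norm
  have hI : ∀ x y : ℝ, IntervalIntegrable (fun s : ℝ => ‖g (s + ε) - g s‖) volume x y := by
    intro x y
    rw [intervalIntegrable_iff]
    refine Measure.integrableOn_of_bounded (M := 2) ?_ hD.aestronglyMeasurable
      (Eventually.of_forall fun s => ?_)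
    · rw [uIoc, Real.volume_Ioc]
      exact ENNReal.ofReal_ne_top
    · rw [Real.norm_eq_abs, abs_of_nonneg (norm_nonneg _)]
      refine (norm_sub_le _ _).trans ?_
      linarith [hb (s + ε), hb s]
  have hpos : ∀ x y : ℝ, x ≤ y → 0 ≤ ∫ s in x..y, ‖g (s + ε) - g s‖ := fun x y hxy =>
    intervalIntegral.integral_nonneg hxy fun s _ => norm_nonneg _
  unfold eVariationOn
  refine iSup_le fun q => ?_
  obtain ⟨N, u, hu, hus⟩ := q
  simp only
  calc ∑ i ∈ Finset.range N, edist (mg g ε (u (i + 1))) (mg g ε (u i))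
      ≤ ∑ i ∈ Finset.range N,
          ENNReal.ofReal (ε⁻¹ * ∫ s in (u i)..(u (i + 1)), ‖g (s + ε) - g s‖) := by
        refine Finset.sum_le_sum fun i _ => ?_
        rw [edist_dist, dist_eq_norm]
        exact ENNReal.ofReal_le_ofReal (mg_sub hg hb hε (hu (Nat.le_succ i)))
    _ = ENNReal.ofReal (ε⁻¹ * ∫ s in (u 0)..(u N), ‖g (s + ε) - g s‖) := by
        rw [← ENNReal.ofReal_sum_of_nonneg (fun i _ => mul_nonneg (by positivity)
          (hpos _ _ (hu (Nat.le_succ i)))), ← Finset.mul_sum,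
          intervalIntegral.sum_integral_adjacent_intervals (fun k _ => hI _ _)]
    _ ≤ ENNReal.ofReal (ε⁻¹ * ∫ s in A..B, ‖g (s + ε) - g s‖) := by
        refine ENNReal.ofReal_le_ofReal (mul_le_mul_of_nonneg_left ?_ (by positivity))
        have h0 := hus 0
        have hN := hus N
        have h0N : u 0 ≤ u N := hu (Nat.zero_le N)
        rw [← intervalIntegral.integral_add_adjacent_intervals (hI A (u 0)) (hI (u 0) B),
          ← intervalIntegral.integral_add_adjacent_intervals (hI (u 0) (u N)) (hI (u N) B)]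
        have e1 := hpos A (u 0) h0.1
        have e2 := hpos (u N) B hN.2
        linarith

/-- finite variation on the Lebesgue points -/
theorem evar_fin {g : ℝ → E} (hg : Measurable g) (hb : ∀ x, ‖g x‖ ≤ 1)
    (hper : ∀ x, g (x + 2 * π) = g x) {C' : ℝ}
    (hC' : ∀ ε : ℝ, 0 < ε → ε < 1 → ∫ x in (0 : ℝ)..(2 * π), ‖g (x + ε) - g x‖ ≤ C' * ε)
    {F : Set ℝ} (hF : ∀ x ∈ F, Tendsto (fun m : ℕ => mg g (1 / ((m : ℝ) + 2)) x) atTop (𝓝 (g x)))
    {A B : ℝ} (hAB : A ≤ B) : eVariationOn g (F ∩ Icc A B) ≠ ⊤ := by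
  have hpi := Real.pi_pos
  obtain ⟨N, hN⟩ := exists_nat_gt ((B - A) / (2 * π))
  rw [div_lt_iff₀ (by positivity)] at hN
  have hbound : ∀ m : ℕ, eVariationOn (mg g (1 / ((m : ℝ) + 2))) (F ∩ Icc A B) ≤
      ENNReal.ofReal (N * C') := by
    intro m
    obtain ⟨ε, hε⟩ : ∃ ε : ℝ, ε = 1 / ((m : ℝ) + 2) := ⟨_, rfl⟩
    have hε0 : 0 < ε := by rw [hε]; positivity
    have hε1 : ε < 1 := by
      rw [hε, div_lt_one (by positivity)]
      have : (0 : ℝ) ≤ m := Nat.cast_nonneg m
      linarith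
    rw [← hε]
    have hD : Measurable fun s : ℝ => ‖g (s + ε) - g s‖ :=
      ((hg.comp (measurable_id.add_const ε)).sub hg).norm
    have hI : ∀ x y : ℝ, IntervalIntegrable (fun s : ℝ => ‖g (s + ε) - g s‖) volume x y := by
      intro x y
      rw [intervalIntegrable_iff]
      refine Measure.integrableOn_of_bounded (M := 2) ?_ hD.aestronglyMeasurable
        (Eventually.of_forall fun s => ?_)
      · rw [uIoc, Real.volume_Ioc]
        exact ENNReal.ofReal_ne_top
      · rw [Real.norm_eq_abs, abs_of_nonneg (norm_nonneg _)]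
        refine (norm_sub_le _ _).trans ?_
        linarith [hb (s + ε), hb s]
    refine (eVariationOn.mono _ inter_subset_right).trans ((evar_mg hg hb hε0 hAB).trans ?_)
    refine ENNReal.ofReal_le_ofReal ?_
    have hP : Function.Periodic (fun s : ℝ => ‖g (s + ε) - g s‖) (2 * π) := by
      intro s
      have e : s + 2 * π + ε = s + ε + 2 * π := by ring
      simp only [e, hper]
    have h1 : ∫ s in A..B, ‖g (s + ε) - g s‖ ≤
        ∫ s in A..(A + (N : ℤ) • (2 * π)), ‖g (s + ε) - g s‖ := by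
      have e1 := intervalIntegral.integral_add_adjacent_intervals (hI A B)
        (hI B (A + (N : ℤ) • (2 * π)))
      have : 0 ≤ ∫ s in B..(A + (N : ℤ) • (2 * π)), ‖g (s + ε) - g s‖ := by
        refine intervalIntegral.integral_nonneg ?_ fun s _ => norm_nonneg _
        rw [zsmul_eq_mul]
        push_cast
        linarith
      linarith
    have h2 := hP.intervalIntegral_add_zsmul_eq (N : ℤ) A hI
    have h3 := hP.intervalIntegral_add_eq A 0
    rw [zero_add] at h3
    rw [h2, h3, zsmul_eq_mul] at h1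
    push_cast at h1
    have h4 := hC' ε hε0 hε1
    have hN0 : (0 : ℝ) ≤ N := Nat.cast_nonneg N
    calc ε⁻¹ * ∫ s in A..B, ‖g (s + ε) - g s‖ ≤ ε⁻¹ * (N * (C' * ε)) := by
          refine mul_le_mul_of_nonneg_left (h1.trans ?_) (by positivity)
          exact mul_le_mul_of_nonneg_left h4 hN0
      _ = N * C' := by field_simp
  have hle : eVariationOn g (F ∩ Icc A B) ≤ ENNReal.ofReal (N * C') := by
    by_contra hcon
    push Not at hcon
    have := eVariationOn.lowerSemicontinuous_aux (p := atTop)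
      (F := fun (m : ℕ) => mg g (1 / ((m : ℝ) + 2))) (f := g) (s := F ∩ Icc A B)
      (fun x hx => hF x hx.1) hcon
    obtain ⟨m, hm⟩ := this.exists
    exact absurd (hbound m) (not_le.2 hm)
  exact (hle.trans_lt ENNReal.ofReal_lt_top).ne

/-- the sign of the sine does not change without a zero -/
theorem sign_const {a x y : ℝ} (h : ∀ z ∈ Icc x y, Real.sin (z - a) ≠ 0) {z : ℝ}
    (hz : z ∈ Icc x y) : Real.sin (z - a) < 0 ↔ Real.sin (x - a) < 0 := by
  have hxz : x ≤ z := hz.1
  have hc : ContinuousOn (fun z : ℝ => Real.sin (z - a)) (Icc x z) := by fun_prop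
  have hx : x ∈ Icc x y := ⟨le_refl _, hz.1.trans hz.2⟩
  constructor
  · intro h1
    by_contra h2
    push Not at h2
    obtain ⟨w, hw, hw0⟩ := intermediate_value_Icc' hxz hc (show (0 : ℝ) ∈ Icc _ _ from ⟨h1.le, h2⟩)
    exact h w ⟨hw.1, hw.2.trans hz.2⟩ hw0
  · intro h1
    by_contra h2
    push Not at h2
    obtain ⟨w, hw, hw0⟩ := intermediate_value_Icc hxz hc (show (0 : ℝ) ∈ Icc _ _ from ⟨h1.le, h2⟩)
    exact h w ⟨hw.1, hw.2.trans hz.2⟩ hw0

omit [MeasurableSpace E] [BorelSpace E] [SecondCountableTopology E] [CompleteSpace E] in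
theorem sw_const {C : E ≃ₗᵢ[ℝ] E} {a x y : ℝ} (h : ∀ z ∈ Icc x y, Real.sin (z - a) ≠ 0) {z : ℝ}
    (hz : z ∈ Icc x y) : sw C a z = sw C a x := by
  unfold sw
  rw [if_congr (sign_const h hz) rfl rfl]

omit [MeasurableSpace E] [BorelSpace E] [SecondCountableTopology E] [CompleteSpace E] in
theorem evar_iso (W : E ≃ₗᵢ[ℝ] E) (g : ℝ → E) (s : Set ℝ) :
    eVariationOn (fun z => W (g z)) s = eVariationOn g s := by
  unfold eVariationOn
  simp only [W.isometry.edist_eq]

/-- the Lipschitz condition on a set of full measure -/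
theorem lip_dir {g : ℝ → E} (hg : Measurable g) (hb : ∀ x, ‖g x‖ ≤ 1)
    (hper : ∀ x, g (x + 2 * π) = g x) {C' : ℝ}
    (hC' : ∀ ε : ℝ, 0 < ε → ε < 1 → ∫ x in (0 : ℝ)..(2 * π), ‖g (x + ε) - g x‖ ≤ C' * ε)
    {a b : ℝ} (hirr : Irrational ((a - b) / π)) {Ca Cb : E ≃ₗᵢ[ℝ] E}
    (h1 : ∀ᵐ θ : ℝ, g (2 * a - θ) = sw Ca a θ (g θ))
    (h2 : ∀ᵐ θ : ℝ, g (2 * b - θ) = sw Cb b θ (g θ)) :
    ∃ F : Set ℝ, (∀ᵐ x : ℝ, x ∈ F) ∧ ∃ K : ℝ, 0 ≤ K ∧
      ∀ x ∈ F, ∀ y ∈ F, ‖g y - g x‖ ≤ K * |y - x| := by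
  -- the good points
  let Good : ℝ → Prop := fun x =>
    Tendsto (fun m : ℕ => mg g (1 / ((m : ℝ) + 2)) x) atTop (𝓝 (g x)) ∧
    g (2 * a - x) = sw Ca a x (g x) ∧ g (2 * b - x) = sw Cb b x (g x) ∧
    Real.sin (x - a) ≠ 0 ∧ Real.sin (x - b) ≠ 0
  have hzero : ∀ c : ℝ, ∀ᵐ x : ℝ, Real.sin (x - c) ≠ 0 := by
    intro c
    have hcount : {x : ℝ | Real.sin (x - c) = 0}.Countable := by
      refine (countable_range fun k : ℤ => (k : ℝ) * π + c).mono fun x hx => ?_
      obtain ⟨k, hk⟩ := Real.sin_eq_zero_iff.1 hx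
      exact ⟨k, by simp only [hk]; ring⟩
    exact measure_eq_zero_iff_ae_notMem.1 (hcount.measure_zero volume)
  have hGood : ∀ᵐ x : ℝ, Good x := by
    have hseq : Tendsto (fun m : ℕ => 1 / ((m : ℝ) + 2)) atTop (𝓝[>] 0) := by
      refine tendsto_nhdsWithin_iff.2 ⟨?_, Eventually.of_forall fun m => by
        show (0 : ℝ) < 1 / ((m : ℝ) + 2)
        positivity⟩
      have h3 : Tendsto (fun m : ℕ => (m : ℝ) + 2) atTop atTop :=
        tendsto_atTop_add_const_right _ _ tendsto_natCast_atTop_atTop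
      exact tendsto_const_nhds.div_atTop h3
    filter_upwards [tendsto_mg hg hb, h1, h2, hzero a, hzero b] with x x1 x2 x3 x4 x5
    exact ⟨x1.comp hseq, x2, x3, x4, x5⟩
  let F : Set ℝ := {x | ∀ m k : ℤ, Good (x + (m * (2 * (a - b)) + k * (2 * π))) ∧
    Good (2 * a - x + (m * (2 * (a - b)) + k * (2 * π)))}
  have hFd : ∀ x, x ∈ F ↔ ∀ m k : ℤ, Good (x + (m * (2 * (a - b)) + k * (2 * π))) ∧
    Good (2 * a - x + (m * (2 * (a - b)) + k * (2 * π))) := fun x => Iff.rfl
  have hFae : ∀ᵐ x : ℝ, x ∈ F := by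
    simp only [hFd]
    rw [ae_all_iff]
    intro m
    rw [ae_all_iff]
    intro k
    have q1 := (measurePreserving_add_right (volume : Measure ℝ)
      (m * (2 * (a - b)) + k * (2 * π))).quasiMeasurePreserving.ae hGood
    have q2 := (Measure.measurePreserving_sub_left (volume : Measure ℝ)
      (2 * a + (m * (2 * (a - b)) + k * (2 * π)))).quasiMeasurePreserving.ae hGood
    filter_upwards [q1, q2] with x x1 x2
    refine ⟨x1, ?_⟩
    have e : 2 * a - x + (m * (2 * (a - b)) + k * (2 * π)) =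
        2 * a + (m * (2 * (a - b)) + k * (2 * π)) - x := by ring
    rw [e]
    exact x2
  have hFgood : ∀ x ∈ F, Good x := by
    intro x hx
    have := ((hFd x).1 hx 0 0).1
    simpa using this
  have fa : ∀ x ∈ F, 2 * a - x ∈ F := by
    intro x hx
    rw [hFd]
    intro m k
    refine ⟨((hFd x).1 hx m k).2, ?_⟩
    have := ((hFd x).1 hx m k).1
    have e : 2 * a - (2 * a - x) + (m * (2 * (a - b)) + k * (2 * π)) =
        x + (m * (2 * (a - b)) + k * (2 * π)) := by ring
    rwa [e]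
  have fb : ∀ x ∈ F, 2 * b - x ∈ F := by
    intro x hx
    rw [hFd]
    intro m k
    constructor
    · have := ((hFd x).1 hx (m - 1) k).2
      have e : 2 * b - x + (m * (2 * (a - b)) + k * (2 * π)) =
          2 * a - x + (((m - 1 : ℤ) : ℝ) * (2 * (a - b)) + k * (2 * π)) := by
        push_cast
        ring
      rwa [e]
    · have := ((hFd x).1 hx (m + 1) k).1
      have e : 2 * a - (2 * b - x) + (m * (2 * (a - b)) + k * (2 * π)) =
          x + (((m + 1 : ℤ) : ℝ) * (2 * (a - b)) + k * (2 * π)) := by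
        push_cast
        ring
      rwa [e]
  have fp : ∀ x ∈ F, x + 2 * π ∈ F := by
    intro x hx
    rw [hFd]
    intro m k
    constructor
    · have := ((hFd x).1 hx m (k + 1)).1
      have e : x + 2 * π + (m * (2 * (a - b)) + k * (2 * π)) =
          x + (m * (2 * (a - b)) + ((k + 1 : ℤ) : ℝ) * (2 * π)) := by
        push_cast
        ring
      rwa [e]
    · have := ((hFd x).1 hx m (k - 1)).2
      have e : 2 * a - (x + 2 * π) + (m * (2 * (a - b)) + k * (2 * π)) =
          2 * a - x + (m * (2 * (a - b)) + ((k - 1 : ℤ) : ℝ) * (2 * π)) := by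
        push_cast
        ring
      rwa [e]
  have fm : ∀ x ∈ F, x - 2 * π ∈ F := by
    intro x hx
    rw [hFd]
    intro m k
    constructor
    · have := ((hFd x).1 hx m (k - 1)).1
      have e : x - 2 * π + (m * (2 * (a - b)) + k * (2 * π)) =
          x + (m * (2 * (a - b)) + ((k - 1 : ℤ) : ℝ) * (2 * π)) := by
        push_cast
        ring
      rwa [e]
    · have := ((hFd x).1 hx m (k + 1)).2
      have e : 2 * a - (x - 2 * π) + (m * (2 * (a - b)) + k * (2 * π)) =
          2 * a - x + (m * (2 * (a - b)) + ((k + 1 : ℤ) : ℝ) * (2 * π)) := by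
        push_cast
        ring
      rwa [e]
  -- the variation
  let v : ℝ → ℝ → ℝ := fun x y => (eVariationOn g (F ∩ Icc x y)).toReal
  have hfin : ∀ x y, x ≤ y → eVariationOn g (F ∩ Icc x y) ≠ ⊤ := fun x y hxy =>
    evar_fin hg hb hper hC' (fun z hz => (hFgood z hz).1) hxy
  have hrefl : ∀ (c : ℝ) (C : E ≃ₗᵢ[ℝ] E), (∀ x ∈ F, 2 * c - x ∈ F) →
      (∀ x ∈ F, g (2 * c - x) = sw C c x (g x)) → ∀ x ∈ F, ∀ y ∈ F, x ≤ y →
      (∀ z ∈ Icc x y, Real.sin (z - c) ≠ 0) → v (2 * c - y) (2 * c - x) = v x y := by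
    intro c C fc hgc x hx y hy hxy hsin
    show (eVariationOn g (F ∩ Icc (2 * c - y) (2 * c - x))).toReal =
      (eVariationOn g (F ∩ Icc x y)).toReal
    congr 1
    have himg : F ∩ Icc (2 * c - y) (2 * c - x) = (fun z => 2 * c - z) '' (F ∩ Icc x y) := by
      ext z
      constructor
      · rintro ⟨z1, z2, z3⟩
        exact ⟨2 * c - z, ⟨fc z z1, by linarith, by linarith⟩, by ring⟩
      · rintro ⟨w, ⟨w1, w2, w3⟩, rfl⟩
        exact ⟨fc w w1, by simp only; linarith, by simp only; linarith⟩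
    have hanti : AntitoneOn (fun z : ℝ => 2 * c - z) (F ∩ Icc x y) := fun z _ w _ hzw => by
      simp only
      linarith
    rw [himg, ← eVariationOn.comp_eq_of_antitoneOn g _ hanti, ← evar_iso (sw C c x) g]
    refine eVariationOn.congr fun z hz => ?_
    simp only [Function.comp_apply]
    rw [hgc z hz.1, sw_const hsin hz.2]
  have hInt : IntF F v a b := by
    refine ⟨?_, fun x _ y _ _ => ENNReal.toReal_nonneg, fun x hx y hy z hz hxy hyz => ?_, fa, fb,
      fp, fm, fun x hx y hy hxy => ?_,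
      hrefl a Ca fa (fun x hx => (hFgood x hx).2.1), hrefl b Cb fb (fun x hx => (hFgood x hx).2.2.1),
      fun x hx => (hFgood x hx).2.2.2.1, fun x hx => (hFgood x hx).2.2.2.2⟩
    · exact Measure.dense_of_ae hFae
    · show (eVariationOn g (F ∩ Icc x y)).toReal + (eVariationOn g (F ∩ Icc y z)).toReal =
        (eVariationOn g (F ∩ Icc x z)).toReal
      rw [← ENNReal.toReal_add (hfin x y hxy) (hfin y z hyz), eVariationOn.Icc_add_Icc g hxy hyz hy]
    · show (eVariationOn g (F ∩ Icc (x + 2 * π) (y + 2 * π))).toReal =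
        (eVariationOn g (F ∩ Icc x y)).toReal
      congr 1
      have himg : F ∩ Icc (x + 2 * π) (y + 2 * π) = (fun z => z + 2 * π) '' (F ∩ Icc x y) := by
        ext z
        constructor
        · rintro ⟨z1, z2, z3⟩
          exact ⟨z - 2 * π, ⟨fm z z1, by linarith, by linarith⟩, by ring⟩
        · rintro ⟨w, ⟨w1, w2, w3⟩, rfl⟩
          exact ⟨fp w w1, by simp only; linarith, by simp only; linarith⟩
      have hmono : MonotoneOn (fun z : ℝ => z + 2 * π) (F ∩ Icc x y) := fun z _ w _ hzw => by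
        simp only
        linarith
      rw [himg, ← eVariationOn.comp_eq_of_monotoneOn g _ hmono]
      refine eVariationOn.congr fun z hz => ?_
      simp only [Function.comp_apply]
      rw [hper]
  obtain ⟨K, hK0, hK⟩ := hInt.lip hirr
  refine ⟨F, hFae, K, hK0, ?_⟩
  have key : ∀ x ∈ F, ∀ y ∈ F, x ≤ y → ‖g y - g x‖ ≤ K * (y - x) := by
    intro x hx y hy hxy
    refine le_trans ?_ (hK x hx y hy hxy)
    have h3 : edist (g x) (g y) ≤ eVariationOn g (F ∩ Icc x y) :=
      eVariationOn.edist_le g ⟨hx, le_refl _, hxy⟩ ⟨hy, hxy, le_refl _⟩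
    have h4 := ENNReal.toReal_mono (hfin x y hxy) h3
    rw [edist_dist, ENNReal.toReal_ofReal dist_nonneg, dist_comm, dist_eq_norm] at h4
    exact h4
  intro x hx y hy
  rcases le_total x y with h3 | h3
  · rw [abs_of_nonneg (by linarith)]
    exact key x hx y hy h3
  · rw [norm_sub_rev, abs_sub_comm, abs_of_nonneg (by linarith)]
    exact key y hy x hx h3

end Pool.Agent.Q183.BX
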