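import Pool.Agent.Q183.BX.Inv
import Pool.Agent.TH578.BE.Lim

set_option autoImplicit false

/-!
The main estimate for functions with values in a normed space.
-/

namespace Pool.Agent.Q183.BX

open Complex Set MeasureTheory Filter Topology Pool.Agent.W780.PG Pool.Agent.W780.BB
open Pool.Agent.TH578.BE (UU isOpen_UU UU_sub UU_shift GG meas_GG VV CS QQ meas_QQ QQ_nonneg le_QQ flow_f strip_f)

open scoped Real ComplexConjugate

variable {n : ℕ} {E : Type*} [NormedAddCommGroup E] [NormedSpace ℝ E] [MeasurableSpace E]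
  [BorelSpace E] [SecondCountableTopology E]

/-- the change of `f` if the direction is turned by `h` -/
noncomputable def DD (f : ℂ × ℝ → E) (h : ℝ) (x : ℂ × ℝ) : ℝ := ‖f (x.1, x.2 + h) - f x‖

theorem meas_DD {f : ℂ × ℝ → E} (hf : Measurable f) (h : ℝ) : Measurable (DD f h) := by
  unfold DD
  exact ((hf.comp (measurable_fst.prodMk (measurable_snd.add_const h))).sub hf).norm

theorem DD_nonneg (f : ℂ × ℝ → E) (h : ℝ) (x : ℂ × ℝ) : 0 ≤ DD f h x := norm_nonneg _

theorem per_DD {f : ℂ × ℝ → E} (hper : ∀ z θ, f (z, θ + 2 * π) = f (z, θ)) (h : ℝ) :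
    ∀ z θ, DD f h (z, θ + 2 * π) = DD f h (z, θ) := by
  intro z θ
  unfold DD
  simp only
  rw [hper, show θ + 2 * π + h = θ + h + 2 * π by ring, hper]

theorem neg_f {p : Fin (n + 3) → ℂ} (hreg : MeasurableSet (region p)) {f : ℂ × ℝ → E}
    (hf : Measurable f) (hper : ∀ z θ, f (z, θ + 2 * π) = f (z, θ)) (h : ℝ) :
    ∫⁻ x in phase p, ENNReal.ofReal (DD f (-h) x) =
      ∫⁻ x in phase p, ENNReal.ofReal (DD f h x) := by
  have hRm : MeasurableSet (region p ×ˢ univ : Set (ℂ × ℝ)) := hreg.prod MeasurableSet.univ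
  set q : ℂ × ℝ → ℝ := (region p ×ˢ univ : Set (ℂ × ℝ)).indicator (DD f h) with hq
  have hqm : Measurable q := (meas_DD hf h).indicator hRm
  have hq0 : ∀ x, 0 ≤ q x := fun x => indicator_nonneg (fun _ _ => DD_nonneg f h _) x
  have hqp : ∀ z θ, q (z, θ + 2 * π) = q (z, θ) := by
    intro z θ
    rw [hq]
    by_cases hz : z ∈ region p
    · rw [indicator_of_mem (by exact ⟨hz, mem_univ _⟩), indicator_of_mem (by exact ⟨hz, mem_univ _⟩)]
      exact per_DD hper h z θ
    · rw [indicator_of_notMem (fun hh => hz hh.1), indicator_of_notMem (fun hh => hz hh.1)]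
  have hstr : ∀ a b : ℝ, MeasurableSet (univ ×ˢ Ico a b : Set (ℂ × ℝ)) := fun a b =>
    MeasurableSet.univ.prod measurableSet_Ico
  have hkey : ∀ a b : ℝ, ∫⁻ x in (univ ×ˢ Ico a b : Set (ℂ × ℝ)), ENNReal.ofReal (q x) =
      ∫⁻ x in (region p ×ˢ Ico a b : Set (ℂ × ℝ)), ENNReal.ofReal (DD f h x) := by
    intro a b
    have e1 : (fun x => ENNReal.ofReal (q x)) =
        (region p ×ˢ univ : Set (ℂ × ℝ)).indicator (fun x => ENNReal.ofReal (DD f h x)) := by
      funext x
      rw [hq]
      by_cases hx : x ∈ (region p ×ˢ univ : Set (ℂ × ℝ))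
      · rw [indicator_of_mem hx, indicator_of_mem hx]
      · rw [indicator_of_notMem hx, indicator_of_notMem hx, ENNReal.ofReal_zero]
    rw [e1, setLIntegral_indicator hRm]
    congr 2
    ext x
    simp
  have h1 := strip_f hqm hq0 hqp (-h)
  rw [hkey, hkey] at h1
  have h2 := (shift (-h)).setLIntegral_comp_preimage
    (hreg.prod (measurableSet_Ico (a := -h) (b := -h + 2 * π)))
    (meas_DD hf h).ennreal_ofReal
  rw [h1] at h2
  rw [phase, ← h2]
  have e3 : ((fun x : ℂ × ℝ => (x.1, x.2 + -h)) ⁻¹' region p ×ˢ Ico (-h) (-h + 2 * π)) =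
      region p ×ˢ Ico 0 (2 * π) := by
    ext x
    simp only [mem_preimage, mem_prod, mem_Ico]
    constructor
    · rintro ⟨a1, a2, a3⟩
      exact ⟨a1, by linarith, by linarith⟩
    · rintro ⟨a1, a2, a3⟩
      exact ⟨a1, by linarith, by linarith⟩
  rw [e3]
  refine lintegral_congr fun x => ?_
  congr 1
  unfold DD
  simp only
  rw [norm_sub_rev, show x.2 + -h + h = x.2 by ring]

/-- The sheared functions. -/
theorem shear_f {p : Fin (n + 3) → ℂ} (hph : MeasurableSet (phase p)) {f : ℂ × ℝ → E}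
    (hf : Measurable f) (h : ℝ) (g : ℝ → ℂ) (hg : Measurable g) :
    ∫⁻ x in (fun x : ℂ × ℝ => (x.1 + g x.2, x.2)) ⁻¹' phase p,
      ENNReal.ofReal (DD f h (x.1 + g x.2, x.2)) =
      ∫⁻ x in phase p, ENNReal.ofReal (DD f h x) :=
  (shear g hg).setLIntegral_comp_preimage hph (meas_DD hf h).ennreal_ofReal

/-- the change of `f` under the transversal translation by `δ` -/
noncomputable def TT (f : ℂ × ℝ → E) (δ : ℝ) (x : ℂ × ℝ) : ℝ :=
  ‖f (x.1 + δ • (I * dir x.2), x.2) - f x‖

/-- free motion by a short time -/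
theorem free_small {p : Fin (n + 3) → ℂ} {V : ℝ → (E ≃ₗᵢ[ℝ] E)} {Cs : Fin (n + 3) → (E ≃ₗᵢ[ℝ] E)}
    {f : ℂ × ℝ → E} {L : ℝ} (hL : ∀ x s, ‖V s (f x) - f x‖ ≤ L * |s|)
    (hI : IsEq p V Cs f) {z : ℂ} {θ s : ℝ} (hz : z ∈ region p)
    (hz' : z + s • dir θ ∈ region p) : ‖f (z, θ) - f (z + s • dir θ, θ)‖ ≤ L * |s| := by
  rw [hI.free z θ s hz hz', norm_sub_rev]
  exact hL _ _

theorem main_eff (hHull : S_Hull) (hB : S_Basic) (hRef : S_Ref) (hO : S_Open)
    (hU : S_Uniq) (hM : S_Mp) (hFan : S_Fan)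
    (hGen : S_Gen) (hFlow : S_Flow) {p : Fin (n + 3) → ℂ}
    (hp : IsConvexPolygon p) {V : ℝ → (E ≃ₗᵢ[ℝ] E)} {Cs : Fin (n + 3) → (E ≃ₗᵢ[ℝ] E)} (hG : IsGrp V Cs)
    {L : ℝ} (hL0 : 0 ≤ L)
    {f : ℂ × ℝ → E} (hf : Measurable f) (hb : ∀ x, ‖f x‖ ≤ 1) (hI : IsEq p V Cs f)
    (hL : ∀ x s, ‖V s (f x) - f x‖ ≤ L * |s|)
    (T η : ℝ) (hT : 0 < T) (hη : 0 < η) (K : ℕ)
    (hK : ∀ z ∈ reg p, ∀ A : ℂ, ‖A - z‖ ≤ T →
      (∀ w j, uf p w (p j) ∉ segment ℝ z A) → (∀ w i, sf p i (fp p w A) ≠ 0) →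
      ∃ w : List (Fin (n + 3)), w.length ≤ K ∧ Ch p w z A)
    (h : ℝ) (hTh : T * h < η) (hh0 : 0 < h) :
      ∫⁻ x in GG p η, ENNReal.ofReal (TT f (T * Real.sin h) x) ≤
        6 * (∫⁻ x in phase p, ENNReal.ofReal (DD f h x)) +
        (ENNReal.ofReal (L * (T * h ^ 2) * VV p) + 2 * volume (Bad (VK p K) T h)) := by
  obtain ⟨D, hD⟩ : ∃ D : ENNReal, D = ∫⁻ x in phase p, ENNReal.ofReal (DD f h x) := ⟨_, rfl⟩
  rw [← hD]
  have hrr : region p = reg p := (hHull n p hp).2
  have hopen : IsOpen (reg p) := (hB n p hp).2.1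
  have hregm : MeasurableSet (region p) := by rw [hrr]; exact hopen.measurableSet
  have hph : MeasurableSet (phase p) := hregm.prod measurableSet_Ico
  have hGph : GG p η ⊆ phase p := by
    rintro x ⟨h1, h2⟩
    refine ⟨?_, h2⟩
    rw [hrr]
    exact UU_sub h1 (by rw [dist_self]; exact hη.le)
  have hvol : volume (phase p) < ⊤ := by
    have h1 : Bornology.IsBounded (region p) :=
      ((isBounded_convexHull.2 (finite_range p).isBounded).subset interior_subset)
    have h2 : Bornology.IsBounded (phase p) := h1.prod (Metric.isBounded_Ico 0 (2 * π))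
    exact h2.measure_lt_top
  obtain ⟨-, -, -, -, -, -, -, -, -, -, hfd, -⟩ := hRef n p hp
  obtain ⟨-, -, -, -, -, -, -, -, hfd1, -, -, -⟩ := hRef n p hp
  have hWf : {w : List (Fin (n + 3)) | w.length ≤ K}.Finite := List.finite_length_le _ K
  set W := hWf.toFinset with hW
  have hper := hI.periodic
  have g1 := hGen n p hp T
  have g2 := hGen n p hp (-T)
  have hmG := meas_GG p η
  -- the functions
  set q : ℂ × ℝ → ℝ := fun x => DD f h x + DD f (-h) x with hq
  have hqm : Measurable q := (meas_DD hf h).add (meas_DD hf (-h))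
  have hq0 : ∀ x, 0 ≤ q x := fun x => add_nonneg (DD_nonneg f h x) (DD_nonneg f (-h) x)
  have hqp : ∀ z θ, q (z, θ + 2 * π) = q (z, θ) := by
    intro z θ
    rw [hq]
    simp only
    rw [per_DD hper, per_DD hper]
  have hvolm : ∫⁻ x in phase p, ENNReal.ofReal (DD f (-h) x) = D := by
    rw [neg_f hregm hf hper, hD]
  have hvol2 : ∫⁻ x in phase p, ENNReal.ofReal (q x) ≤ D + D := by
    calc ∫⁻ x in phase p, ENNReal.ofReal (q x)
        = ∫⁻ x in phase p, (ENNReal.ofReal (DD f h x) + ENNReal.ofReal (DD f (-h) x)) := by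
          refine lintegral_congr fun x => ?_
          rw [hq]
          exact ENNReal.ofReal_add (DD_nonneg _ _ _) (DD_nonneg _ _ _)
      _ = (∫⁻ x in phase p, ENNReal.ofReal (DD f h x)) +
          (∫⁻ x in phase p, ENNReal.ofReal (DD f (-h) x)) :=
          lintegral_add_left (meas_DD hf h).ennreal_ofReal _
      _ ≤ D + D := by rw [hvolm, hD]
  have hQm := fun s : ℝ => (meas_QQ hO hM hp s hqm W)
  have hv1 : ∀ s : ℝ, ∫⁻ x in GG p η, ENNReal.ofReal (QQ p s q W x) ≤ D + D := fun s =>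
    (lintegral_mono_set hGph).trans ((flow_f hFlow hO hU hM hp s hqm hq0 hqp W).trans hvol2)
  set gm : ℝ → ℂ := fun θ => T • (dir (θ + h) - dir θ) with hgm
  set gp : ℝ → ℂ := fun θ => T • (dir θ - dir (θ - h)) with hgp
  have hgmm : Measurable gm := by
    have : Continuous gm := by
      rw [hgm]
      exact ((continuous_dir.comp (by fun_prop)).sub continuous_dir).const_smul T
    exact this.measurable
  have hgpm : Measurable gp := by
    have : Continuous gp := by
      rw [hgp]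
      exact (continuous_dir.sub (continuous_dir.comp (by fun_prop))).const_smul T
    exact this.measurable
  -- points near `z`
  have hmem : ∀ x ∈ GG p η, ∀ v : ℂ, ‖v‖ < η → x.1 + v ∈ reg p := by
    intro x hx v hv
    refine UU_sub hx.1 ?_
    rw [dist_eq_norm]
    simpa using hv.le
  have hd1 : ∀ θ : ℝ, ‖T • (dir (θ + h) - dir θ)‖ < η := by
    intro θ
    rw [norm_smul, Real.norm_eq_abs, abs_of_pos hT]
    have := norm_dir_sub θ h
    rw [abs_of_pos hh0] at this
    calc T * ‖dir (θ + h) - dir θ‖ ≤ T * h := by gcongr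
      _ < η := hTh
  have hd2 : ∀ θ : ℝ, ‖T • (dir θ - dir (θ - h))‖ < η := by
    intro θ
    rw [norm_smul, Real.norm_eq_abs, abs_of_pos hT]
    have := norm_dir_sub (θ - h) h
    rw [sub_add_cancel, abs_of_pos hh0] at this
    calc T * ‖dir θ - dir (θ - h)‖ ≤ T * h := by gcongr
      _ < η := hTh
  have hd3 : ∀ θ : ℝ, ‖(T * Real.sin h) • (I * dir θ)‖ < η := by
    intro θ
    have hnn : ‖I * dir θ‖ = 1 := by rw [norm_mul, norm_I, W780.BB.norm_dir, one_mul]
    rw [norm_smul, hnn, Real.norm_eq_abs, abs_mul, abs_of_pos hT]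
    have : |Real.sin h| ≤ |h| := Real.abs_sin_le_abs
    rw [abs_of_pos hh0] at this
    calc T * |Real.sin h| * 1 ≤ T * h := by rw [mul_one]; gcongr
      _ < η := hTh
  have hvA : ∀ (g : ℝ → ℂ), Measurable g → (∀ θ, ‖g θ‖ < η) → ∀ k : ℝ,
      ∫⁻ x in phase p, ENNReal.ofReal (DD f k x) ≤ D →
      ∫⁻ x in GG p η, ENNReal.ofReal (DD f k (x.1 + g x.2, x.2)) ≤ D := by
    intro g hg hgη k hk
    refine le_trans (lintegral_mono_set ?_) ((shear_f hph hf k g hg).le.trans hk)
    intro x hx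
    refine ⟨?_, hx.2⟩
    show x.1 + g x.2 ∈ region p
    rw [hrr]
    exact hmem x hx _ (hgη _)
  have hvm := hvA gm hgmm hd1 h hD.ge
  have hvp := hvA gp hgpm hd2 (-h) hvolm.le
  set E0 : ℝ := L * (T * h ^ 2) with hE0
  have hE00 : 0 ≤ E0 := by positivity
  have hcos : ∀ s : ℝ, |s| = T * (1 - Real.cos h) → L * |s| ≤ E0 := by
    intro s hs
    rw [hs, hE0]
    have h1 := Real.one_sub_sq_div_two_le_cos (x := h)
    have h2 : 1 - Real.cos h ≤ h ^ 2 := by nlinarith [sq_nonneg h]
    gcongr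
  have hcos0 : 0 ≤ 1 - Real.cos h := by linarith [Real.cos_le_one h]
  set B : Set (ℂ × ℝ) := toMeasurable volume (Bad (VK p K) T h) with hBdef
  have hBm : MeasurableSet B := measurableSet_toMeasurable _ _
  -- the pointwise estimate
  have hpt : ∀ᵐ x ∂(volume.restrict (GG p η)), ENNReal.ofReal (TT f (T * Real.sin h) x) ≤
      ENNReal.ofReal E0 + (B.indicator (fun _ => (2 : ENNReal)) x +
      ((ENNReal.ofReal (QQ p (-T) q W x) + ENNReal.ofReal (DD f h (x.1 + gm x.2, x.2))) +
      (ENNReal.ofReal (QQ p T q W x) + ENNReal.ofReal (DD f (-h) (x.1 + gp x.2, x.2))))) := by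
    filter_upwards [ae_restrict_mem hmG, ae_restrict_of_ae g1, ae_restrict_of_ae g2] with x hx hxp hxm
    obtain ⟨z, θ⟩ := x
    simp only at hxp hxm
    have hx2 := hmem _ hx
    simp only at hx2
    have hzθ : θ ∈ Ico 0 (2 * π) := hx.2
    have hzr : z ∈ reg p := by
      have := hx2 0 (by rw [norm_zero]; exact hη)
      rwa [add_zero] at this
    have hCm : z + T • (dir (θ + h) - dir θ) ∈ reg p := hx2 _ (hd1 θ)
    have hCp : z + T • (dir θ - dir (θ - h)) ∈ reg p := hx2 _ (hd2 θ)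
    have hCn : z + (T * Real.sin h) • (I * dir θ) ∈ reg p := hx2 _ (hd3 θ)
    have hlen : ∀ s : ℝ, |s| = T → ‖(z + s • dir θ) - z‖ ≤ T := by
      intro s hs
      rw [add_sub_cancel_left, norm_smul, W780.BB.norm_dir, mul_one, Real.norm_eq_abs, hs]
    by_cases hxB : (z, θ) ∈ Bad (VK p K) T h
    · have h1 : B.indicator (fun _ => (2 : ENNReal)) (z, θ) = 2 :=
        indicator_of_mem (subset_toMeasurable _ _ hxB) _
      rw [h1]
      have h2 : ENNReal.ofReal (TT f (T * Real.sin h) (z, θ)) ≤ 2 := by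
        have h3 : TT f (T * Real.sin h) (z, θ) ≤ 2 := by
          unfold TT
          refine (norm_sub_le _ _).trans ?_
          linarith [hb (z + (T * Real.sin h) • (I * dir θ), θ), hb (z, θ)]
        calc ENNReal.ofReal (TT f (T * Real.sin h) (z, θ)) ≤ ENNReal.ofReal 2 :=
              ENNReal.ofReal_le_ofReal h3
          _ = 2 := by norm_num
      exact h2.trans (le_add_left (le_add_right le_rfl))
    rw [Bad, mem_ofPred_eq, not_and] at hxB
    have hxB' := hxB hzθ
    rw [not_and_or] at hxB'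
    rcases hxB' with hm | hpl
    · -- no vertex in the backward triangle
      push Not at hm
      obtain ⟨w, hwl, hw⟩ := hK z hzr (z + (-T) • dir θ) (hlen (-T) (by rw [abs_neg, abs_of_pos hT]))
        hxm.1 hxm.2
      have hw2 : Ch p w (z + T • (dir (θ + h) - dir θ)) (z + (-T) • dir θ) := by
        refine hFan n p hp K w z _ _ hwl hzr hCm hw ?_
        intro a ha hain
        refine hm a ha ?_
        rw [neg_smul, ← sub_eq_add_neg] at hain
        exact hain
      obtain ⟨c, hc⟩ := inv_f hRef hp hrr hG hI w (-T)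
      have i1 := hc z θ hzr hw
      have ht : z + T • (dir (θ + h) - dir θ) + (-T) • dir (θ + h) = z + (-T) • dir θ := by
        simp only [real_smul]
        push_cast
        ring
      have i2 := hc (z + T • (dir (θ + h) - dir θ)) (θ + h) hCm (by rw [ht]; exact hw2)
      rw [ht] at i2
      have i3 : ‖f (z + (T * Real.sin h) • (I * dir θ), θ) -
          f (z + T • (dir (θ + h) - dir θ), θ)‖ ≤ E0 := by
        have := free_small hL hI (z := z + (T * Real.sin h) • (I * dir θ)) (θ := θ)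
          (s := T * (Real.cos h - 1))
          (by rw [hrr]; exact hCn) (by rw [hrr, ← minus_formula]; exact hCm)
        rw [← minus_formula] at this
        refine this.trans (hcos _ ?_)
        rw [abs_mul, abs_of_pos hT, abs_sub_comm, abs_of_nonneg hcos0]
      obtain ⟨e, c', he, hec⟩ := hfd w
      have f1 : (fd p w (z + (-T) • dir θ, θ)) = (fp p w (z + (-T) • dir θ), e * θ + c') := by
        refine Prod.ext (hfd1 w _ _) (hec _ _).1
      have f2 : (fd p w (z + (-T) • dir θ, θ + h)) =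
          (fp p w (z + (-T) • dir θ), e * θ + c' + e * h) := by
        refine Prod.ext (hfd1 w _ _) ?_
        rw [(hec _ _).1]
        ring
      have hee : e = 1 ∨ e = -1 := by rw [he]; exact neg_one_pow_eq_or ℝ _
      have key : ‖f (fd p w (z + (-T) • dir θ, θ + h)) - f (fd p w (z + (-T) • dir θ, θ))‖ ≤
          q (fd p w (z + (-T) • dir θ, θ)) := by
        rw [hq, f2, f1]
        unfold DD
        simp only
        rcases hee with rfl | rfl
        · rw [one_mul, one_mul]
          linarith [norm_nonneg (f (fp p w (z + (-T) • dir θ), θ + c' + -h) -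
            f (fp p w (z + (-T) • dir θ), θ + c'))]
        · rw [neg_one_mul, neg_one_mul]
          linarith [norm_nonneg (f (fp p w (z + (-T) • dir θ), -θ + c' + h) -
            f (fp p w (z + (-T) • dir θ), -θ + c'))]
      have key2 : ‖f (z + T • (dir (θ + h) - dir θ), θ + h) - f (z, θ)‖ ≤ QQ p (-T) q W (z, θ) := by
        have h1 : ‖f (z + T • (dir (θ + h) - dir θ), θ + h) - f (z, θ)‖ =
            ‖f (fd p w (z + (-T) • dir θ, θ + h)) - f (fd p w (z + (-T) • dir θ, θ))‖ := by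
          rw [i1, i2, ← map_sub, c.norm_map]
        rw [h1]
        exact key.trans (le_QQ (-T) hq0 W (by rw [hW]; simpa using hwl) (x := (z, θ)) hw)
      have key3 : TT f (T * Real.sin h) (z, θ) ≤
          E0 + (DD f h (z + gm θ, θ) + QQ p (-T) q W (z, θ)) := by
        have hD : DD f h (z + gm θ, θ) = ‖f (z + T • (dir (θ + h) - dir θ), θ + h) -
            f (z + T • (dir (θ + h) - dir θ), θ)‖ := rfl
        rw [hD, norm_sub_rev (f (z + T • (dir (θ + h) - dir θ), θ + h))]
        unfold TT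
        simp only
        have e : f (z + (T * Real.sin h) • (I * dir θ), θ) - f (z, θ) =
            (f (z + (T * Real.sin h) • (I * dir θ), θ) - f (z + T • (dir (θ + h) - dir θ), θ)) +
            ((f (z + T • (dir (θ + h) - dir θ), θ) - f (z + T • (dir (θ + h) - dir θ), θ + h)) +
            (f (z + T • (dir (θ + h) - dir θ), θ + h) - f (z, θ))) := by abel
        rw [e]
        refine (norm_add_le _ _).trans (add_le_add i3 ((norm_add_le _ _).trans ?_))
        exact add_le_add le_rfl key2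
      calc ENNReal.ofReal (TT f (T * Real.sin h) (z, θ))
          ≤ ENNReal.ofReal (E0 + (DD f h (z + gm θ, θ) + QQ p (-T) q W (z, θ))) :=
            ENNReal.ofReal_le_ofReal key3
        _ = ENNReal.ofReal E0 + (ENNReal.ofReal (QQ p (-T) q W (z, θ)) +
            ENNReal.ofReal (DD f h (z + gm θ, θ))) := by
            rw [ENNReal.ofReal_add hE00 (add_nonneg (DD_nonneg _ _ _) (QQ_nonneg _ hq0 _ _)),
              ENNReal.ofReal_add (DD_nonneg _ _ _) (QQ_nonneg _ hq0 _ _), add_comm (ENNReal.ofReal (DD f h (z + gm θ, θ)))]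
        _ ≤ _ := add_le_add le_rfl (le_add_left (le_add_right le_rfl))
    · push Not at hpl
      obtain ⟨w, hwl, hw⟩ := hK z hzr (z + T • dir θ) (hlen T (abs_of_pos hT)) hxp.1 hxp.2
      have hw2 : Ch p w (z + T • (dir θ - dir (θ - h))) (z + T • dir θ) := by
        refine hFan n p hp K w z _ _ hwl hzr hCp hw ?_
        intro a ha hain
        exact hpl a ha hain
      obtain ⟨c, hc⟩ := inv_f hRef hp hrr hG hI w T
      have i1 := hc z θ hzr hw
      have ht : z + T • (dir θ - dir (θ - h)) + T • dir (θ - h) = z + T • dir θ := by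
        simp only [real_smul]
        ring
      have i2 := hc (z + T • (dir θ - dir (θ - h))) (θ - h) hCp (by rw [ht]; exact hw2)
      rw [ht] at i2
      have i3 : ‖f (z + (T * Real.sin h) • (I * dir θ), θ) -
          f (z + T • (dir θ - dir (θ - h)), θ)‖ ≤ E0 := by
        have := free_small hL hI (z := z + (T * Real.sin h) • (I * dir θ)) (θ := θ)
          (s := T * (1 - Real.cos h))
          (by rw [hrr]; exact hCn) (by rw [hrr, ← plus_formula]; exact hCp)
        rw [← plus_formula] at this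
        refine this.trans (hcos _ ?_)
        rw [abs_mul, abs_of_pos hT, abs_of_nonneg hcos0]
      obtain ⟨e, c', he, hec⟩ := hfd w
      have f1 : (fd p w (z + T • dir θ, θ)) = (fp p w (z + T • dir θ), e * θ + c') := by
        refine Prod.ext (hfd1 w _ _) (hec _ _).1
      have f2 : (fd p w (z + T • dir θ, θ - h)) =
          (fp p w (z + T • dir θ), e * θ + c' + -(e * h)) := by
        refine Prod.ext (hfd1 w _ _) ?_
        rw [(hec _ _).1]
        ring
      have hee : e = 1 ∨ e = -1 := by rw [he]; exact neg_one_pow_eq_or ℝ _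
      have key : ‖f (fd p w (z + T • dir θ, θ - h)) - f (fd p w (z + T • dir θ, θ))‖ ≤
          q (fd p w (z + T • dir θ, θ)) := by
        rw [hq, f2, f1]
        unfold DD
        simp only
        rcases hee with rfl | rfl
        · rw [one_mul, one_mul]
          linarith [norm_nonneg (f (fp p w (z + T • dir θ), θ + c' + h) -
            f (fp p w (z + T • dir θ), θ + c'))]
        · rw [neg_one_mul, neg_one_mul, neg_neg]
          linarith [norm_nonneg (f (fp p w (z + T • dir θ), -θ + c' + -h) -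
            f (fp p w (z + T • dir θ), -θ + c'))]
      have key2 : ‖f (z + T • (dir θ - dir (θ - h)), θ - h) - f (z, θ)‖ ≤ QQ p T q W (z, θ) := by
        have h1 : ‖f (z + T • (dir θ - dir (θ - h)), θ - h) - f (z, θ)‖ =
            ‖f (fd p w (z + T • dir θ, θ - h)) - f (fd p w (z + T • dir θ, θ))‖ := by
          rw [i1, i2, ← map_sub, c.norm_map]
        rw [h1]
        exact key.trans (le_QQ T hq0 W (by rw [hW]; simpa using hwl) (x := (z, θ)) hw)
      have key3 : TT f (T * Real.sin h) (z, θ) ≤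
          E0 + (DD f (-h) (z + gp θ, θ) + QQ p T q W (z, θ)) := by
        have hD : DD f (-h) (z + gp θ, θ) = ‖f (z + T • (dir θ - dir (θ - h)), θ - h) -
            f (z + T • (dir θ - dir (θ - h)), θ)‖ := rfl
        rw [hD, norm_sub_rev (f (z + T • (dir θ - dir (θ - h)), θ - h))]
        unfold TT
        simp only
        have e : f (z + (T * Real.sin h) • (I * dir θ), θ) - f (z, θ) =
            (f (z + (T * Real.sin h) • (I * dir θ), θ) - f (z + T • (dir θ - dir (θ - h)), θ)) +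
            ((f (z + T • (dir θ - dir (θ - h)), θ) - f (z + T • (dir θ - dir (θ - h)), θ - h)) +
            (f (z + T • (dir θ - dir (θ - h)), θ - h) - f (z, θ))) := by abel
        rw [e]
        refine (norm_add_le _ _).trans (add_le_add i3 ((norm_add_le _ _).trans ?_))
        exact add_le_add le_rfl key2
      calc ENNReal.ofReal (TT f (T * Real.sin h) (z, θ))
          ≤ ENNReal.ofReal (E0 + (DD f (-h) (z + gp θ, θ) + QQ p T q W (z, θ))) :=
            ENNReal.ofReal_le_ofReal key3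
        _ = ENNReal.ofReal E0 + (ENNReal.ofReal (QQ p T q W (z, θ)) +
            ENNReal.ofReal (DD f (-h) (z + gp θ, θ))) := by
            rw [ENNReal.ofReal_add hE00 (add_nonneg (DD_nonneg _ _ _) (QQ_nonneg _ hq0 _ _)),
              ENNReal.ofReal_add (DD_nonneg _ _ _) (QQ_nonneg _ hq0 _ _), add_comm (ENNReal.ofReal (DD f (-h) (z + gp θ, θ)))]
        _ ≤ _ := add_le_add le_rfl (le_add_left (le_add_left le_rfl))
  -- integrate
  have m1 : Measurable (fun x : ℂ × ℝ => ENNReal.ofReal (QQ p (-T) q W x)) :=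
    (hQm (-T)).ennreal_ofReal
  have m2 : Measurable (fun x : ℂ × ℝ => ENNReal.ofReal (QQ p T q W x)) :=
    (hQm T).ennreal_ofReal
  have m3 : Measurable (fun x : ℂ × ℝ => ENNReal.ofReal (DD f h (x.1 + gm x.2, x.2))) :=
    ((meas_DD hf h).comp ((measurable_fst.add (hgmm.comp measurable_snd)).prodMk
      measurable_snd)).ennreal_ofReal
  have m4 : Measurable (fun x : ℂ × ℝ => ENNReal.ofReal (DD f (-h) (x.1 + gp x.2, x.2))) :=
    ((meas_DD hf (-h)).comp ((measurable_fst.add (hgpm.comp measurable_snd)).prodMk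
      measurable_snd)).ennreal_ofReal
  have m5 : Measurable (B.indicator (fun _ : ℂ × ℝ => (2 : ENNReal))) :=
    measurable_const.indicator hBm
  have n1 : ∫⁻ _ in GG p η, ENNReal.ofReal E0 ≤ ENNReal.ofReal (E0 * VV p) := by
    rw [setLIntegral_const]
    have h1 : volume (GG p η) ≤ ENNReal.ofReal (VV p) := by
      rw [VV, ENNReal.ofReal_toReal hvol.ne]
      exact measure_mono hGph
    calc ENNReal.ofReal E0 * volume (GG p η) ≤ ENNReal.ofReal E0 * ENNReal.ofReal (VV p) := by
          gcongr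
      _ = ENNReal.ofReal (E0 * VV p) := (ENNReal.ofReal_mul hE00).symm
  have n2 : ∫⁻ x in GG p η, B.indicator (fun _ => (2 : ENNReal)) x ≤
      2 * volume (Bad (VK p K) T h) := by
    calc ∫⁻ x in GG p η, B.indicator (fun _ => (2 : ENNReal)) x
        ≤ ∫⁻ x, B.indicator (fun _ => (2 : ENNReal)) x := setLIntegral_le_lintegral _ _
      _ = 2 * volume B := by rw [lintegral_indicator hBm, setLIntegral_const]
      _ = 2 * volume (Bad (VK p K) T h) := by rw [hBdef, measure_toMeasurable]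
  calc ∫⁻ x in GG p η, ENNReal.ofReal (TT f (T * Real.sin h) x)
      ≤ ∫⁻ x in GG p η, (ENNReal.ofReal E0 + (B.indicator (fun _ => (2 : ENNReal)) x +
      ((ENNReal.ofReal (QQ p (-T) q W x) + ENNReal.ofReal (DD f h (x.1 + gm x.2, x.2))) +
      (ENNReal.ofReal (QQ p T q W x) + ENNReal.ofReal (DD f (-h) (x.1 + gp x.2, x.2)))))) :=
        lintegral_mono_ae hpt
    _ = (∫⁻ _ in GG p η, ENNReal.ofReal E0) +
        ((∫⁻ x in GG p η, B.indicator (fun _ => (2 : ENNReal)) x) +
        (((∫⁻ x in GG p η, ENNReal.ofReal (QQ p (-T) q W x)) +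
          (∫⁻ x in GG p η, ENNReal.ofReal (DD f h (x.1 + gm x.2, x.2)))) +
        ((∫⁻ x in GG p η, ENNReal.ofReal (QQ p T q W x)) +
          (∫⁻ x in GG p η, ENNReal.ofReal (DD f (-h) (x.1 + gp x.2, x.2)))))) := by
        have m13 : Measurable (fun x : ℂ × ℝ => ENNReal.ofReal (QQ p (-T) q W x) +
            ENNReal.ofReal (DD f h (x.1 + gm x.2, x.2))) := m1.add m3
        rw [lintegral_add_left measurable_const, lintegral_add_left m5,
          lintegral_add_left m13, lintegral_add_left m1, lintegral_add_left m2]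
    _ ≤ ENNReal.ofReal (E0 * VV p) + (2 * volume (Bad (VK p K) T h) +
        (((D + D) + D) + ((D + D) + D))) := by
        gcongr
        · exact hv1 (-T)
        · exact hv1 T
    _ = 6 * D + (ENNReal.ofReal (E0 * VV p) + 2 * volume (Bad (VK p K) T h)) := by ring

theorem main_f (hHull : S_Hull) (hB : S_Basic) (hRef : S_Ref) (hO : S_Open)
    (hU : S_Uniq) (hM : S_Mp) (hFan : S_Fan)
    (hEx : S_Exist) (hGen : S_Gen) (hFlow : S_Flow) (hBad : S_Bad) {p : Fin (n + 3) → ℂ}
    (hp : IsConvexPolygon p) {V : ℝ → (E ≃ₗᵢ[ℝ] E)} {Cs : Fin (n + 3) → (E ≃ₗᵢ[ℝ] E)} (hG : IsGrp V Cs)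
    {L : ℝ} (hL0 : 0 ≤ L)
    {f : ℂ × ℝ → E} (hf : Measurable f) (hb : ∀ x, ‖f x‖ ≤ 1) (hI : IsEq p V Cs f)
    (hL : ∀ x s, ‖V s (f x) - f x‖ ≤ L * |s|)
    (C : ℝ) (hC0 : 0 ≤ C)
    (hC : ∀ h : ℝ, 0 < h → h < 1 →
      ∫⁻ x in phase p, ENNReal.ofReal (DD f h x) ≤ ENNReal.ofReal (C * h))
    (T η : ℝ) (hT : 0 < T) (hη : 0 < η) : ∀ᶠ h in 𝓝[>] (0 : ℝ),
      ∫⁻ x in GG p η, ENNReal.ofReal (TT f (T * Real.sin h) x) ≤
        ENNReal.ofReal ((6 * C + 3) * h) := by
  obtain ⟨K, hK⟩ := hEx n p hp T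
  have hVf : (VK p K).Finite := by
    obtain ⟨-, -, -, -, -, -, -, -, -, -, -, h⟩ := hRef n p hp
    exact h K
  have hV0 : 0 ≤ VV p := ENNReal.toReal_nonneg
  have e1 : ∀ᶠ h in 𝓝[>] (0 : ℝ), h < 1 ∧ T * h < η ∧ 0 < h ∧ L * T * h * VV p < 1 := by
    have a1 : ∀ᶠ h in 𝓝[>] (0 : ℝ), h < 1 := by
      filter_upwards [Ioo_mem_nhdsGT (zero_lt_one : (0 : ℝ) < 1)] with h hh using hh.2
    have a2 : ∀ᶠ h in 𝓝[>] (0 : ℝ), T * h < η := by
      filter_upwards [Ioo_mem_nhdsGT (div_pos hη hT)] with h hh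
      have := hh.2
      rw [lt_div_iff₀ hT] at this
      linarith
    have a3 : ∀ᶠ h in 𝓝[>] (0 : ℝ), L * T * h * VV p < 1 := by
      have h1 : Tendsto (fun h : ℝ => L * T * h * VV p) (𝓝[>] 0) (𝓝 0) := by
        have h2 : Tendsto (fun h : ℝ => L * T * h * VV p) (𝓝 0) (𝓝 (L * T * 0 * VV p)) :=
          (Continuous.tendsto (by fun_prop) 0)
        rw [mul_zero, zero_mul] at h2
        exact h2.mono_left nhdsWithin_le_nhds
      exact h1.eventually (gt_mem_nhds one_pos)
    filter_upwards [a1, a2, self_mem_nhdsWithin, a3] with h h1 h2 h3 h4 using ⟨h1, h2, h3, h4⟩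
  filter_upwards [e1, hBad (VK p K) T 1 hVf hT one_pos] with h hh hbad
  obtain ⟨hh1, hTh, hh0, hωh⟩ := hh
  refine (main_eff hHull hB hRef hO hU hM hFan hGen hFlow hp hG hL0 hf hb hI hL T η hT hη K hK h hTh
    hh0).trans ?_
  have n1 : ENNReal.ofReal (L * (T * h ^ 2) * VV p) ≤ ENNReal.ofReal h := by
    apply ENNReal.ofReal_le_ofReal
    have : L * (T * h ^ 2) * VV p = (L * T * h * VV p) * h := by ring
    rw [this]
    calc (L * T * h * VV p) * h ≤ 1 * h := by gcongr
      _ = h := one_mul h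
  have n2 : 2 * volume (Bad (VK p K) T h) ≤ ENNReal.ofReal (2 * h) := by
    calc 2 * volume (Bad (VK p K) T h) ≤ 2 * ENNReal.ofReal (1 * h) := by gcongr
      _ = ENNReal.ofReal (2 * h) := by
          rw [one_mul, ENNReal.ofReal_mul (by norm_num)]
          norm_num
  calc 6 * (∫⁻ x in phase p, ENNReal.ofReal (DD f h x)) +
        (ENNReal.ofReal (L * (T * h ^ 2) * VV p) + 2 * volume (Bad (VK p K) T h))
      ≤ 6 * ENNReal.ofReal (C * h) + (ENNReal.ofReal h + ENNReal.ofReal (2 * h)) := by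
        gcongr
        exact hC h hh0 hh1
    _ = ENNReal.ofReal ((6 * C + 3) * h) := by
        have h6 : (6 : ENNReal) = ENNReal.ofReal 6 := by norm_num
        rw [h6, ← ENNReal.ofReal_mul (by norm_num), ← ENNReal.ofReal_add (by positivity)
          (by positivity), ← ENNReal.ofReal_add (by positivity) (by positivity)]
        congr 1
        ring

end Pool.Agent.Q183.BX
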