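import Pool.Agent.Q183.BX.Dir
import Pool.Agent.TH578.BE.Alg

set_option autoImplicit false

/-!
The reflection relations for the function of the direction.
-/

namespace Pool.Agent.Q183.BX

open Complex Set MeasureTheory Filter Topology Pool.Agent.W780.PG Pool.Agent.W780.BB
open Pool.Agent.W803.BBD (xc)
open Pool.Agent.W101.BB (rate sf_add rate_refl rate_eq cont_sf ae_rate)
open Pool.Agent.TH578.BE (xc_per xc_add_smul xc_add_perp xc_sub' xc_smul xc_polar xc_side line_pt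
  xc_diff side_ne)

open scoped Real ComplexConjugate

variable {n : ℕ} {E : Type*} [NormedAddCommGroup E] [NormedSpace ℝ E]

/-- `g` describes the states with direction `θ` -/
def Gd (p : Fin (n + 3) → ℂ) (V : ℝ → (E ≃ₗᵢ[ℝ] E)) (f : ℂ × ℝ → E) (g : ℝ → E) (θ : ℝ) : Prop :=
  ∀ᵐ z : ℂ, z ∈ reg p → FF V f (z, θ) = g θ

theorem first (hB : S_Basic) (hH : S_Hull) {p : Fin (n + 3) → ℂ} (hp : IsConvexPolygon p)
    {V : ℝ → (E ≃ₗᵢ[ℝ] E)} {Cs : Fin (n + 3) → (E ≃ₗᵢ[ℝ] E)} (hG : IsGrp V Cs) {f : ℂ × ℝ → E} (hS : IsEq p V Cs f) {g : ℝ → E}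
    (i : Fin (n + 3)) {θ : ℝ}
    (hr : rate p i θ < 0) (h1 : Gd p V f g θ) (h2 : Gd p V f g (2 * tau p i - θ)) :
    g (2 * tau p i - θ) = V (xc θ (p i) - xc (2 * tau p i - θ) (p i)) (Cs i (g θ)) := by
  obtain ⟨-, hop, -, -, -, -, -, -, hfr, -, hside, hvs, hsd, -⟩ := hB n p hp
  have hreg := (hH n p hp).2
  set θ' := 2 * tau p i - θ with hθ'
  have hr' : rate p i θ' = - rate p i θ := rate_refl p i θ
  -- a point of the side
  obtain ⟨y0, hy0⟩ : (side p i).Nonempty := by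
    unfold side
    exact ⟨_, ⟨1 / 2, 1 / 2, by norm_num, by norm_num, by norm_num, rfl⟩⟩
  obtain ⟨-, hy0i, hy0k⟩ := hsd i y0 hy0
  have hy0i' : sf p i y0 = 0 := hy0i
  -- a neighbourhood in which everything is decided by the side `i`
  have hnb : ∀ᶠ z in 𝓝 y0, (∀ k, k ≠ i → 0 < sf p k z) ∧ ∀ k, z ≠ p k := by
    refine Filter.Eventually.and ?_ ?_
    · refine Filter.eventually_all.2 fun k => ?_
      by_cases hk : k = i
      · exact Filter.Eventually.of_forall fun z h => absurd hk h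
      · have := (cont_sf p k).continuousAt.eventually (lt_mem_nhds (hy0k k hk))
        filter_upwards [this] with z hz _ using hz
    · refine Filter.eventually_all.2 fun k => ?_
      exact eventually_ne_nhds fun h => hvs i k (h ▸ hy0)
  have hneg : -rate p i θ ≠ 0 := by linarith
  set κ : ℝ := (- rate p i θ)⁻¹ with hκ
  have hκ0 : 0 < κ := inv_pos.2 (by linarith)
  have hκr : κ * rate p i θ = -1 := by
    rw [hκ, inv_mul_eq_div, div_eq_iff hneg]; ring
  set Y : ℂ → ℂ := fun z => z + (κ * sf p i z) • dir θ with hY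
  set Φ : ℂ → ℂ := fun z => Y z + (κ * sf p i z) • dir θ' with hΦ
  have hYc : Continuous Y := by
    have := cont_sf p i
    exact continuous_id.add ((continuous_const.mul this).smul continuous_const)
  have hΦc : Continuous Φ := by
    have := cont_sf p i
    exact hYc.add ((continuous_const.mul this).smul continuous_const)
  have hY0 : Y y0 = y0 := by rw [hY]; simp [hy0i']
  have hΦ0 : Φ y0 = y0 := by rw [hΦ]; simp [hy0i', hY0]
  have hV : ∀ᶠ z in 𝓝 y0, ((∀ k, k ≠ i → 0 < sf p k (Y z)) ∧ ∀ k, Y z ≠ p k) ∧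
      ((∀ k, k ≠ i → 0 < sf p k (Φ z)) ∧ ∀ k, Φ z ≠ p k) := by
    refine Filter.Eventually.and ?_ ?_
    · have h3 : Tendsto Y (𝓝 y0) (𝓝 y0) := by
        have := hYc.continuousAt (x := y0)
        rwa [ContinuousAt, hY0] at this
      exact h3.eventually hnb
    · have h3 : Tendsto Φ (𝓝 y0) (𝓝 y0) := by
        have := hΦc.continuousAt (x := y0)
        rwa [ContinuousAt, hΦ0] at this
      exact h3.eventually hnb
  obtain ⟨O', hVs, hVo, hyV⟩ := mem_nhds_iff.1 hV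
  have hW : (O' ∩ reg p).Nonempty := by
    have : y0 ∈ closure (reg p) := frontier_subset_closure (hfr i hy0)
    exact mem_closure_iff.1 this O' hVo hyV
  have hWo : IsOpen (O' ∩ reg p) := hVo.inter hop
  -- the inverse map
  set Ψ : ℂ → ℂ := fun z => z - (κ * sf p i z) • (dir θ + dir θ') with hΨ
  have hsfY : ∀ z, sf p i (Y z) = 0 := by
    intro z
    rw [hY]
    simp only
    rw [sf_add]
    linear_combination (sf p i z) * hκr
  have hsfΦ : ∀ z, sf p i (Φ z) = sf p i z := by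
    intro z
    rw [hΦ]
    simp only
    rw [sf_add, hsfY, hr']
    linear_combination -(sf p i z) * hκr
  have hΨΦ : ∀ z, Ψ (Φ z) = z := by
    intro z
    rw [hΨ]
    simp only
    rw [hsfΦ, hΦ, hY]
    simp only
    rw [smul_add]
    abel
  have hΨd : Differentiable ℝ Ψ := by
    have h3 : Differentiable ℝ (sf p i) := by
      have e : sf p i = fun z => (conj (p (i + 1) - p i) * (z - p i)).im := rfl
      rw [e]
      exact Complex.imCLM.differentiable.comp
        ((differentiable_const _).mul (differentiable_id.sub_const _))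
    exact differentiable_id.sub ((h3.const_mul _).smul_const _)
  -- the images of null sets
  have h2' : ∀ᵐ z : ℂ, Φ z ∈ reg p → FF V f (Φ z, θ') = g θ' := by
    unfold Gd at h2
    rw [ae_iff] at h2 ⊢
    have h4 := addHaar_image_eq_zero_of_differentiableOn_of_addHaar_eq_zero volume
      (hΨd.differentiableOn (s := {a | ¬ (a ∈ reg p → FF V f (a, θ') = g θ')})) h2
    refine measure_mono_null ?_ h4
    intro z hz
    exact ⟨Φ z, hz, hΨΦ z⟩
  obtain ⟨z, ⟨hzV, hzr⟩, hz1, hz2⟩ : ∃ z ∈ O' ∩ reg p,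
      (z ∈ reg p → FF V f (z, θ) = g θ) ∧ (Φ z ∈ reg p → FF V f (Φ z, θ') = g θ') := by
    by_contra hcon
    have h5 := h1.and h2'
    have h6 : volume (O' ∩ reg p) = 0 := by
      rw [ae_iff] at h5
      exact measure_mono_null (fun z hz hP => hcon ⟨z, hz, hP⟩) h5
    exact (hWo.measure_pos volume hW).ne' h6
  have hzi : 0 < sf p i z := hzr i
  have hs : 0 < κ * sf p i z := mul_pos hκ0 hzi
  obtain ⟨⟨hY1, hY2⟩, hΦ1, -⟩ := hVs hzV
  have hΦr : Φ z ∈ reg p := by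
    intro k
    by_cases hk : k = i
    · subst hk
      have := hsfΦ z
      unfold sf at this hzi
      rw [this]; exact hzi
    · exact hΦ1 k hk
  have hYs : Y z ∈ openSegment ℝ (p i) (p (i + 1)) := by
    refine (hside (Y z) ?_ i (hsfY z) hY2).1
    intro k
    by_cases hk : k = i
    · subst hk
      exact (hsfY z).ge
    · exact (hY1 k hk).le
  have hback : Y z - (κ * sf p i z) • dir θ = z := by
    rw [hY]; simp
  have hre := hS.reflect i (Y z) hYs θ (κ * sf p i z) (κ * sf p i z) hs hs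
    (by rw [hback, hreg]; exact hzr) (by rw [hreg]; exact hΦr)
  rw [hback] at hre
  have hre' : f (Φ z, θ') = V (κ * sf p i z + κ * sf p i z) (Cs i (f (z, θ))) := hre
  -- rewrite with `g`
  have a1 : f (z, θ) = V (xc θ z) (g θ) := by
    rw [eq_FF hG f (z, θ), hz1 hzr]
  have a2 : g θ' = V (-(xc θ' (Φ z))) (f (Φ z, θ')) := by
    rw [← hz2 hΦr]
    rfl
  have b1 : xc θ z = xc θ (Y z) - κ * sf p i z := by
    have h7 := xc_add_smul θ (κ * sf p i z) z
    have h8 : xc θ (Y z) = xc θ z + κ * sf p i z := h7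
    rw [h8]; ring
  have b2 : xc θ' (Φ z) = xc θ' (Y z) + κ * sf p i z := xc_add_smul θ' (κ * sf p i z) (Y z)
  have b3 := xc_diff p i hYs θ
  rw [← hθ'] at b3
  rw [a2, hre', a1, ← hG.add, ← hG.comm, ← hG.add]
  congr 2
  rw [← b3, b1, b2]
  ring

/-- for almost every direction the function is described -/
theorem ae_good (hH : S_Hull) {p : Fin (n + 3) → ℂ} (hp : IsConvexPolygon p)
    {V : ℝ → (E ≃ₗᵢ[ℝ] E)} {Cs : Fin (n + 3) → (E ≃ₗᵢ[ℝ] E)} (hG : IsGrp V Cs) {f : ℂ × ℝ → E} (hS : IsEq p V Cs f) {g : ℝ → E}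
    (hgp : ∀ θ, g (θ + 2 * π) = g θ)
    (h1 : ∀ᵐ x : ℂ × ℝ, x ∈ phase p → FF V f x = g x.2) :
    ∀ᵐ θ : ℝ, Gd p V f g θ := by
  have hreg := (hH n p hp).2
  have h2 : ∀ᵐ y ∂((volume : Measure ℝ).prod (volume : Measure ℂ)),
      y.swap ∈ phase p → FF V f y.swap = g y.swap.2 :=
    (Measure.measurePreserving_swap (μ := (volume : Measure ℝ))
      (ν := (volume : Measure ℂ))).quasiMeasurePreserving.ae h1
  have h3 := Measure.ae_ae_of_ae_prod h2
  have h4 : ∀ᵐ θ : ℝ, θ ∈ Ico 0 (2 * π) → Gd p V f g θ := by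
    filter_upwards [h3] with θ hθ hI
    filter_upwards [hθ] with z hz hzr
    exact hz ⟨by rw [hreg]; exact hzr, hI⟩
  -- periodicity
  have hFp : ∀ z θ, FF V f (z, θ + 2 * π) = FF V f (z, θ) := by
    intro z θ
    unfold FF
    simp only
    rw [hS.periodic, xc_per]
  have hper : ∀ θ, Gd p V f g (θ + 2 * π) ↔ Gd p V f g θ := by
    intro θ
    unfold Gd
    simp only [hFp, hgp]
  have hperz : ∀ (k : ℤ) θ, Gd p V f g (θ + k • (2 * π)) ↔ Gd p V f g θ := by
    intro k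
    induction k using Int.induction_on with
    | zero => intro θ; simp
    | succ k ih =>
      intro θ
      rw [add_zsmul, one_zsmul, ← add_assoc, hper, ih]
    | pred k ih =>
      intro θ
      rw [← hper, sub_zsmul, one_zsmul]
      have : θ + ((-(k:ℤ)) • (2 * π) + -(2 * π)) + 2 * π = θ + (-(k:ℤ)) • (2 * π) := by ring
      rw [this, ih]
  have h5 : ∀ᵐ θ : ℝ, ∀ k : ℤ, θ + k • (2 * π) ∈ Ico 0 (2 * π) →
      Gd p V f g (θ + k • (2 * π)) := by
    rw [ae_all_iff]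
    intro k
    exact (measurePreserving_add_right (volume : Measure ℝ) (k • (2 * π))).quasiMeasurePreserving.ae
      h4
  filter_upwards [h5] with θ hθ
  obtain ⟨k, hk, -⟩ := existsUnique_add_zsmul_mem_Ico Real.two_pi_pos θ 0
  rw [zero_add] at hk
  exact (hperz k θ).1 (hθ k hk)



/-- the weight of the reflection in side `i`, for the direction `θ` -/
noncomputable def wt (p : Fin (n + 3) → ℂ) (Cs : Fin (n + 3) → (E ≃ₗᵢ[ℝ] E)) (i : Fin (n + 3))
    (θ : ℝ) : E ≃ₗᵢ[ℝ] E :=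
  if Real.sin (θ - tau p i) < 0 then Cs i else (Cs i)⁻¹

theorem rate_sin (hB : S_Basic) {p : Fin (n + 3) → ℂ} (hp : IsConvexPolygon p) (i : Fin (n + 3))
    (θ : ℝ) : rate p i θ < 0 ↔ Real.sin (θ - tau p i) < 0 := by
  have h1 : 0 < ‖p (i + 1) - p i‖ := norm_pos_iff.2 (sub_ne_zero.2 (side_ne hB hp i))
  rw [rate_eq]
  constructor
  · intro h
    by_contra hn
    push Not at hn
    have := mul_nonneg h1.le hn
    linarith
  · intro h
    exact mul_neg_of_pos_of_neg h1 h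

theorem refl_f (hB : S_Basic) (hH : S_Hull) {p : Fin (n + 3) → ℂ} (hp : IsConvexPolygon p)
    {V : ℝ → (E ≃ₗᵢ[ℝ] E)} {Cs : Fin (n + 3) → (E ≃ₗᵢ[ℝ] E)} (hG : IsGrp V Cs) {f : ℂ × ℝ → E}
    (hS : IsEq p V Cs f) {g : ℝ → E} (hg : ∀ᵐ θ : ℝ, Gd p V f g θ) (i : Fin (n + 3)) :
    ∀ᵐ θ : ℝ, g (2 * tau p i - θ) =
      V (xc θ (p i) - xc (2 * tau p i - θ) (p i)) (wt p Cs i θ (g θ)) := by
  have hmp : MeasurePreserving (fun θ : ℝ => 2 * tau p i - θ) volume volume :=
    Measure.measurePreserving_sub_left volume _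
  have hg' : ∀ᵐ θ : ℝ, Gd p V f g (2 * tau p i - θ) := hmp.quasiMeasurePreserving.ae hg
  filter_upwards [hg, hg', ae_rate i (side_ne hB hp i)] with θ h1 h2 h3
  rcases lt_or_gt_of_ne h3 with h | h
  · rw [wt, if_pos ((rate_sin hB hp i θ).1 h)]
    exact first hB hH hp hG hS i h h1 h2
  · have h0 : ¬ Real.sin (θ - tau p i) < 0 := fun h' => by
      have := (rate_sin hB hp i θ).2 h'
      linarith
    rw [wt, if_neg h0]
    have h4 : rate p i (2 * tau p i - θ) < 0 := by rw [rate_refl]; linarith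
    have h5 : 2 * tau p i - (2 * tau p i - θ) = θ := by ring
    have h6 := first hB hH hp hG hS i h4 h2 (by rw [h5]; exact h1)
    rw [h5] at h6
    have e4 : ∀ v : E, (Cs i)⁻¹ (Cs i v) = v := fun v => (Cs i).symm_apply_apply v
    rw [h6, ← hG.comm', e4, ← hG.add, show xc θ (p i) - xc (2 * tau p i - θ) (p i) +
      (xc (2 * tau p i - θ) (p i) - xc θ (p i)) = 0 by ring, hG.zero]

/-- the value at the point `v` -/
noncomputable def Gv (V : ℝ → (E ≃ₗᵢ[ℝ] E)) (g : ℝ → E) (v : ℂ) (θ : ℝ) : E := V (xc θ v) (g θ)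

theorem xc_add (θ : ℝ) (v u : ℂ) : xc θ (v + u) = xc θ v + xc θ u := by
  have := xc_sub' θ (v + u) u
  rw [add_sub_cancel_right] at this
  linarith

theorem Gv_add {V : ℝ → (E ≃ₗᵢ[ℝ] E)} {Cs : Fin (n + 3) → (E ≃ₗᵢ[ℝ] E)} (hG : IsGrp V Cs)
    (g : ℝ → E) (v u : ℂ) (θ : ℝ) : Gv V g (v + u) θ = V (xc θ u) (Gv V g v θ) := by
  unfold Gv
  rw [xc_add, ← hG.add, add_comm]

theorem wt_comm {V : ℝ → (E ≃ₗᵢ[ℝ] E)} {Cs : Fin (n + 3) → (E ≃ₗᵢ[ℝ] E)} (hG : IsGrp V Cs)
    (p : Fin (n + 3) → ℂ) (i : Fin (n + 3)) (θ s : ℝ) (v : E) :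
    V s (wt p Cs i θ v) = wt p Cs i θ (V s v) := by
  unfold wt
  split_ifs
  · exact hG.comm _ _ _
  · exact hG.comm' _ _ _

theorem Gv_refl {p : Fin (n + 3) → ℂ} {V : ℝ → (E ≃ₗᵢ[ℝ] E)} {Cs : Fin (n + 3) → (E ≃ₗᵢ[ℝ] E)}
    (hG : IsGrp V Cs) {g : ℝ → E} {i : Fin (n + 3)}
    (h : ∀ᵐ θ : ℝ, g (2 * tau p i - θ) =
      V (xc θ (p i) - xc (2 * tau p i - θ) (p i)) (wt p Cs i θ (g θ))) {v : ℂ}
    (hv : ∀ θ, xc θ v - xc (2 * tau p i - θ) v = xc θ (p i) - xc (2 * tau p i - θ) (p i)) :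
    ∀ᵐ θ : ℝ, Gv V g v (2 * tau p i - θ) = wt p Cs i θ (Gv V g v θ) := by
  filter_upwards [h] with θ hθ
  unfold Gv
  rw [hθ, ← hv θ, ← wt_comm hG, ← hG.add]
  congr 2
  ring

end Pool.Agent.Q183.BX
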