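import Pool.Agent.Q183.BX.Koop

set_option autoImplicit false

/-!
Skew products over a billiard: the invariant functions as functions with values in `L¹`.
-/

namespace Pool.Agent.Q183.BX

open Complex Set MeasureTheory Filter Topology Pool.Agent.W780.PG Pool.Agent.W780.BB

open scoped Real ENNReal

variable {n : ℕ} {Y : Type*} [MeasurableSpace Y]

/-- The motion in the fibre `Y` over a billiard in a polygon with `n + 3` sides: during the free
motion the point of `Y` is moved by the measure preserving flow `S`, at a reflection in side `k` it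
is moved by the invertible measure preserving map `R k`. The maps `R k` commute with the flow `S`,
but not necessarily with each other. -/
structure IsFibreMotion (ν : Measure Y) (S : ℝ → Y → Y) (R : Fin (n + 3) → Y ≃ᵐ Y) : Prop where
  measurable : Measurable fun q : ℝ × Y => S q.1 q.2
  zero : ∀ y, S 0 y = y
  add : ∀ s t y, S (s + t) y = S s (S t y)
  mp : ∀ t, MeasurePreserving (S t) ν ν
  mpR : ∀ k, MeasurePreserving (R k) ν ν
  comm : ∀ k t y, S t (R k y) = R k (S t y)

/-- The function `F` of the state (position, direction) and of the point of `Y` is invariant under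
the skew product of the billiard flow with the motion in `Y`. The relations are required for every
state and almost every point of `Y`. Nothing is required of the motion after a vertex was hit. -/
structure IsSkewInvariant (p : Fin (n + 3) → ℂ) (ν : Measure Y) (S : ℝ → Y → Y)
    (R : Fin (n + 3) → Y ≃ᵐ Y) (F : (ℂ × ℝ) × Y → ℝ) : Prop where
  periodic : ∀ (z : ℂ) (θ : ℝ), ∀ᵐ y ∂ν, F ((z, θ + 2 * π), y) = F ((z, θ), y)
  free : ∀ (z : ℂ) (θ s : ℝ), z ∈ region p → z + s • dir θ ∈ region p →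
    ∀ᵐ y ∂ν, F ((z + s • dir θ, θ), S s y) = F ((z, θ), y)
  reflect : ∀ i, ∀ w ∈ openSegment ℝ (p i) (p (i + 1)), ∀ θ s r : ℝ, 0 < s → 0 < r →
    w - s • dir θ ∈ region p → w + r • dir (2 * tau p i - θ) ∈ region p →
    ∀ᵐ y ∂ν, F ((w + r • dir (2 * tau p i - θ), 2 * tau p i - θ), S r (R i (S s y))) =
      F ((w - s • dir θ, θ), y)

/-- The mean change of `F` if all directions are turned by the angle `h` is at most `C h`. -/
def FiniteVariation (p : Fin (n + 3) → ℂ) (ν : Measure Y) (F : (ℂ × ℝ) × Y → ℝ) : Prop :=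
  ∃ C : ℝ, ∀ h : ℝ, 0 < h → h < 1 →
    ∫⁻ x in phase p, ∫⁻ y, ENNReal.ofReal |F ((x.1, x.2 + h), y) - F (x, y)| ∂ν ≤
      ENNReal.ofReal (C * h)

/-- a bounded version of a number -/
noncomputable def sq (x : ℝ) : ℝ := x / (1 + |x|)

/-- the inverse -/
noncomputable def qs (x : ℝ) : ℝ := x / (1 - |x|)

theorem abs_sq (x : ℝ) : |sq x| = |x| / (1 + |x|) := by
  unfold sq
  rw [abs_div, abs_of_pos (show (0 : ℝ) < 1 + |x| by positivity)]

theorem sq_le (x : ℝ) : |sq x| ≤ 1 := by
  rw [abs_sq, div_le_one (by positivity)]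
  linarith

theorem qs_sq (x : ℝ) : qs (sq x) = x := by
  have h0 : (0 : ℝ) < 1 + |x| := by positivity
  unfold qs
  rw [abs_sq]
  unfold sq
  have h1 : 1 - |x| / (1 + |x|) = 1 / (1 + |x|) := by
    field_simp
    ring
  rw [h1]
  field_simp

theorem meas_sq : Measurable sq := by
  unfold sq
  fun_prop

theorem meas_qs : Measurable qs := by
  unfold qs
  fun_prop

theorem sq_lip (a b : ℝ) : |sq a - sq b| ≤ |a - b| := by
  have ha : (0 : ℝ) < 1 + |a| := by positivity
  have hb : (0 : ℝ) < 1 + |b| := by positivity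
  have h1 : sq a - sq b = (a - b + (a * |b| - b * |a|)) / ((1 + |a|) * (1 + |b|)) := by
    unfold sq
    field_simp
    ring
  rw [h1, abs_div, abs_of_pos (show (0 : ℝ) < (1 + |a|) * (1 + |b|) by positivity),
    div_le_iff₀ (by positivity)]
  have h2 : |(a * |b| - b * |a|)| ≤ |a - b| * (|a| + |b| + |a| * |b|) := by
    rcases le_total 0 a with h | h <;> rcases le_total 0 b with h' | h'
    · rw [abs_of_nonneg h, abs_of_nonneg h']
      have : a * b - b * a = 0 := by ring
      rw [this, abs_zero]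
      positivity
    · rw [abs_of_nonneg h, abs_of_nonpos h', abs_of_nonneg (show (0 : ℝ) ≤ a - b by linarith),
        abs_of_nonneg (by nlinarith)]
      nlinarith [mul_nonneg h (neg_nonneg.2 h'), mul_nonneg (mul_nonneg h (neg_nonneg.2 h')) h,
        mul_nonneg (mul_nonneg h (neg_nonneg.2 h')) (neg_nonneg.2 h'), sq_nonneg a, sq_nonneg b]
    · rw [abs_of_nonpos h, abs_of_nonneg h', abs_of_nonpos (show a - b ≤ (0 : ℝ) by linarith),
        abs_of_nonpos (by nlinarith)]
      nlinarith [mul_nonneg (neg_nonneg.2 h) h', mul_nonneg (mul_nonneg (neg_nonneg.2 h) h')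
        (neg_nonneg.2 h), mul_nonneg (mul_nonneg (neg_nonneg.2 h) h') h', sq_nonneg a, sq_nonneg b]
    · rw [abs_of_nonpos h, abs_of_nonpos h']
      have : a * -b - b * -a = 0 := by ring
      rw [this, abs_zero]
      have := abs_nonneg (a - b)
      have h3 : 0 ≤ -a := by linarith
      have h4 : 0 ≤ -b := by linarith
      positivity
  calc |a - b + (a * |b| - b * |a|)| ≤ |a - b| + |(a * |b| - b * |a|)| := abs_add_le _ _
    _ ≤ |a - b| + |a - b| * (|a| + |b| + |a| * |b|) := by linarith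
    _ = |a - b| * ((1 + |a|) * (1 + |b|)) := by ring

variable {ν : Measure Y} [IsProbabilityMeasure ν] {S : ℝ → Y → Y} {R : Fin (n + 3) → Y ≃ᵐ Y}

namespace IsFibreMotion

theorem cancel (hS : IsFibreMotion ν S R) (t : ℝ) (y : Y) : S t (S (-t) y) = y := by
  rw [← hS.add, add_neg_cancel, hS.zero]

theorem cancel' (hS : IsFibreMotion ν S R) (t : ℝ) (y : Y) : S (-t) (S t y) = y := by
  rw [← hS.add, neg_add_cancel, hS.zero]

theorem mpR' (hS : IsFibreMotion ν S R) (k : Fin (n + 3)) :
    MeasurePreserving (R k).symm ν ν := (hS.mpR k).symm (R k)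

theorem comm' (hS : IsFibreMotion ν S R) (k : Fin (n + 3)) (t : ℝ) (y : Y) :
    S t ((R k).symm y) = (R k).symm (S t y) := by
  have h := hS.comm k t ((R k).symm y)
  rw [(R k).apply_symm_apply] at h
  rw [h, (R k).symm_apply_apply]

end IsFibreMotion

/-- the isometries of the flow -/
noncomputable def VS (hS : IsFibreMotion ν S R) (t : ℝ) : Lp ℝ 1 ν ≃ₗᵢ[ℝ] Lp ℝ 1 ν :=
  Kp (hS.mp (-t)) (hS.mp t) (hS.cancel t)

/-- the isometries of the sides -/
noncomputable def CR (hS : IsFibreMotion ν S R) (k : Fin (n + 3)) : Lp ℝ 1 ν ≃ₗᵢ[ℝ] Lp ℝ 1 ν :=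
  Kp (hS.mpR' k) (hS.mpR k) ((R k).apply_symm_apply)

theorem VS_coe (hS : IsFibreMotion ν S R) (t : ℝ) (v : Lp ℝ 1 ν) :
    ∀ᵐ y ∂ν, VS hS t v y = v (S (-t) y) := Kp_coe _ _ _ v

theorem CR_coe (hS : IsFibreMotion ν S R) (k : Fin (n + 3)) (v : Lp ℝ 1 ν) :
    ∀ᵐ y ∂ν, CR hS k v y = v ((R k).symm y) := Kp_coe _ _ _ v

theorem isGrp [IsSeparable ν] (hS : IsFibreMotion ν S R) : IsGrp (VS hS) (CR hS) := by
  have hadd : ∀ s t v, VS hS (s + t) v = VS hS s (VS hS t v) := by
    intro s t v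
    refine Lp.ext ?_
    filter_upwards [VS_coe hS (s + t) v, VS_coe hS s (VS hS t v),
      (hS.mp (-s)).quasiMeasurePreserving.ae (VS_coe hS t v)] with y h1 h2 h3
    rw [h1, h2, h3, ← hS.add]
    congr 2
    ring
  refine ⟨hadd, fun s k v => ?_, fun v => cont_of_meas hadd ?_⟩
  · refine Lp.ext ?_
    filter_upwards [VS_coe hS s (CR hS k v), CR_coe hS k (VS hS s v),
      (hS.mp (-s)).quasiMeasurePreserving.ae (CR_coe hS k v),
      (hS.mpR' k).quasiMeasurePreserving.ae (VS_coe hS s v)] with y h1 h2 h3 h4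
    rw [h1, h2, h3, h4, hS.comm']
  · have hm : Measurable fun q : ℝ × Y => v (S (-q.1) q.2) := by
      have h1 : Measurable fun q : ℝ × Y => S (-q.1) q.2 :=
        hS.measurable.comp (measurable_fst.neg.prodMk measurable_snd)
      exact (Lp.stronglyMeasurable v).measurable.comp h1
    have hL : ∀ s : ℝ, MemLp (fun y => v (S (-s) y)) 1 ν := fun s =>
      (Lp.memLp v).comp_measurePreserving (hS.mp (-s))
    have h2 := meas_toLp (X := ℝ) hm hL
    have h3 : (fun s => VS hS s v) = fun s => (hL s).toLp := by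
      funext s
      refine Lp.ext ?_
      filter_upwards [VS_coe hS s v, (hL s).coeFn_toLp] with y a1 a2
      rw [a1, a2]
    rw [h3]
    exact h2

/-- an invariant function as a function with values in `L¹` -/
theorem toE [IsSeparable ν] (hS : IsFibreMotion ν S R) {p : Fin (n + 3) → ℂ}
    {F : (ℂ × ℝ) × Y → ℝ} (hF : Measurable F) (hI : IsSkewInvariant p ν S R F) :
    ∃ f : ℂ × ℝ → Lp ℝ 1 ν, Measurable f ∧ (∀ x, ‖f x‖ ≤ 1) ∧ IsEq p (VS hS) (CR hS) f ∧
      (∀ x, ∀ᵐ y ∂ν, F (x, y) = qs (f x y)) ∧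
      ∀ x x', ENNReal.ofReal ‖f x' - f x‖ ≤
        ∫⁻ y, ENNReal.ofReal |F (x', y) - F (x, y)| ∂ν := by
  have hm : Measurable fun q => sq (F q) := meas_sq.comp hF
  have hL : ∀ x : ℂ × ℝ, MemLp (fun y => sq (F (x, y))) 1 ν := fun x =>
    MemLp.of_bound (hm.comp measurable_prodMk_left).aestronglyMeasurable 1
      (Eventually.of_forall fun y => by rw [Real.norm_eq_abs]; exact sq_le _)
  obtain ⟨f, hf⟩ : ∃ f : ℂ × ℝ → Lp ℝ 1 ν, f = fun x => (hL x).toLp := ⟨_, rfl⟩
  have hco : ∀ x, ∀ᵐ y ∂ν, f x y = sq (F (x, y)) := fun x => by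
    rw [hf]
    exact (hL x).coeFn_toLp
  refine ⟨f, by rw [hf]; exact meas_toLp hm hL, fun x => ?_, ⟨fun z θ => ?_, fun z θ s h1 h2 => ?_,
    fun i w hw θ s r hs hr h1 h2 => ?_⟩, fun x => ?_, fun x x' => ?_⟩
  · rw [L1.norm_def]
    refine ENNReal.toReal_le_of_le_ofReal zero_le_one ?_
    rw [ENNReal.ofReal_one]
    calc ∫⁻ y, ‖f x y‖ₑ ∂ν ≤ ∫⁻ y, 1 ∂ν := by
          refine lintegral_mono_ae ?_
          filter_upwards [hco x] with y hy
          rw [hy, ← ofReal_norm, Real.norm_eq_abs, ← ENNReal.ofReal_one]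
          exact ENNReal.ofReal_le_ofReal (sq_le _)
      _ = 1 := by rw [lintegral_const, measure_univ, mul_one]
  · refine Lp.ext ?_
    filter_upwards [hco (z, θ + 2 * π), hco (z, θ), hI.periodic z θ] with y a1 a2 a3
    rw [a1, a2, a3]
  · refine Lp.ext ?_
    filter_upwards [hco (z + s • dir θ, θ), VS_coe hS s (f (z, θ)),
      (hS.mp (-s)).quasiMeasurePreserving.ae (hco (z, θ)),
      (hS.mp (-s)).quasiMeasurePreserving.ae (hI.free z θ s h1 h2)] with y a1 a2 a3 a4
    rw [hS.cancel] at a4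
    rw [a1, a2, a3, a4]
  · refine Lp.ext ?_
    have hq : MeasurePreserving (fun y => (R i).symm (S (-(s + r)) y)) ν ν :=
      (hS.mpR' i).comp (hS.mp (-(s + r)))
    filter_upwards [hco (w + r • dir (2 * tau p i - θ), 2 * tau p i - θ),
      VS_coe hS (s + r) (CR hS i (f (w - s • dir θ, θ))),
      (hS.mp (-(s + r))).quasiMeasurePreserving.ae (CR_coe hS i (f (w - s • dir θ, θ))),
      hq.quasiMeasurePreserving.ae (hco (w - s • dir θ, θ)),
      hq.quasiMeasurePreserving.ae (hI.reflect i w hw θ s r hs hr h1 h2)] with y a1 a2 a3 a4 a5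
    have e : S r (R i (S s ((R i).symm (S (-(s + r)) y)))) = y := by
      rw [hS.comm', (R i).apply_symm_apply, ← hS.add, ← hS.add]
      have : r + s + -(s + r) = 0 := by ring
      rw [this, hS.zero]
    rw [e] at a5
    rw [a1, a2, a3, a4, a5]
  · filter_upwards [hco x] with y hy
    rw [hy, qs_sq]
  · have h1 : ENNReal.ofReal ‖f x' - f x‖ =
        ∫⁻ y, edist (f x' y) (f x y) ∂ν := by
      rw [← L1.edist_def, edist_dist, dist_eq_norm]
    rw [h1]
    refine lintegral_mono_ae ?_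
    filter_upwards [hco x, hco x'] with y a1 a2
    rw [a1, a2, edist_dist, Real.dist_eq]
    exact ENNReal.ofReal_le_ofReal (sq_lip _ _)

/-- a null set of a product -/
theorem phase_pos {p : Fin (n + 3) → ℂ} (hp : IsConvexPolygon p) {P : ℂ × ℝ → Prop}
    (h : ∀ᵐ x : ℂ × ℝ, x ∈ phase p → P x) : ∃ x ∈ phase p, P x := by
  have hB : S_Basic := Pool.Agent.W174.PG.basic
  have hH : S_Hull := Pool.Agent.W975.PG.hull hB
  have hrr : region p = reg p := (hH n p hp).2
  obtain ⟨_, hop, _, _, _, hne, _⟩ := hB n p hp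
  rw [← hrr] at hop hne
  by_contra hcon
  push Not at hcon
  have h2 : volume (phase p) = 0 := by
    have h1 : ∀ᵐ x : ℂ × ℝ, x ∉ phase p := by
      filter_upwards [h] with x hx hmem
      exact hcon x hmem (hx hmem)
    have := ae_iff.1 h1
    simpa only [not_not, setOf_mem_eq] using this
  have h3 : 0 < volume (region p ×ˢ (Ioo 0 (2 * π) : Set ℝ)) :=
    (hop.prod isOpen_Ioo).measure_pos volume (hne.prod (nonempty_Ioo.2 Real.two_pi_pos))
  exact (h3.trans_le (measure_mono (prod_mono subset_rfl Ioo_subset_Ico_self))).ne' h2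

theorem meas_phase {p : Fin (n + 3) → ℂ} (hp : IsConvexPolygon p) : MeasurableSet (phase p) := by
  have hB : S_Basic := Pool.Agent.W174.PG.basic
  have hH : S_Hull := Pool.Agent.W975.PG.hull hB
  have hrr : region p = reg p := (hH n p hp).2
  obtain ⟨_, hop, _, _, _, hne, _⟩ := hB n p hp
  rw [← hrr] at hop
  exact hop.measurableSet.prod measurableSet_Ico

end Pool.Agent.Q183.BX
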