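import Pool.Agent.Q183.BX.Const

set_option autoImplicit false

/-!
Averages over the flow: the condition that the values move with bounded speed can be removed.
-/

namespace Pool.Agent.Q183.BX

open Complex Set MeasureTheory Filter Topology Pool.Agent.W780.PG Pool.Agent.W780.BB
open Pool.Agent.W174.PG Pool.Agent.W82.BB

open scoped Real ComplexConjugate

variable {n : ℕ} {E : Type*} [NormedAddCommGroup E] [NormedSpace ℝ E]

/-- the average over the flow up to the time `ε` -/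
noncomputable def Av (V : ℝ → (E ≃ₗᵢ[ℝ] E)) (ε : ℝ) (v : E) : E := ε⁻¹ • ∫ t in (0 : ℝ)..ε, V t v

section

variable {V : ℝ → (E ≃ₗᵢ[ℝ] E)} {Cs : Fin (n + 3) → (E ≃ₗᵢ[ℝ] E)}

theorem ii (hG : IsGrp V Cs) (v : E) (a b : ℝ) :
    IntervalIntegrable (fun t => V t v) volume a b := (hG.cont v).intervalIntegrable a b

theorem Av_sub (hG : IsGrp V Cs) (ε : ℝ) (u v : E) : Av V ε (u - v) = Av V ε u - Av V ε v := by
  unfold Av
  rw [← smul_sub, ← intervalIntegral.integral_sub (ii hG u 0 ε) (ii hG v 0 ε)]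
  simp only [map_sub]

theorem Av_norm (V : ℝ → (E ≃ₗᵢ[ℝ] E)) {ε : ℝ} (hε : 0 < ε) (v : E) : ‖Av V ε v‖ ≤ ‖v‖ := by
  unfold Av
  rw [norm_smul, norm_inv, Real.norm_eq_abs, abs_of_pos hε]
  have h1 : ‖∫ t in (0 : ℝ)..ε, V t v‖ ≤ ‖v‖ * |ε - 0| :=
    intervalIntegral.norm_integral_le_of_norm_le_const fun t _ => by rw [(V t).norm_map]
  rw [sub_zero, abs_of_pos hε] at h1
  calc ε⁻¹ * ‖∫ t in (0 : ℝ)..ε, V t v‖ ≤ ε⁻¹ * (‖v‖ * ε) :=
        mul_le_mul_of_nonneg_left h1 (by positivity)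
    _ = ‖v‖ := by field_simp

theorem Av_cont (hG : IsGrp V Cs) {ε : ℝ} (hε : 0 < ε) : Continuous (Av V ε) := by
  refine LipschitzWith.continuous (K := 1) (LipschitzWith.of_dist_le_mul fun u v => ?_)
  rw [dist_eq_norm, dist_eq_norm, ← Av_sub hG, NNReal.coe_one, one_mul]
  exact Av_norm V hε _

theorem Av_V [CompleteSpace E] (hG : IsGrp V Cs) (ε s : ℝ) (v : E) :
    V s (Av V ε v) = Av V ε (V s v) := by
  unfold Av
  rw [map_smul]
  congr 1
  have h1 := ((V s).toContinuousLinearEquiv : E →L[ℝ] E).intervalIntegral_comp_comm (ii hG v 0 ε)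
  have h2 : V s (∫ t in (0 : ℝ)..ε, V t v) = ∫ t in (0 : ℝ)..ε, V s (V t v) := h1.symm
  rw [h2]
  congr 1
  funext t
  rw [hG.vcomm]

theorem Av_C [CompleteSpace E] (hG : IsGrp V Cs) (ε : ℝ) (k : Fin (n + 3)) (v : E) :
    Cs k (Av V ε v) = Av V ε (Cs k v) := by
  unfold Av
  rw [map_smul]
  congr 1
  have h1 := ((Cs k).toContinuousLinearEquiv : E →L[ℝ] E).intervalIntegral_comp_comm
    (ii hG v 0 ε)
  have h2 : Cs k (∫ t in (0 : ℝ)..ε, V t v) = ∫ t in (0 : ℝ)..ε, Cs k (V t v) := h1.symm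
  rw [h2]
  congr 1
  funext t
  rw [hG.comm]

theorem Av_lip [CompleteSpace E] (hG : IsGrp V Cs) {ε : ℝ} (hε : 0 < ε) (s : ℝ) (v : E) :
    ‖V s (Av V ε v) - Av V ε v‖ ≤ 2 * ε⁻¹ * ‖v‖ * |s| := by
  rw [Av_V hG]
  unfold Av
  rw [← smul_sub, norm_smul, norm_inv, Real.norm_eq_abs, abs_of_pos hε]
  have h1 : ∫ t in (0 : ℝ)..ε, V t (V s v) = ∫ t in s..(ε + s), V t v := by
    have h2 := intervalIntegral.integral_comp_add_right (a := (0 : ℝ)) (b := ε)
      (fun t => V t v) s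
    rw [zero_add] at h2
    rw [← h2]
    congr 1
    funext t
    rw [hG.add]
  have h3 : (∫ t in s..(ε + s), V t v) - ∫ t in (0 : ℝ)..ε, V t v =
      (∫ t in ε..(ε + s), V t v) - ∫ t in (0 : ℝ)..s, V t v := by
    have e1 := intervalIntegral.integral_add_adjacent_intervals (ii hG v 0 s) (ii hG v s (ε + s))
    have e2 := intervalIntegral.integral_add_adjacent_intervals (ii hG v 0 ε) (ii hG v ε (ε + s))
    rw [← e2] at e1
    rw [sub_eq_sub_iff_add_eq_add, add_comm, e1, add_comm]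
  rw [h1, h3]
  have n1 : ‖∫ t in ε..(ε + s), V t v‖ ≤ ‖v‖ * |ε + s - ε| :=
    intervalIntegral.norm_integral_le_of_norm_le_const fun t _ => by rw [(V t).norm_map]
  have n2 : ‖∫ t in (0 : ℝ)..s, V t v‖ ≤ ‖v‖ * |s - 0| :=
    intervalIntegral.norm_integral_le_of_norm_le_const fun t _ => by rw [(V t).norm_map]
  rw [add_sub_cancel_left] at n1
  rw [sub_zero] at n2
  have n3 := norm_sub_le (∫ t in ε..(ε + s), V t v) (∫ t in (0 : ℝ)..s, V t v)
  calc ε⁻¹ * ‖(∫ t in ε..(ε + s), V t v) - ∫ t in (0 : ℝ)..s, V t v‖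
      ≤ ε⁻¹ * (2 * ‖v‖ * |s|) := mul_le_mul_of_nonneg_left (by linarith) (by positivity)
    _ = 2 * ε⁻¹ * ‖v‖ * |s| := by ring

theorem Av_tendsto (hG : IsGrp V Cs) [CompleteSpace E] (v : E) :
    Tendsto (fun m : ℕ => Av V (1 / ((m : ℝ) + 1)) v) atTop (𝓝 v) := by
  have h1 : HasDerivAt (fun x : ℝ => ∫ t in (0 : ℝ)..x, V t v) (V 0 v) 0 :=
    intervalIntegral.integral_hasDerivAt_right (ii hG v 0 0)
      ((hG.cont v).stronglyMeasurableAtFilter _ _) (hG.cont v).continuousAt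
  rw [hG.zero] at h1
  have h2 := h1.tendsto_slope_zero_right
  have h3 : Tendsto (fun m : ℕ => 1 / ((m : ℝ) + 1)) atTop (𝓝[>] 0) :=
    tendsto_nhdsWithin_iff.2 ⟨tendsto_one_div_add_atTop_nhds_zero_nat,
      Eventually.of_forall fun m => by
        show (0 : ℝ) < 1 / ((m : ℝ) + 1)
        positivity⟩
  refine (h2.comp h3).congr fun m => ?_
  simp only [Function.comp_apply, zero_add, intervalIntegral.integral_same, sub_zero]
  rfl

/-- the average of an equivariant function is equivariant -/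
theorem Av_eq [CompleteSpace E] (hG : IsGrp V Cs) {p : Fin (n + 3) → ℂ} {f : ℂ × ℝ → E} (hI : IsEq p V Cs f)
    (ε : ℝ) : IsEq p V Cs fun x => Av V ε (f x) where
  periodic z θ := by simp only [hI.periodic]
  free z θ s h1 h2 := by
    rw [hI.free z θ s h1 h2, Av_V hG]
  reflect i y hy θ s r hs hr h1 h2 := by
    rw [hI.reflect i y hy θ s r hs hr h1 h2, Av_C hG, Av_V hG]

theorem Av_FV (hG : IsGrp V Cs) {p : Fin (n + 3) → ℂ} {f : ℂ × ℝ → E} {C₀ : ℝ} (hC : FV p f C₀)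
    {ε : ℝ} (hε : 0 < ε) : FV p (fun x => Av V ε (f x)) C₀ := by
  intro h h0 h1
  refine (lintegral_mono fun x => ENNReal.ofReal_le_ofReal ?_).trans (hC h h0 h1)
  unfold DD
  rw [← Av_sub hG]
  exact Av_norm V hε _

end

section

variable [MeasurableSpace E] [BorelSpace E] [SecondCountableTopology E] [CompleteSpace E]

/-- the equivariant functions of finite directional variation are constant and fixed -/
theorem const_all {p : Fin (n + 3) → ℂ} (hp : IsConvexPolygon p)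
    {V : ℝ → (E ≃ₗᵢ[ℝ] E)} {Cs : Fin (n + 3) → (E ≃ₗᵢ[ℝ] E)} (hG : IsGrp V Cs)
    {f : ℂ × ℝ → E} (hf : Measurable f) (hb : ∀ x, ‖f x‖ ≤ 1)
    (hI : IsEq p V Cs f) {C₀ : ℝ} (hC0 : 0 ≤ C₀)
    (hC : FV p f C₀) {i : Fin (n + 3)} (hi : Irrational (ang p i / π))
    (hc : ∀ v, Cs i (Cs (i - 1) v) = Cs (i - 1) (Cs i v)) :
    ∃ w : E, (∀ᵐ x : ℂ × ℝ, x.1 ∈ region p → f x = w) ∧ (∀ t, V t w = w) ∧ ∀ k, Cs k w = w := by
  have hm : ∀ m : ℕ, (0 : ℝ) < 1 / ((m : ℝ) + 1) := fun m => by positivity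
  have key : ∀ m : ℕ, ∃ w : E, (∀ᵐ x : ℂ × ℝ, x.1 ∈ region p →
      Av V (1 / ((m : ℝ) + 1)) (f x) = w) ∧ (∀ t, V t w = w) ∧ ∀ k, Cs k w = w := by
    intro m
    refine const_lip hp hG (L := 2 * (1 / ((m : ℝ) + 1))⁻¹) (by positivity)
      ((Av_cont hG (hm m)).measurable.comp hf)
      (fun x => (Av_norm V (hm m) _).trans (hb x)) (Av_eq hG hI _) (fun x s => ?_) hC0
      (Av_FV hG hC (hm m)) hi hc
    refine (Av_lip hG (hm m) s (f x)).trans ?_
    refine mul_le_mul_of_nonneg_right ?_ (abs_nonneg s)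
    have := mul_le_mul_of_nonneg_left (hb x)
      (show (0 : ℝ) ≤ 2 * (1 / ((m : ℝ) + 1))⁻¹ by positivity)
    rwa [mul_one] at this
  choose w hw hwV hwC using key
  have hall : ∀ᵐ x : ℂ × ℝ, x.1 ∈ region p → ∀ m : ℕ, Av V (1 / ((m : ℝ) + 1)) (f x) = w m := by
    have := ae_all_iff.2 hw
    filter_upwards [this] with x hx hxr m
    exact hx m hxr
  -- a point
  have hB : S_Basic := Pool.Agent.W174.PG.basic
  have hH : S_Hull := Pool.Agent.W975.PG.hull hB
  have hrr : region p = reg p := (hH n p hp).2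
  obtain ⟨_, hop, _, _, _, hne, _⟩ := hB n p hp
  rw [← hrr] at hop hne
  obtain ⟨x₀, hx0, hx1⟩ : ∃ x : ℂ × ℝ, x.1 ∈ region p ∧
      ∀ m : ℕ, Av V (1 / ((m : ℝ) + 1)) (f x) = w m := by
    by_contra hcon
    push Not at hcon
    have h1 : ∀ᵐ x : ℂ × ℝ, x ∉ region p ×ˢ (univ : Set ℝ) := by
      filter_upwards [hall] with x hx hmem
      obtain ⟨m, hm'⟩ := hcon x hmem.1
      exact hm' (hx hmem.1 m)
    have h2 : volume (region p ×ˢ (univ : Set ℝ)) = 0 := by
      have := ae_iff.1 h1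
      simpa only [not_not, setOf_mem_eq] using this
    have h3 : 0 < volume (region p ×ˢ (univ : Set ℝ)) :=
      (hop.prod isOpen_univ).measure_pos volume (hne.prod univ_nonempty)
    exact h3.ne' h2
  have hlim : Tendsto w atTop (𝓝 (f x₀)) := by
    refine (Av_tendsto hG (f x₀)).congr fun m => hx1 m
  refine ⟨f x₀, ?_, fun t => ?_, fun k => ?_⟩
  · filter_upwards [hall] with x hx hxr
    refine tendsto_nhds_unique (Av_tendsto hG (f x)) ?_
    exact hlim.congr fun m => (hx hxr m).symm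
  · refine tendsto_nhds_unique (((V t).continuous.tendsto (f x₀)).comp hlim) ?_
    exact hlim.congr fun m => (hwV m t).symm
  · refine tendsto_nhds_unique (((Cs k).continuous.tendsto (f x₀)).comp hlim) ?_
    exact hlim.congr fun m => (hwC m k).symm

end

end Pool.Agent.Q183.BX
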