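import Pool.Agent.Q183.BX.Lip
import Pool.Agent.Q183.BX.FinB

set_option autoImplicit false

/-!
Finitely many copies of a polygon: reflections which permute the copies.
-/

namespace Pool.Agent.Q183.BX

open Complex Set MeasureTheory Filter Topology Pool.Agent.W780.PG Pool.Agent.W780.BB

open scoped Real ENNReal

section

variable {n : ℕ} {E : Type*} [NormedAddCommGroup E] [NormedSpace ℝ E] [MeasurableSpace E]
  [BorelSpace E] [SecondCountableTopology E] [CompleteSpace E]

/-- the function of the direction, with its variation -/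
theorem dir_fun {p : Fin (n + 3) → ℂ} (hp : IsConvexPolygon p)
    {V : ℝ → (E ≃ₗᵢ[ℝ] E)} {Cs : Fin (n + 3) → (E ≃ₗᵢ[ℝ] E)} (hG : IsGrp V Cs)
    {f : ℂ × ℝ → E} (hf : Measurable f) (hb : ∀ x, ‖f x‖ ≤ 1)
    (hI : IsEq p V Cs f) {C₀ : ℝ} (hC0 : 0 ≤ C₀) (hC : FV p f C₀) :
    ∃ g : ℝ → E, Measurable g ∧ (∀ θ, ‖g θ‖ ≤ 1) ∧ (∀ θ, g (θ + 2 * π) = g θ) ∧
      (∀ᵐ x : ℂ × ℝ, x.1 ∈ region p → f x = g x.2) ∧
      (∀ i, ∀ᵐ θ : ℝ, g (2 * tau p i - θ) = wt p Cs i θ (g θ)) ∧
      ∃ C' : ℝ, ∀ ε : ℝ, 0 < ε → ε < 1 → ∫ x in (0 : ℝ)..(2 * π), ‖g (x + ε) - g x‖ ≤ C' * ε := by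
  have hB : S_Basic := Pool.Agent.W174.PG.basic
  have hH : S_Hull := Pool.Agent.W975.PG.hull hB
  have hrr : region p = reg p := (hH n p hp).2
  have hop : IsOpen (reg p) := (hB n p hp).2.1
  have hregm : MeasurableSet (region p) := by rw [hrr]; exact hop.measurableSet
  have hph : MeasurableSet (phase p) := hregm.prod measurableSet_Ico
  obtain ⟨z₀, hz0, h1, h2, h3⟩ := gen_all hp hG hf hb hI (sv_of_fv hC)
  obtain ⟨g, hg⟩ : ∃ g : ℝ → E, g = fun θ => f (z₀, θ) := ⟨_, rfl⟩
  have hgf : ∀ θ, f (z₀, θ) = g θ := fun θ => by rw [hg]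
  have hgm : Measurable g := by
    rw [hg]
    exact hf.comp (measurable_const.prodMk measurable_id)
  have hgb : ∀ θ, ‖g θ‖ ≤ 1 := fun θ => by rw [hg]; exact hb _
  have hgp : ∀ θ, g (θ + 2 * π) = g θ := fun θ => by rw [hg]; exact hI.periodic z₀ θ
  simp only [hgf] at h1 h2 h3
  refine ⟨g, hgm, hgb, hgp, h1, h3, ?_⟩
  exact var_dir (g := g) hB hH hp
    (fun ε => ((hgm.comp (measurable_id.add_const ε)).sub hgm).norm) hgb
    (C := C₀) hC0 (fun ε hε hε1 => by
      have hfGs := (shift ε).quasiMeasurePreserving.ae h1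
      refine le_trans (lintegral_mono_ae ?_) (hC ε hε hε1)
      filter_upwards [ae_restrict_mem hph, ae_restrict_of_ae h1, ae_restrict_of_ae hfGs]
        with x a1 a2 a3
      have b1 := a2 a1.1
      have b2 : f (x.1, x.2 + ε) = g (x.2 + ε) := a3 a1.1
      unfold DD
      rw [b1, b2])

end

section

variable {Y : Type*} [Fintype Y]

theorem pnorm (σ : Equiv.Perm Y) (u : Y → ℝ) : ‖fun y => u (σ y)‖ = ‖u‖ := by
  have h : ∀ (σ : Equiv.Perm Y) (u : Y → ℝ), ‖fun y => u (σ y)‖ ≤ ‖u‖ := fun σ u =>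
    (pi_norm_le_iff_of_nonneg (norm_nonneg u)).2 fun y => norm_le_pi_norm u (σ y)
  refine le_antisymm (h σ u) ?_
  have h1 := h σ.symm fun y => u (σ y)
  simpa only [Equiv.apply_symm_apply] using h1

/-- the isometry given by a permutation -/
noncomputable def PI (σ : Equiv.Perm Y) : (Y → ℝ) ≃ₗᵢ[ℝ] (Y → ℝ) where
  toLinearEquiv := LinearEquiv.funCongrLeft ℝ ℝ σ.symm
  norm_map' u := pnorm σ.symm u

theorem PI_ap (σ : Equiv.Perm Y) (u : Y → ℝ) (y : Y) : PI σ u y = u (σ.symm y) := rfl

/-- a symmetric function of the values -/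
noncomputable def sy (v u : Y → ℝ) : ℝ := ∑ y, ∏ y', (u y - v y') ^ 2

theorem sy_PI (v : Y → ℝ) (σ : Equiv.Perm Y) (u : Y → ℝ) : sy v (PI σ u) = sy v u := by
  unfold sy
  simp only [PI_ap]
  exact Equiv.sum_comp σ.symm fun y => ∏ y', (u y - v y') ^ 2

theorem sy_inv (v : Y → ℝ) (σ : Equiv.Perm Y) (u : Y → ℝ) : sy v ((PI σ)⁻¹ u) = sy v u := by
  have h1 : PI σ ((PI σ)⁻¹ u) = u := (PI σ).apply_symm_apply u
  rw [← sy_PI v σ, h1]

theorem sy_self (v : Y → ℝ) : sy v v = 0 := by
  unfold sy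
  refine Finset.sum_eq_zero fun y _ => Finset.prod_eq_zero (Finset.mem_univ y) ?_
  rw [sub_self]
  norm_num

theorem sy_zero {v u : Y → ℝ} (h : sy v u = 0) (y : Y) : ∃ y', u y = v y' := by
  unfold sy at h
  have h1 := (Finset.sum_eq_zero_iff_of_nonneg fun y _ =>
    Finset.prod_nonneg fun y' _ => sq_nonneg (u y - v y')).1 h y (Finset.mem_univ y)
  obtain ⟨y', -, hy'⟩ := Finset.prod_eq_zero_iff.1 h1
  exact ⟨y', sub_eq_zero.1 (pow_eq_zero_iff two_ne_zero |>.1 hy')⟩

theorem sy_cont (v : Y → ℝ) : Continuous (sy v) := by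
  unfold sy
  fun_prop

/-- locally constant functions on a dense set of the line -/
theorem chain_const {α : Type*} {D : Set ℝ} (hD : Dense D) {g : ℝ → α} {δ : ℝ} (hδ : 0 < δ)
    (h : ∀ x ∈ D, ∀ y ∈ D, |y - x| < δ → g x = g y) : ∀ x ∈ D, ∀ y ∈ D, g x = g y := by
  have key : ∀ n : ℕ, ∀ x ∈ D, ∀ y ∈ D, x ≤ y → y - x < δ + n * (δ / 2) → g x = g y := by
    intro n
    induction n with
    | zero =>
        intro x hx y hy hxy hs
        refine h x hx y hy ?_
        rw [abs_of_nonneg (by linarith)]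
        simpa using hs
    | succ n ih =>
        intro x hx y hy hxy hs
        by_cases h1 : y - x < δ
        · refine h x hx y hy ?_
          rwa [abs_of_nonneg (by linarith)]
        · push Not at h1
          obtain ⟨m, hm, m1, m2⟩ := hD.exists_between (show y - δ < y - δ / 2 by linarith)
          push_cast at hs
          rw [ih x hx m hm (by linarith) (by linarith)]
          refine h m hm y hy ?_
          rw [abs_of_nonneg (by linarith)]
          linarith
  have key2 : ∀ x ∈ D, ∀ y ∈ D, x ≤ y → g x = g y := by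
    intro x hx y hy hxy
    obtain ⟨n, hn⟩ := exists_nat_gt ((y - x) / (δ / 2))
    rw [div_lt_iff₀ (by positivity)] at hn
    exact key n x hx y hy hxy (by linarith)
  intro x hx y hy
  rcases le_total x y with h1 | h1
  · exact key2 x hx y hy h1
  · exact (key2 y hy x hx h1).symm

theorem const_perm [Nonempty Y] {g : ℝ → (Y → ℝ)} (hg : Measurable g) (hb : ∀ x, ‖g x‖ ≤ 1)
    (hper : ∀ x, g (x + 2 * π) = g x) {C' : ℝ}
    (hC' : ∀ ε : ℝ, 0 < ε → ε < 1 → ∫ x in (0 : ℝ)..(2 * π), ‖g (x + ε) - g x‖ ≤ C' * ε)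
    {a b : ℝ} (hirr : Irrational ((a - b) / π)) {σ ρ : Equiv.Perm Y}
    (h1 : ∀ᵐ θ : ℝ, g (2 * a - θ) = sw (PI σ) a θ (g θ))
    (h2 : ∀ᵐ θ : ℝ, g (2 * b - θ) = sw (PI ρ) b θ (g θ)) :
    ∃ w : Y → ℝ, ∀ᵐ θ : ℝ, g θ = w := by
  have hRot : S_Rot := Pool.Agent.W363.BB.rot
  obtain ⟨F, hF, K, hK0, hK⟩ := lip_dir hg hb hper hC' hirr h1 h2
  obtain ⟨x₀, hx₀⟩ := hF.exists
  obtain ⟨v, hv⟩ : ∃ v : Y → ℝ, v = g x₀ := ⟨_, rfl⟩
  have hsw : ∀ (τ : Equiv.Perm Y) (c θ : ℝ) (u : Y → ℝ), sy v (sw (PI τ) c θ u) = sy v u := by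
    intro τ c θ u
    unfold sw
    split_ifs
    · exact sy_PI v τ u
    · exact sy_inv v τ u
  obtain ⟨c, hc⟩ := rot_const (E := ℝ) hRot (h := fun θ => sy v (g θ))
    ((sy_cont v).measurable.comp hg) (fun θ => by simp only [hper]) (a := a) (b := b)
    (by filter_upwards [h1] with θ hθ; rw [hθ, hsw])
    (by filter_upwards [h2] with θ hθ; rw [hθ, hsw]) hirr
  have hc0 : c = 0 := by
    by_contra hne
    have hpos : 0 < |c| := abs_pos.2 hne
    obtain ⟨δ, hδ, hball⟩ := Metric.continuous_iff.1 (sy_cont v) v |c| hpos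
    have hd : Dense {x : ℝ | x ∈ F ∧ sy v (g x) = c} := Measure.dense_of_ae (hF.and hc)
    obtain ⟨x, ⟨hxF, hxc⟩, x1, x2⟩ := hd.exists_between
      (show x₀ < x₀ + δ / (K + 1) by
        have : 0 < δ / (K + 1) := by positivity
        linarith)
    have h3 := hK x₀ hx₀ x hxF
    have h4 : dist (g x) v < δ := by
      rw [dist_eq_norm, hv]
      refine lt_of_le_of_lt h3 ?_
      rw [abs_of_pos (by linarith)]
      have h5 : x - x₀ < δ / (K + 1) := by linarith
      rw [lt_div_iff₀ (by positivity)] at h5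
      nlinarith
    have h6 := hball (g x) h4
    rw [sy_self, hxc, Real.dist_eq, sub_zero] at h6
    exact lt_irrefl _ h6
  rw [hc0] at hc
  -- the distances of the values
  let dd : Y × Y → ℝ := fun q => if v q.1 = v q.2 then 1 else |v q.1 - v q.2|
  have hdd : ∀ q, 0 < dd q := by
    intro q
    show 0 < if v q.1 = v q.2 then (1 : ℝ) else |v q.1 - v q.2|
    split_ifs with h
    · exact one_pos
    · exact abs_pos.2 (sub_ne_zero.2 h)
  obtain ⟨q₀, hq₀⟩ := Finite.exists_min dd
  have hd : Dense {x : ℝ | x ∈ F ∧ sy v (g x) = 0} := Measure.dense_of_ae (hF.and hc)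
  have hconst := chain_const (g := g) hd (δ := dd q₀ / (K + 1)) (div_pos (hdd q₀) (by positivity))
    (fun x hx y hy hxy => by
      funext z
      obtain ⟨z1, hz1⟩ := sy_zero hx.2 z
      obtain ⟨z2, hz2⟩ := sy_zero hy.2 z
      by_contra hne
      have h3 : |g y z - g x z| ≤ K * |y - x| := by
        have h4 := norm_le_pi_norm (g y - g x) z
        rw [Pi.sub_apply, Real.norm_eq_abs] at h4
        exact h4.trans (hK x hx.1 y hy.1)
      have h5 := hq₀ (z2, z1)
      have h6 : dd (z2, z1) = |v z2 - v z1| := by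
        show (if v z2 = v z1 then (1 : ℝ) else |v z2 - v z1|) = _
        rw [if_neg]
        rw [← hz1, ← hz2]
        exact fun h0 => hne h0.symm
      rw [h6, ← hz1, ← hz2] at h5
      rw [lt_div_iff₀ (by positivity)] at hxy
      have h7 : 0 ≤ |y - x| := abs_nonneg _
      nlinarith [hdd q₀])
  obtain ⟨x₁, hx₁⟩ := (hF.and hc).exists
  refine ⟨g x₁, ?_⟩
  filter_upwards [hF, hc] with x a1 a2
  exact hconst x ⟨a1, a2⟩ x₁ hx₁

end

section

variable {n : ℕ} {Y : Type*}

/-- Finitely many copies of the polygon, numbered by `Y`: the ball which hits side `k` in the copy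
`y` is reflected and continues in the copy `R k y`. The function `F` of the state and the number of
the copy is invariant under this motion. Nothing is required after a vertex was hit. -/
structure IsTileInvariant (p : Fin (n + 3) → ℂ) (R : Fin (n + 3) → Equiv.Perm Y)
    (F : ℂ × ℝ → Y → ℝ) : Prop where
  periodic : ∀ (z : ℂ) (θ : ℝ) (y : Y), F (z, θ + 2 * π) y = F (z, θ) y
  free : ∀ (z : ℂ) (θ s : ℝ), z ∈ region p → z + s • dir θ ∈ region p →
    ∀ y, F (z + s • dir θ, θ) y = F (z, θ) y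
  reflect : ∀ i, ∀ w ∈ openSegment ℝ (p i) (p (i + 1)), ∀ θ s r : ℝ, 0 < s → 0 < r →
    w - s • dir θ ∈ region p → w + r • dir (2 * tau p i - θ) ∈ region p →
    ∀ y, F (w + r • dir (2 * tau p i - θ), 2 * tau p i - θ) (R i y) = F (w - s • dir θ, θ) y

/-- In every copy the mean change of `F` if all directions are turned by the angle `h` is at most
`C h`. -/
def TileVariation (p : Fin (n + 3) → ℂ) (F : ℂ × ℝ → Y → ℝ) : Prop :=
  ∀ y, ∃ C : ℝ, ∀ h : ℝ, 0 < h → h < 1 →
    ∫⁻ x in phase p, ENNReal.ofReal |F (x.1, x.2 + h) y - F x y| ≤ ENNReal.ofReal (C * h)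

variable [Fintype Y] [Nonempty Y]

theorem tile_const {p : Fin (n + 3) → ℂ} (hp : IsConvexPolygon p)
    (hirr : ∃ i, Irrational (ang p i / π)) {R : Fin (n + 3) → Equiv.Perm Y} {F : ℂ × ℝ → Y → ℝ}
    (hF : ∀ y, Measurable fun x => F x y) (hI : IsTileInvariant p R F)
    (hV : TileVariation p F) :
    ∃ G : Y → ℝ, (∀ k y, G (R k y) = G y) ∧ ∀ᵐ x : ℂ × ℝ, x ∈ phase p → ∀ y, F x y = G y := by
  have hTau : S_Tau := Pool.Agent.W337.BB.tau_th
  obtain ⟨i, hi⟩ := hirr
  have irr := Pool.Agent.TH578.BE.irr_tau hTau hp hi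
  let f : ℂ × ℝ → (Y → ℝ) := fun x y => sq (F x y)
  have hfm : Measurable f := measurable_pi_iff.2 fun y => meas_sq.comp (hF y)
  have hfb : ∀ x, ‖f x‖ ≤ 1 := fun x =>
    (pi_norm_le_iff_of_nonneg zero_le_one).2 fun y => by
      rw [Real.norm_eq_abs]
      exact sq_le _
  have hGr : IsGrp (E := Y → ℝ) (fun _ => LinearIsometryEquiv.refl ℝ (Y → ℝ)) (fun k => PI (R k)) :=
    ⟨fun s t v => rfl, fun s i v => rfl, fun v => continuous_const⟩
  have hfI : IsEq p (fun _ => LinearIsometryEquiv.refl ℝ (Y → ℝ)) (fun k => PI (R k)) f := by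
    refine ⟨fun z θ => ?_, fun z θ s h1 h2 => ?_, fun k w hw θ s r hs hr h1 h2 => ?_⟩
    · funext y
      show sq _ = sq _
      rw [hI.periodic]
    · funext y
      show sq _ = sq _
      rw [hI.free z θ s h1 h2]
    · funext y
      show sq (F _ y) = sq (F _ ((R k).symm y))
      have := hI.reflect k w hw θ s r hs hr h1 h2 ((R k).symm y)
      rw [Equiv.apply_symm_apply] at this
      rw [this]
  choose C hC using hV
  have hFV : FV p f (∑ y, max (C y) 0) := by
    intro h h0 h1
    calc ∫⁻ x in phase p, ENNReal.ofReal (DD f h x)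
        ≤ ∫⁻ x in phase p, ∑ y, ENNReal.ofReal |F (x.1, x.2 + h) y - F x y| := by
          refine lintegral_mono fun x => ?_
          show ENNReal.ofReal ‖f (x.1, x.2 + h) - f x‖ ≤ _
          rw [← ENNReal.ofReal_sum_of_nonneg fun y _ => abs_nonneg _]
          refine ENNReal.ofReal_le_ofReal ?_
          refine (pi_norm_le_iff_of_nonneg (Finset.sum_nonneg fun y _ => abs_nonneg _)).2
            fun y => ?_
          rw [Pi.sub_apply, Real.norm_eq_abs]
          refine (sq_lip _ _).trans ?_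
          exact Finset.single_le_sum (f := fun y => |F (x.1, x.2 + h) y - F x y|)
            (fun y _ => abs_nonneg _) (Finset.mem_univ y)
      _ = ∑ y, ∫⁻ x in phase p, ENNReal.ofReal |F (x.1, x.2 + h) y - F x y| := by
          rw [lintegral_finset_sum _ fun y _ => ?_]
          exact (((hF y).comp (measurable_fst.prodMk (measurable_snd.add_const h))).sub
            (hF y)).abs.ennreal_ofReal
      _ ≤ ∑ y, ENNReal.ofReal (max (C y) 0 * h) := by
          refine Finset.sum_le_sum fun y _ => (hC y h h0 h1).trans ?_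
          exact ENNReal.ofReal_le_ofReal (mul_le_mul_of_nonneg_right (le_max_left _ _) h0.le)
      _ = ENNReal.ofReal ((∑ y, max (C y) 0) * h) := by
          rw [← ENNReal.ofReal_sum_of_nonneg (fun y _ => by positivity), ← Finset.sum_mul]
  obtain ⟨g, hgm, hgb, hgp, hfg, hrefl, C', hC'⟩ := dir_fun hp hGr hfm hfb hfI
    (Finset.sum_nonneg fun y _ => le_max_right _ _) hFV
  obtain ⟨w, hw⟩ := const_perm hgm hgb hgp hC' irr (hrefl i) (hrefl (i - 1))
  have hws := (Measure.quasiMeasurePreserving_snd (μ := (volume : Measure ℂ))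
    (ν := (volume : Measure ℝ))).ae hw
  refine ⟨fun y => qs (w y), fun k y => ?_, ?_⟩
  · have h1 := congrFun (all_sides hw hrefl k) (R k y)
    rw [PI_ap, Equiv.symm_apply_apply] at h1
    simp only [h1]
  · filter_upwards [hfg, hws] with x a1 a2 hx y
    have h1 := a1 hx.1
    rw [a2] at h1
    have h2 : sq (F x y) = w y := congrFun h1 y
    rw [← h2, qs_sq]

theorem tile_main {p : Fin (n + 3) → ℂ} (hp : IsConvexPolygon p)
    (R : Fin (n + 3) → Equiv.Perm Y) :
    ((∃ i, Irrational (ang p i / π)) ∧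
      ∀ y y' : Y, ∃ σ ∈ Subgroup.closure (Set.range R), σ y = y') ↔
    ∀ F : ℂ × ℝ → Y → ℝ, (∀ y, Measurable fun x => F x y) → IsTileInvariant p R F →
      TileVariation p F → ∃ c : ℝ, ∀ᵐ x : ℂ × ℝ, x ∈ phase p → ∀ y, F x y = c := by
  classical
  constructor
  · rintro ⟨hirr, htr⟩ F hF hI hV
    obtain ⟨G, hG, hFG⟩ := tile_const hp hirr hF hI hV
    have hinv : ∀ σ ∈ Subgroup.closure (Set.range R), ∀ y, G (σ y) = G y := by
      intro σ hσ
      induction hσ using Subgroup.closure_induction with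
      | mem σ hσ =>
          obtain ⟨k, rfl⟩ := hσ
          exact hG k
      | one => exact fun y => rfl
      | mul σ ρ _ _ h1 h2 =>
          intro y
          show G (σ (ρ y)) = G y
          rw [h1, h2]
      | inv σ _ h1 =>
          intro y
          have := h1 (σ⁻¹ y)
          have e : σ (σ⁻¹ y) = y := σ.apply_symm_apply y
          rw [e] at this
          exact this.symm
    obtain ⟨y₀⟩ := (inferInstance : Nonempty Y)
    refine ⟨G y₀, ?_⟩
    filter_upwards [hFG] with x hx hxp y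
    obtain ⟨σ, hσ, rfl⟩ := htr y₀ y
    rw [hx hxp, hinv σ hσ]
  · intro h
    refine ⟨?_, fun y y' => ?_⟩
    · refine (finished hp).2.2 fun A hA hAI hAF => ?_
      obtain ⟨C, hC⟩ := hAF
      have heq : ∀ {x x' : ℂ × ℝ}, (x ∈ A ↔ x' ∈ A) →
          A.indicator (1 : ℂ × ℝ → ℝ) x = A.indicator (1 : ℂ × ℝ → ℝ) x' := by
        intro x x' hx
        by_cases h1 : x ∈ A
        · rw [indicator_of_mem h1, indicator_of_mem (hx.1 h1)]
          rfl
        · rw [indicator_of_notMem h1, indicator_of_notMem (fun h2 => h1 (hx.2 h2))]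
      obtain ⟨c, hc⟩ := h (fun x _ => A.indicator (1 : ℂ × ℝ → ℝ) x)
        (fun y => measurable_one.indicator hA)
        ⟨fun z θ y => heq (hAI.periodic z θ),
          fun z θ s h1 h2 y => heq (hAI.free z θ s h1 h2).symm,
          fun k w hw θ s r h1 h2 h3 h4 y => heq (hAI.reflect k w hw θ s r h1 h2 h3 h4).symm⟩
        (fun y => ⟨C, fun ε h0 h1 => by
          refine le_trans ?_ (hC ε h0 h1)
          have hmA : MeasurableSet {x : ℂ × ℝ | ¬ (x ∈ A ↔ (x.1, x.2 + ε) ∈ A)} := by
            have m1 : MeasurableSet {x : ℂ × ℝ | (x.1, x.2 + ε) ∈ A} :=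
              (measurable_fst.prodMk (measurable_snd.add_const ε)) hA
            have : {x : ℂ × ℝ | ¬ (x ∈ A ↔ (x.1, x.2 + ε) ∈ A)} =
                (A ∩ {x : ℂ × ℝ | (x.1, x.2 + ε) ∈ A}ᶜ) ∪
                  (Aᶜ ∩ {x : ℂ × ℝ | (x.1, x.2 + ε) ∈ A}) := by
              ext x
              simp only [mem_setOf_eq, mem_union, mem_inter_iff, mem_compl_iff]
              tauto
            rw [this]
            exact (hA.inter m1.compl).union (hA.compl.inter m1)
          calc ∫⁻ x in phase p, ENNReal.ofReal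
                |A.indicator (1 : ℂ × ℝ → ℝ) (x.1, x.2 + ε) - A.indicator (1 : ℂ × ℝ → ℝ) x|
              = ∫⁻ x in phase p,
                  ({x : ℂ × ℝ | ¬ (x ∈ A ↔ (x.1, x.2 + ε) ∈ A)}.indicator 1 x : ℝ≥0∞) := by
                refine lintegral_congr fun x => ?_
                by_cases hx : x ∈ A <;> by_cases hx' : (x.1, x.2 + ε) ∈ A
                · have : x ∉ {x : ℂ × ℝ | ¬ (x ∈ A ↔ (x.1, x.2 + ε) ∈ A)} := by
                    simp only [mem_setOf_eq, hx, hx', not_true, iff_self, not_false_eq_true]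
                  rw [indicator_of_mem hx, indicator_of_mem hx', indicator_of_notMem this]
                  simp
                · have : x ∈ {x : ℂ × ℝ | ¬ (x ∈ A ↔ (x.1, x.2 + ε) ∈ A)} := by
                    simp only [mem_setOf_eq, hx, hx', iff_false, not_true, not_false_eq_true]
                  rw [indicator_of_mem hx, indicator_of_notMem hx', indicator_of_mem this]
                  simp
                · have : x ∈ {x : ℂ × ℝ | ¬ (x ∈ A ↔ (x.1, x.2 + ε) ∈ A)} := by
                    simp only [mem_setOf_eq, hx, hx', iff_true, not_false_eq_true]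
                  rw [indicator_of_notMem hx, indicator_of_mem hx', indicator_of_mem this]
                  simp
                · have : x ∉ {x : ℂ × ℝ | ¬ (x ∈ A ↔ (x.1, x.2 + ε) ∈ A)} := by
                    simp only [mem_setOf_eq, hx, hx', iff_self, not_true, not_false_eq_true]
                  rw [indicator_of_notMem hx, indicator_of_notMem hx', indicator_of_notMem this]
                  simp
            _ = volume {x : ℂ × ℝ | x ∈ phase p ∧ ¬ (x ∈ A ↔ (x.1, x.2 + ε) ∈ A)} := by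
                rw [lintegral_indicator_one hmA, Measure.restrict_apply hmA, inter_comm]
                rfl
            _ ≤ volume {x : ℂ × ℝ | x ∈ phase p ∧ ¬ (x ∈ A ↔ (x.1, x.2 + ε) ∈ A)} := le_refl _⟩)
      obtain ⟨y₀⟩ := (inferInstance : Nonempty Y)
      by_cases h0 : c = 0
      · left
        have h4 : ∀ᵐ x : ℂ × ℝ, x ∉ phase p ∩ A := by
          filter_upwards [hc] with x hx hmem
          have := hx hmem.1 y₀
          rw [indicator_of_mem hmem.2, h0] at this
          exact one_ne_zero this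
        exact measure_eq_zero_iff_ae_notMem.2 h4
      · right
        have h4 : ∀ᵐ x : ℂ × ℝ, x ∉ phase p \ A := by
          filter_upwards [hc] with x hx hmem
          have := hx hmem.1 y₀
          rw [indicator_of_notMem hmem.2] at this
          exact h0 this.symm
        exact measure_eq_zero_iff_ae_notMem.2 h4
    · -- the indicator of an orbit
      let O : Set Y := {z | ∃ σ ∈ Subgroup.closure (Set.range R), σ y = z}
      have hO : ∀ k z, R k z ∈ O ↔ z ∈ O := by
        intro k z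
        have hk : R k ∈ Subgroup.closure (Set.range R) := Subgroup.subset_closure ⟨k, rfl⟩
        constructor
        · rintro ⟨σ, hσ, hz⟩
          refine ⟨(R k)⁻¹ * σ, mul_mem (inv_mem hk) hσ, ?_⟩
          show (R k)⁻¹ (σ y) = z
          rw [hz]
          exact (R k).symm_apply_apply z
        · rintro ⟨σ, hσ, hz⟩
          refine ⟨R k * σ, mul_mem hk hσ, ?_⟩
          show R k (σ y) = R k z
          rw [hz]
      obtain ⟨c, hc⟩ := h (fun _ z => if z ∈ O then 1 else 0) (fun z => measurable_const)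
        ⟨fun z θ w => rfl, fun z θ s h1 h2 w => rfl, fun k w hw θ s r h1 h2 h3 h4 z => by
          simp only [hO]⟩
        (fun z => ⟨0, fun ε h0 h1 => by
          simp only [sub_self, abs_zero, ENNReal.ofReal_zero, lintegral_zero, le_refl, zero_le]⟩)
      obtain ⟨x, hx, hxc⟩ := phase_pos hp hc
      have e1 := hxc y
      have e2 := hxc y'
      have hyO : y ∈ O := ⟨1, one_mem _, rfl⟩
      rw [if_pos hyO] at e1
      rw [← e1] at e2
      by_contra hcon
      have hy' : y' ∉ O := hcon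
      rw [if_neg hy'] at e2
      exact zero_ne_one e2

end

end Pool.Agent.Q183.BX
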